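import Pool.Agent.Lib.MP_3184af_co.Tate.Car

set_option autoImplicit false

namespace Pool.Agent.Lib.MP_3184af_co.Tate

open Finset

variable {ι C V : Type} [DecidableEq ι] [CommRing C] [AddCommGroup V] [Module C V]

theorem band_sh_nat {𝒲 : ℤ → AddSubgroup V} (n : ℕ) : Sh 𝒲 (n : C) 0 := by
  induction n with
  | zero => simpa using Sh.zero 0
  | succ n ih => rw [Nat.cast_succ]; exact ih.add Sh.one

theorem band_mem {𝒲 : ℤ → AddSubgroup V} {c : C} {k j j' : ℤ} {y : V} (hc : Sh 𝒲 c k)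
    (hy : y ∈ 𝒲 j) (h : j + k = j') : c • y ∈ 𝒲 j' := h ▸ hc j y hy

theorem band_cast {𝒲 : ℤ → AddSubgroup V} {j j' : ℤ} {y : V} (hy : y ∈ 𝒲 j) (h : j = j') :
    y ∈ 𝒲 j' := h ▸ hy

theorem band_pow_succ (E a x : C) (hx : ∀ v : V, (x * x) • v = 0) (k : ℕ) (v : V) :
    (a * x + E) ^ (k + 1) • v = E ^ (k + 1) • v + x • ((((k : C) + 1) * a * E ^ k) • v) := by
  induction k generalizing v with
  | zero =>
    simp only [zero_add, pow_one, Nat.cast_zero, pow_zero]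
    module
  | succ k ih =>
    rw [pow_succ, mul_smul, ih]
    have := hx ((((k : C) + 1) * a * a * E ^ k) • v)
    push_cast
    linear_combination (norm := module) this

/-- Exactness of the periodic complex with exponents `e` and `f` at weight `w`. -/
def BandEx (𝒲 : ℤ → AddSubgroup V) (D : Module.End C V) (E : C) (e f : ℕ) (w : ℤ) : Prop :=
  ∀ z ∈ 𝒲 w, ∀ y ∈ 𝒲 (w + e - f), D z + E ^ f • y = 0 → E ^ e • z - D y = 0 →
    ∃ z' ∈ 𝒲 (w - e - f), ∃ y' ∈ 𝒲 (w - 2 * f), D z' + E ^ f • y' = z ∧ E ^ e • z' - D y' = y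

/-- One more variable. -/
theorem band_step (𝒲 𝒲' : ℤ → AddSubgroup V) (D : Module.End C V) (E a x b : C) (m n : ℕ) (w : ℤ)
    (hC : ((m : C) + 1) + ((n : C) + 1) = 0) (hx : ∀ v : V, (x * x) • v = 0)
    (hb : b * (((m : C) + 1) * a) = 1) (hbs : Sh 𝒲 b 0) (ha : Sh 𝒲 a 0) (hE : Sh 𝒲 E 2)
    (hxs : Sh 𝒲' x 2) (hDm : ∀ w, ∀ v ∈ 𝒲 w, D v ∈ 𝒲 (w + (m + n + 2)))
    (hmono : ∀ w, 𝒲 w ≤ 𝒲' w)
    (hdec : ∀ w, ∀ y ∈ 𝒲' w, ∃ y0 ∈ 𝒲 w, ∃ y1 ∈ 𝒲 (w - 2), y = y0 + x • y1)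
    (huniq : ∀ w w', ∀ y0 ∈ 𝒲 w, ∀ y1 ∈ 𝒲 w', y0 + x • y1 = 0 → y0 = 0 ∧ y1 = 0)
    (h1 : BandEx 𝒲 D E (m + 2) n (w - 2)) (h2 : BandEx 𝒲 D E m (n + 2) w) :
    BandEx 𝒲' D (a * x + E) (m + 1) (n + 1) w := by
  intro z hz y hy e1 e2
  obtain ⟨z0, hz0, z1, hz1, rfl⟩ := hdec _ z hz
  obtain ⟨y0, hy0, y1, hy1, rfl⟩ := hdec _ y hy
  have hm : Sh 𝒲 ((m : C) + 1) 0 := (band_sh_nat m).add Sh.one
  have hn : Sh 𝒲 ((n : C) + 1) 0 := (band_sh_nat n).add Sh.one
  have hma : Sh 𝒲 (((m : C) + 1) * a) 0 := (hm.mul ha).cast (by ring)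
  rw [band_pow_succ E a x hx] at e1 e2
  have hx1 := hx ((((n : C) + 1) * a * E ^ n) • y1)
  have hx2 := hx ((((m : C) + 1) * a * E ^ m) • z1)
  obtain ⟨a1, b1⟩ := huniq (w + (m + n + 2)) (w + (m + n)) (D z0 + E ^ (n + 1) • y0)
    (add_mem (hDm _ _ hz0) (band_mem (hE.pow _) hy0 (by push_cast; ring)))
    (D z1 + E ^ (n + 1) • y1 + (((n : C) + 1) * a * E ^ n) • y0)
    (add_mem (add_mem (band_cast (hDm _ _ hz1) (by ring))
      (band_mem (hE.pow _) hy1 (by push_cast; ring)))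
      (band_mem ((hn.mul ha).mul (hE.pow _)) hy0 (by push_cast; ring)))
    (by rw [map_add, map_smul] at e1; linear_combination (norm := module) e1 - hx1)
  obtain ⟨a2, b2⟩ := huniq (w + 2 * m + 2) (w + 2 * m) (E ^ (m + 1) • z0 - D y0)
    (sub_mem (band_mem (hE.pow _) hz0 (by push_cast; ring))
      (band_cast (hDm _ _ hy0) (by push_cast; ring)))
    (E ^ (m + 1) • z1 + (((m : C) + 1) * a * E ^ m) • z0 - D y1)
    (sub_mem (add_mem (band_mem (hE.pow _) hz1 (by push_cast; ring))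
      (band_mem (hma.mul (hE.pow _)) hz0 (by ring)))
      (band_cast (hDm _ _ hy1) (by push_cast; ring)))
    (by rw [map_add, map_smul] at e2; linear_combination (norm := module) e2 - hx2)
  obtain ⟨Z, hZ, Y, hY, c1, c2⟩ := h1 z1 hz1 (E • y1 - (((m : C) + 1) * a) • y0)
    (sub_mem (band_mem hE hy1 (by push_cast; ring)) (band_mem hma hy0 (by push_cast; ring)))
    (by linear_combination (norm := module) b1 - hC • ((a * E ^ n) • y0))
    (by
      rw [map_sub, map_smul, map_smul]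
      linear_combination (norm := module) E • b2 - (((m : C) + 1) * a) • a2)
  obtain ⟨Z', hZ', Y', hY', d1, d2⟩ := h2 (z0 + (b * E ^ (n + 1)) • Y)
    (add_mem hz0 (band_mem (hbs.mul (hE.pow _)) hY (by push_cast; ring)))
    (b • (y1 - E ^ (m + 1) • Z))
    (band_mem hbs (sub_mem hy1 (band_mem (hE.pow _) hZ (by push_cast; ring))) (by push_cast; ring))
    (by
      rw [map_add, map_smul]
      linear_combination (norm := module) a1 - (b * E ^ (n + 1)) • c2 + hb • (E ^ (n + 1) • y0))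
    (by
      rw [map_smul, map_sub, map_smul]
      linear_combination (norm := module) b • b2 + (b * E ^ (m + 1)) • c1 - hb • (E ^ m • z0))
  refine ⟨Z' + x • Z, add_mem (hmono _ (band_cast hZ' (by push_cast; ring)))
      (band_mem hxs (hmono _ hZ) (by push_cast; ring)),
    (E • Y' - b • Y) + x • ((((m : C) + 1) * a) • Y'),
    add_mem (hmono _ (sub_mem (band_mem hE hY' (by push_cast; ring))
      (band_mem hbs hY (by push_cast; ring))))
      (band_mem hxs (hmono _ (band_mem hma hY' rfl)) (by push_cast; ring)), ?_, ?_⟩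
  · rw [band_pow_succ E a x hx, map_add, map_smul]
    have hx3 := hx ((((n : C) + 1) * a * E ^ n * (((m : C) + 1) * a)) • Y')
    linear_combination (norm := module) d1 + x • c1 + hx3 + hC • ((x * a * E ^ (n + 1)) • Y')
      - hC • ((x * a * b * E ^ n) • Y) + hb • ((x * E ^ n) • Y)
  · rw [band_pow_succ E a x hx, map_add, map_sub, map_smul, map_smul, map_smul, map_smul]
    have hx3 := hx ((((m : C) + 1) * a * E ^ m) • Z)
    linear_combination (norm := module) E • d2 + (x * (((m : C) + 1) * a)) • d2 + hx3 - b • c2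
      + hb • (x • (y1 - E ^ (m + 1) • Z)) + hb • y0

/-- Every new variable moves the start of the periodic complex by one. -/
theorem band {p : ℕ} (hp : p.Prime) (hC : (p : C) = 0) (x a : ι → C)
    (𝒱 : Finset ι → ℤ → AddSubgroup V) (D : Module.End C V) (S : Finset ι) (s0 : ℤ)
    (hx : ∀ i, ∀ v : V, (x i * x i) • v = 0)
    (hu : ∀ i ∈ S, ∀ e : ℕ, 0 < e → e < p → ∃ b : C, b * (e * a i) = 1 ∧ ∀ T, Sh (𝒱 T) b 0)
    (ha : ∀ i ∈ S, ∀ T, Sh (𝒱 T) (a i) 0) (hxs : ∀ T ⊆ S, ∀ i ∈ T, Sh (𝒱 T) (x i) 2)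
    (hD : D * D = 0) (hDm : ∀ T w, ∀ v ∈ 𝒱 T w, D v ∈ 𝒱 T (w + p))
    (hmono : ∀ T i w, 𝒱 T w ≤ 𝒱 (insert i T) w)
    (hdec : ∀ T ⊆ S, ∀ i ∈ S, i ∉ T → ∀ w, ∀ y ∈ 𝒱 (insert i T) w,
      ∃ y0 ∈ 𝒱 T w, ∃ y1 ∈ 𝒱 T (w - 2), y = y0 + x i • y1)
    (huniq : ∀ T ⊆ S, ∀ i ∈ S, i ∉ T → ∀ w w', ∀ y0 ∈ 𝒱 T w, ∀ y1 ∈ 𝒱 T w',
      y0 + x i • y1 = 0 → y0 = 0 ∧ y1 = 0)
    (h0 : ∀ w < s0, Ex D (𝒱 ∅) p w) :
    ∀ T ⊆ S, ∀ e : ℕ, e ≤ p → ∀ w : ℤ, w < s0 + T.card - e + 1 →
      ∀ z ∈ 𝒱 T w, ∀ y ∈ 𝒱 T (w - (p - 2 * e)),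
      D z + (∑ i ∈ T, a i * x i) ^ (p - e) • y = 0 → (∑ i ∈ T, a i * x i) ^ e • z - D y = 0 →
      ∃ z' ∈ 𝒱 T (w - p), ∃ y' ∈ 𝒱 T (w - p - (p - 2 * e)),
        D z' + (∑ i ∈ T, a i * x i) ^ (p - e) • y' = z ∧
        (∑ i ∈ T, a i * x i) ^ e • z' - D y' = y := by
  have key : ∀ T ⊆ S, ∀ e f : ℕ, e + f = p → ∀ w : ℤ, w < s0 + T.card - e + 1 →
      BandEx (𝒱 T) D (∑ i ∈ T, a i * x i) e f w := by
    have hp0 : p ≠ 0 := hp.ne_zero
    have hz : ∀ T (f : ℕ) w, 0 + f = p → BandEx (𝒱 T) D (∑ i ∈ T, a i * x i) 0 f w := by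
      intro T f w hf z _ y hy _ e2
      refine ⟨y, band_cast hy (by push_cast; ring), 0, zero_mem _, ?_, ?_⟩
      · rw [pow_zero, one_smul, sub_eq_zero] at e2
        rw [smul_zero, add_zero, e2]
      · simp
    have hz' : ∀ T (e : ℕ) w, e + 0 = p → BandEx (𝒱 T) D (∑ i ∈ T, a i * x i) e 0 w := by
      intro T e w he z hz y _ e1 _
      refine ⟨0, zero_mem _, z, band_cast hz (by push_cast; ring), by simp, ?_⟩
      rw [pow_zero, one_smul, add_eq_zero_iff_neg_eq] at e1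
      rw [smul_zero, zero_sub, e1]
    intro T
    induction T using Finset.induction_on with
    | empty =>
      intro _ e f hef w hw
      rcases e with _ | m
      · exact hz _ _ _ hef
      rcases f with _ | n
      · exact hz' _ _ _ hef
      intro z hz y hy e1 e2
      simp only [sum_empty, ne_eq, Nat.add_eq_zero_iff, one_ne_zero, and_false, not_false_eq_true,
        zero_pow, zero_smul, add_zero, zero_sub, neg_eq_zero] at e1 e2 ⊢
      have hw' : w < s0 - m := by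
        simp only [card_empty] at hw
        push_cast at hw
        omega
      have hpz : (p : ℤ) = m + n + 2 := by rw [← hef]; push_cast; ring
      obtain ⟨z', hz', rfl⟩ := h0 w (by omega) z hz e1
      obtain ⟨y', hy', rfl⟩ := h0 _ (by push_cast; omega) y hy e2
      exact ⟨z', band_cast hz' (by rw [hpz]; push_cast; ring), -y',
        neg_mem (band_cast hy' (by rw [hpz]; push_cast; ring)), rfl, by simp⟩
    | insert i T hi ih =>
      intro hT e f hef w hw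
      rcases e with _ | m
      · exact hz _ _ _ hef
      rcases f with _ | n
      · exact hz' _ _ _ hef
      have hiS : i ∈ S := hT (mem_insert_self _ _)
      have hTS : T ⊆ S := (subset_insert _ _).trans hT
      obtain ⟨b, hb, hbs⟩ := hu i hiS (m + 1) (by omega) (by omega)
      have hpz : (p : ℤ) = m + n + 2 := by rw [← hef]; push_cast; ring
      rw [card_insert_of_notMem hi] at hw
      rw [sum_insert hi]
      refine band_step (𝒱 T) (𝒱 (insert i T)) D _ (a i) (x i) b m n w ?_ (hx i)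
        (by simpa using hb) (hbs T) (ha i hiS T)
        (Sh.sum _ fun j hj => ((ha j (hTS hj) T).mul (hxs T hTS j hj)).cast (by ring))
        (hxs _ hT i (mem_insert_self _ _)) (fun w v hv => hpz ▸ hDm T w v hv) (hmono T i)
        (hdec T hTS i hiS hi) (huniq T hTS i hiS hi)
        (ih hTS _ _ (by omega) _ (by push_cast at hw ⊢; omega))
        (ih hTS _ _ (by omega) _ (by push_cast at hw ⊢; omega))
      rw [← hef] at hC
      push_cast at hC
      exact hC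
  intro T hT e he w hw z hz y hy e1 e2
  have hc : ((p - e : ℕ) : ℤ) = p - e := by push_cast [he]; ring
  obtain ⟨z', hz', y', hy', h1, h2⟩ := key T hT e (p - e) (by omega) w hw z hz y
    (band_cast hy (by rw [hc]; ring)) e1 e2
  exact ⟨z', band_cast hz' (by rw [hc]; ring), y', band_cast hy' (by rw [hc]; ring), h1, h2⟩

/-- The `p`-th power of a combination of variables of square zero acts as zero. -/
theorem theta_pow {p : ℕ} (hp : p.Prime) (hC : (p : C) = 0) (x a : ι → C)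
    (hx : ∀ i, ∀ v : V, (x i * x i) • v = 0) (T : Finset ι) (v : V) :
    (∑ i ∈ T, a i * x i) ^ p • v = 0 := by
  obtain ⟨k, rfl⟩ : ∃ k, p = k + 1 := ⟨p - 1, by have := hp.pos; omega⟩
  induction T using Finset.induction_on with
  | empty => simp
  | insert i T hi ih =>
    rw [sum_insert hi, band_pow_succ _ _ _ (hx i), ih]
    push_cast at hC
    simp [hC]

end Pool.Agent.Lib.MP_3184af_co.Tate
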