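import Pool.Agent.Lib.MP_3184af_co.Tate.Defs

set_option autoImplicit false

namespace Pool.Agent.Lib.MP_3184af_co.Tate

open Finset

variable {ι σ F : Type} [DecidableEq ι] [LinearOrder σ] [Fintype σ] [Field F]
  {K K' : Type} [CommRing K] [Algebra F K] [CommRing K'] [Algebra F K']

namespace Base

/-- Coefficientwise image of a square-free polynomial. -/
def sm (ψ : K →+ K') : Sq ι K →+ Sq ι K' where
  toFun y A := ψ (y A)
  map_zero' := Sq.ext fun _ => ψ.map_zero
  map_add' _ _ := Sq.ext fun _ => ψ.map_add _ _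

/-- Polynomials that act compatibly. -/
def Rel (ψ : K →+ K') (P : MvPolynomial ι K) (P' : MvPolynomial ι K') : Prop :=
  ∀ y : Sq ι K, sm ψ (P • y) = P' • sm ψ y

variable {ψ : K →+ K'} {P Q : MvPolynomial ι K} {P' Q' : MvPolynomial ι K'}

theorem Rel.one : Rel ψ (1 : MvPolynomial ι K) 1 := fun y => by rw [one_smul, one_smul]

theorem Rel.neg (h : Rel ψ P P') : Rel ψ (-P) (-P') := fun y => by
  rw [neg_smul, neg_smul, map_neg, h]

theorem Rel.mul (h : Rel ψ P P') (h' : Rel ψ Q Q') : Rel ψ (P * Q) (P' * Q') := fun y => by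
  rw [mul_smul, mul_smul, h, h']

theorem Rel.pow (h : Rel ψ P P') (n : ℕ) : Rel ψ (P ^ n) (P' ^ n) := by
  induction n with
  | zero => simpa using Rel.one
  | succ n ih => simpa only [pow_succ] using ih.mul h

theorem Rel.sum {α : Type} (s : Finset α) {P : α → MvPolynomial ι K}
    {P' : α → MvPolynomial ι K'} (h : ∀ i, Rel ψ (P i) (P' i)) :
    Rel ψ (∑ i ∈ s, P i) (∑ i ∈ s, P' i) := fun y => by
  rw [sum_smul, sum_smul, map_sum]
  exact sum_congr rfl fun i _ => h i y

theorem Rel.X (i : ι) : Rel ψ (MvPolynomial.X i) (MvPolynomial.X i) := fun y => Sq.ext fun A => by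
  change ψ ((_ • y) A) = _
  rw [X_smul, X_smul]
  split_ifs
  exacts [rfl, ψ.map_zero]

theorem Rel.C {a : K} {a' : K'} (h : ∀ r, ψ (a * r) = a' * ψ r) :
    Rel ψ (MvPolynomial.C a : MvPolynomial ι K) (MvPolynomial.C a') := fun y =>
  Sq.ext fun A => by
    change ψ ((_ • y) A) = _
    rw [C_smul, C_smul, h]
    rfl

omit [Fintype σ] in
theorem Rel.sgn (l : σ) (B : Finset σ) :
    Rel ψ (sgn (MvPolynomial ι K) l B) (sgn (MvPolynomial ι K') l B) := Rel.one.neg.pow _

omit [LinearOrder σ] [Fintype σ] in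
theorem Rel.lf (ψ : K →ₗ[F] K') (g : ι → σ → F) (U : Finset ι) (l : σ) :
    Rel ψ.toAddMonoidHom (lf K g U l) (lf K' g U l) :=
  Rel.sum _ fun i => (Rel.C fun r => by
    rw [← Algebra.smul_def, ← Algebra.smul_def]
    exact ψ.map_smul _ _).mul (Rel.X i)

theorem cmap_dK {a : σ → MvPolynomial ι K} {a' : σ → MvPolynomial ι K'}
    (h : ∀ l, Rel ψ (a l) (a' l)) (v : Finset σ → Sq ι K) :
    cmap ψ (dK (Sq ι K) a v) = dK (Sq ι K') a' (cmap ψ v) := funext fun B => by
  change sm ψ (dK (Sq ι K) a v B) = _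
  rw [dK_apply, dK_apply, map_sum]
  refine sum_congr rfl fun l _ => ?_
  split_ifs
  exacts [(h l).mul (Rel.sgn l B) _, map_zero _]

theorem cmap_dI {a : σ → MvPolynomial ι K} {a' : σ → MvPolynomial ι K'}
    (h : ∀ l, Rel ψ (a l) (a' l)) (v : Finset σ → Sq ι K) :
    cmap ψ (dI (Sq ι K) a v) = dI (Sq ι K') a' (cmap ψ v) := funext fun B => by
  change sm ψ (dI (Sq ι K) a v B) = _
  rw [dI_apply, dI_apply, map_sum]
  refine sum_congr rfl fun l _ => ?_
  split_ifs
  exacts [map_zero _, (h l).mul (Rel.sgn l B) _]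

/-- The linear form of a vector, as a linear map. -/
noncomputable def linL : (σ → F) →ₗ[F] MvPolynomial σ F where
  toFun := lin
  map_add' a b := by simp [lin, add_mul, sum_add_distrib]
  map_smul' c a := by simp [lin, MvPolynomial.smul_eq_C_mul, mul_sum, mul_assoc]

theorem lin_single (l : σ) : lin (Pi.single l (1 : F)) = MvPolynomial.X l := by
  rw [lin, sum_eq_single l] <;> simp +contextual

theorem eq_zero_of_lin {a : σ → F} (h : lin a = 0) : a = 0 := funext fun l => by
  have := congrArg (MvPolynomial.eval (Pi.single l (1 : F))) h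
  rw [lin, map_sum, sum_eq_single l] at this
  · simpa using this
  · simp +contextual
  · simp

omit [LinearOrder σ] in
theorem lin_mem {D : Submodule F (σ → F)} {a : σ → F} (h : a ∈ D) : lin a ∈ idl D :=
  Ideal.subset_span ⟨a, h, rfl⟩

end Base

omit [LinearOrder σ] [Fintype σ] in
theorem cmap_C (ψ : K →+ K') {a : K} {a' : K'} (h : ∀ r, ψ (a * r) = a' * ψ r)
    (v : Finset σ → Sq ι K) :
    cmap ψ ((MvPolynomial.C a : MvPolynomial ι K) • v) =
      (MvPolynomial.C a' : MvPolynomial ι K') • cmap ψ v := by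
  exact funext fun B => Base.Rel.C h (v B)

theorem cmap_dKos (ψ : K →ₗ[F] K') (g : ι → σ → F) (U : Finset ι) (v : Finset σ → Sq ι K) :
    cmap ψ.toAddMonoidHom (dKos K g U v) = dKos K' g U (cmap ψ.toAddMonoidHom v) := by
  exact Base.cmap_dK (Base.Rel.lf ψ g U) v

theorem cmap_dS (ψ : K →ₗ[F] K') (p : ℕ) (g : ι → σ → F) (U : Finset ι) {c : σ → K} {c' : σ → K'}
    (h : ∀ l r, ψ (c l * r) = c' l * ψ r) (v : Finset σ → Sq ι K) :
    cmap ψ.toAddMonoidHom (dS p g U c v) = dS p g U c' (cmap ψ.toAddMonoidHom v) := by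
  rw [dS, dS, LinearMap.add_apply, LinearMap.add_apply, map_add,
    Base.cmap_dK (Base.Rel.lf ψ g U) v, Base.cmap_dI (fun l =>
      ((Base.Rel.C (ψ := ψ.toAddMonoidHom) (h l)).pow p).mul ((Base.Rel.lf ψ g U l).pow _)) v]

theorem dS_zero {p : ℕ} (hp : 1 ≤ p) (g : ι → σ → F) (U : Finset ι) :
    dS p g U (0 : σ → K) = dKos K g U := by
  rw [dS, dKos, add_eq_left, ← dI_zero]
  congr 1
  funext l
  simp [zero_pow (show p ≠ 0 by omega)]

/-- Change of the coefficient ring in the Koszul complex. -/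
theorem kos_base (K : Type) [CommRing K] [Algebra F K] {p : ℕ} (g : ι → σ → F) (U : Finset ι)
    {w : ℤ} (h : Ex (dKos F g U) (Yw σ F p U) p w) : Ex (dKos K g U) (Yw σ K p U) p w := by
  classical
  intro v hv h0
  let b := Module.Basis.ofVectorSpace F K
  choose z hz hd using fun i => h (cmap (b.coord i).toAddMonoidHom v) (cmap_mem _ hv)
    (by rw [← cmap_dKos, h0, map_zero])
  let s := (univ ×ˢ U.powerset).biUnion fun q : Finset σ × Finset ι => (b.repr (v q.1 q.2)).support
  refine ⟨∑ i ∈ s, cmap (LinearMap.toSpanSingleton F K (b i)).toAddMonoidHom (z i),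
    sum_mem fun i _ => cmap_mem _ (hz i), ?_⟩
  rw [map_sum, sum_congr rfl fun i _ => (cmap_dKos _ g U (z i)).symm]
  refine funext fun B => Sq.ext fun A => ?_
  rw [Finset.sum_apply, Sq.sum_apply]
  simp only [hd]
  change ∑ i ∈ s, b.repr (v B A) i • b i = _
  by_cases hA : A ⊆ U
  · conv_rhs => rw [← b.linearCombination_repr (v B A), Finsupp.linearCombination_apply]
    exact (Finsupp.sum_of_support_subset (b.repr (v B A)) (fun i hi => mem_biUnion.2
      ⟨(B, A), mem_product.2 ⟨mem_univ _, mem_powerset.2 hA⟩, hi⟩) (fun i c => c • b i)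
      fun i _ => zero_smul _ _).symm
  · simp [hv B A fun k => hA k.1]

omit [LinearOrder σ] [Fintype σ] in
theorem lf_pow {p : ℕ} (hp : p.Prime) [CharP F p] (g : ι → σ → F) (U : Finset ι) (l : σ)
    (v : Finset σ → Sq ι K) : lf K g U l ^ p • v = 0 := by
  rcases subsingleton_or_nontrivial K with _ | _
  · exact funext fun B => Sq.ext fun A => Subsingleton.elim _ _
  have := Fact.mk hp
  have : CharP K p := charP_of_injective_algebraMap (algebraMap F K).injective p
  rw [lf, sum_pow_char, sum_smul]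
  refine sum_eq_zero fun i _ => funext fun B => ?_
  obtain ⟨n, hn⟩ : ∃ n, p = n + 2 := ⟨p - 2, by have := hp.two_le; omega⟩
  rw [Pi.smul_apply, mul_pow, show (MvPolynomial.X i : MvPolynomial ι K) ^ p =
    MvPolynomial.X i ^ n * (MvPolynomial.X i * MvPolynomial.X i) by rw [hn]; ring, mul_smul,
    mul_smul, X_X_smul, smul_zero, smul_zero]
  rfl

theorem dS_sq {p : ℕ} (hp : p.Prime) [CharP F p] (g : ι → σ → F) (U : Finset ι) (c : σ → K)
    (v : Finset σ → Sq ι K) : dS p g U c (dS p g U c v) = 0 := by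
  rw [← Module.End.mul_apply, dS, d_sq, LinearMap.smul_apply, Module.End.one_apply, sum_smul]
  refine sum_eq_zero fun l _ => ?_
  rw [mul_assoc, pow_sub_one_mul hp.ne_zero, mul_smul, lf_pow hp, smul_zero]

theorem lin_reg {D : Submodule F (σ → F)} {a : σ → F} (ha : a ∉ D) {f : MvPolynomial σ F}
    (h : lin a * f ∈ idl D) : f ∈ idl D := by
  obtain ⟨E, hE⟩ := D.exists_isCompl
  obtain ⟨π, h1, h2⟩ : ∃ π : (σ → F) →ₗ[F] σ → F, (∀ x, x - π x ∈ D) ∧ ∀ x ∈ D, π x = 0 :=
    ⟨_, Submodule.sub_projection_mem hE.symm,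
      fun _ => Submodule.projection_apply_of_mem_right hE.symm⟩
  let φ : MvPolynomial σ F →ₐ[F] MvPolynomial σ F :=
    MvPolynomial.aeval fun l => lin (π (Pi.single l 1))
  have h3 : ∀ x, φ (lin x) = lin (π x) := fun x =>
    LinearMap.congr_fun (show φ.toLinearMap ∘ₗ Base.linL = Base.linL ∘ₗ π from
      LinearMap.pi_ext' fun l => LinearMap.ext_ring (by
        change φ (lin (Pi.single l 1)) = _
        rw [Base.lin_single, MvPolynomial.aeval_X]
        rfl)) x
  have h4 : ∀ f, f - φ f ∈ idl D := fun f => by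
    induction f using MvPolynomial.induction_on with
    | C r => simp [φ]
    | add P Q hP hQ =>
      rw [map_add, add_sub_add_comm]
      exact add_mem hP hQ
    | mul_X P l hP =>
      have h5 : MvPolynomial.X l - φ (MvPolynomial.X l) ∈ idl D := by
        rw [← Base.lin_single, h3]
        exact (Base.linL.map_sub (Pi.single l 1) (π (Pi.single l 1))).subst
          (motive := (· ∈ idl D)) (Base.lin_mem (h1 _))
      rw [map_mul, show P * MvPolynomial.X l - φ P * φ (MvPolynomial.X l) = (P - φ P) *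
        MvPolynomial.X l + φ P * (MvPolynomial.X l - φ (MvPolynomial.X l)) by ring]
      exact add_mem (Ideal.mul_mem_right _ _ hP) (Ideal.mul_mem_left _ _ h5)
  have h5 : idl D ≤ RingHom.ker φ := Ideal.span_le.2 (by
    rintro _ ⟨x, hx, rfl⟩
    change φ (lin x) = 0
    rw [h3, h2 x hx]
    exact Base.linL.map_zero)
  have h6 := RingHom.mem_ker.1 (h5 h)
  rw [map_mul, h3, mul_eq_zero] at h6
  simpa [h6.resolve_left fun k => ha (by simpa [Base.eq_zero_of_lin k] using h1 a)] using h4 f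

omit [LinearOrder σ] in
theorem idl_sup (D : Submodule F (σ → F)) (a : σ → F) {f : MvPolynomial σ F}
    (h : f ∈ idl (D ⊔ Submodule.span F {a})) : ∃ f', f - lin a * f' ∈ idl D := by
  have h1 : idl (D ⊔ Submodule.span F {a}) ≤ idl D ⊔ Ideal.span {lin a} := Ideal.span_le.2 (by
    rintro _ ⟨x, hx, rfl⟩
    obtain ⟨d, hd, y, hy, rfl⟩ := Submodule.mem_sup.1 hx
    obtain ⟨c, rfl⟩ := Submodule.mem_span_singleton.1 hy
    rw [show lin (d + c • a) = lin d + MvPolynomial.C c * lin a by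
      simp [lin, add_mul, sum_add_distrib, mul_sum, mul_assoc]]
    exact Submodule.add_mem_sup (Base.lin_mem hd)
      (Ideal.mul_mem_left _ _ (Ideal.mem_span_singleton_self _)))
  obtain ⟨x, hx, y, hy, rfl⟩ := Submodule.mem_sup.1 (h1 h)
  obtain ⟨f', rfl⟩ := Ideal.mem_span_singleton.1 hy
  exact ⟨f', by simpa using hx⟩

theorem exists_J (L : Submodule F (σ → F)) :
    ∃ J : Finset σ, J.card = Module.finrank F L ∧ ∀ v ∈ L, (∀ l ∈ J, v l = 0) → v = 0 := by
  suffices H : ∀ (n : ℕ) (L : Submodule F (σ → F)), Module.finrank F L = n → ∃ J : Finset σ,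
      J.card = n ∧ (∀ v ∈ L, (∀ l ∈ J, v l = 0) → v = 0) ∧ ∀ l ∈ J, ∃ v ∈ L, v l ≠ 0 from
    (H _ L rfl).imp fun J h => ⟨h.1, h.2.1⟩
  intro n
  induction n with
  | zero =>
    intro L hL
    rw [Submodule.finrank_eq_zero.1 hL]
    exact ⟨∅, rfl, fun v hv _ => hv, by simp⟩
  | succ n ih =>
    intro L hL
    obtain ⟨v, hv, h0⟩ := (Submodule.ne_bot_iff L).1 fun h => by
      rw [h, finrank_bot] at hL
      omega
    obtain ⟨l, hl⟩ := Function.ne_iff.1 h0
    let φ : L →ₗ[F] F := (LinearMap.proj l).domRestrict L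
    have h1 : LinearMap.range φ = ⊤ := (eq_bot_or_eq_top _).resolve_left fun h =>
      hl (LinearMap.congr_fun (LinearMap.range_eq_bot.1 h) ⟨v, hv⟩)
    have h2 := φ.finrank_range_add_finrank_ker
    rw [h1, finrank_top, Module.finrank_self, hL, ← Submodule.finrank_map_subtype_eq] at h2
    obtain ⟨J, h3, h4, h5⟩ := ih _ (show Module.finrank F ((LinearMap.ker φ).map L.subtype) = n by
      omega)
    have h6 : l ∉ J := fun h => by
      obtain ⟨_, ⟨x, hx, rfl⟩, h7⟩ := h5 l h
      exact h7 hx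
    refine ⟨insert l J, by rw [card_insert_of_notMem h6, h3], fun x hx h => h4 x
      ⟨⟨x, hx⟩, h l (mem_insert_self _ _), rfl⟩ fun k hk => h k (mem_insert_of_mem hk),
      forall_mem_insert _ _ _ |>.2 ⟨⟨v, hv, hl⟩, fun k hk => ?_⟩⟩
    obtain ⟨_, ⟨x, -, rfl⟩, h7⟩ := h5 k hk
    exact ⟨x, x.2, h7⟩

end Pool.Agent.Lib.MP_3184af_co.Tate
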