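import Mathlib

/-!
Creation and annihilation operators on families indexed by the subsets of a finite ordered set,
and weights.
-/

set_option autoImplicit false

namespace Pool.Agent.Lib.MP_3184af_co.Tate

open Finset

section Car
variable {σ : Type} [LinearOrder σ] (C W : Type) [CommRing C] [AddCommGroup W] [Module C W]

/-- The sign of `l` with respect to `B`. -/
def sgn (l : σ) (B : Finset σ) : C := (-1) ^ (B.filter (· < l)).card

/-- Creation operator. -/
def ze (l : σ) : Module.End C (Finset σ → W) where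
  toFun v B := if l ∈ B then sgn C l B • v (B.erase l) else 0
  map_add' v v' := by funext B; by_cases h : l ∈ B <;> simp [h]
  map_smul' c v := by funext B; by_cases h : l ∈ B <;> simp [h, smul_comm c]

/-- Annihilation operator. -/
def io (l : σ) : Module.End C (Finset σ → W) where
  toFun v B := if l ∈ B then 0 else sgn C l B • v (insert l B)
  map_add' v v' := by funext B; by_cases h : l ∈ B <;> simp [h]
  map_smul' c v := by funext B; by_cases h : l ∈ B <;> simp [h, smul_comm c]

variable {C W}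

theorem ze_apply (l : σ) (v : Finset σ → W) (B : Finset σ) :
    ze C W l v B = if l ∈ B then sgn C l B • v (B.erase l) else 0 := rfl

theorem io_apply (l : σ) (v : Finset σ → W) (B : Finset σ) :
    io C W l v B = if l ∈ B then 0 else sgn C l B • v (insert l B) := rfl

theorem sgn_mul_self (l : σ) (B : Finset σ) : sgn C l B * sgn C l B = 1 := by
  rw [sgn, ← mul_pow]; simp

theorem sgn_insert_self (l : σ) (B : Finset σ) : sgn C l (insert l B) = sgn C l B := by
  simp [sgn, filter_insert]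

theorem sgn_erase_self (l : σ) (B : Finset σ) : sgn C l (B.erase l) = sgn C l B := by
  simp [sgn, filter_erase]

theorem sgn_insert {l m : σ} {B : Finset σ} (hm : m ∉ B) :
    sgn C l (insert m B) = (if m < l then -1 else 1) * sgn C l B := by
  by_cases h : m < l
  · rw [sgn, filter_insert, if_pos h, card_insert_of_notMem (by simp [hm]), if_pos h, pow_succ, sgn]
    ring
  · rw [sgn, filter_insert, if_neg h, if_neg h, one_mul, sgn]

theorem sgn_swap {l m : σ} (h : l ≠ m) {B : Finset σ} (hl : l ∉ B) (hm : m ∉ B) :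
    sgn C l (insert m B) * sgn C m B = -(sgn C m (insert l B) * sgn C l B) := by
  rw [sgn_insert hm, sgn_insert hl]
  rcases lt_or_gt_of_ne h with h' | h'
  · rw [if_neg h'.not_gt, if_pos h']; ring
  · rw [if_pos h', if_neg h'.not_gt]; ring

theorem ze_sq (l : σ) : ze C W l * ze C W l = 0 := by
  ext v B
  simp [ze_apply]

theorem io_sq (l : σ) : io C W l * io C W l = 0 := by
  ext v B
  simp [io_apply]

theorem ze_ze (l m : σ) : ze C W l * ze C W m = -(ze C W m * ze C W l) := by
  rcases eq_or_ne l m with rfl | h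
  · simp [ze_sq]
  refine LinearMap.ext fun v => funext fun B => ?_
  simp only [Module.End.mul_apply, LinearMap.neg_apply, Pi.neg_apply, ze_apply, mem_erase, h,
    h.symm, ne_eq, not_false_eq_true, true_and]
  by_cases hl : l ∈ B <;> by_cases hm : m ∈ B <;> simp only [hl, hm, if_true, if_false, smul_zero,
    neg_zero]
  obtain ⟨B, rfl, hl', hm'⟩ : ∃ B', B = insert l (insert m B') ∧ l ∉ B' ∧ m ∉ B' :=
    ⟨(B.erase l).erase m, by rw [insert_erase (by simp [hm, h.symm]), insert_erase hl],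
      by simp, by simp⟩
  have e1 : (insert l (insert m B)).erase l = insert m B := erase_insert (by simp [h, hl'])
  have e2 : (insert l (insert m B)).erase m = insert l B := by
    rw [insert_comm]; exact erase_insert (by simp [h.symm, hm'])
  rw [e1, e2, erase_insert hm', erase_insert hl', smul_smul, smul_smul, sgn_insert_self,
    sgn_insert_self, sgn_insert_self, insert_comm, sgn_insert_self, sgn_swap h hl' hm', neg_smul]

theorem io_io (l m : σ) : io C W l * io C W m = -(io C W m * io C W l) := by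
  rcases eq_or_ne l m with rfl | h
  · simp [io_sq]
  refine LinearMap.ext fun v => funext fun B => ?_
  simp only [Module.End.mul_apply, LinearMap.neg_apply, Pi.neg_apply, io_apply, mem_insert, h,
    h.symm, false_or]
  by_cases hl : l ∈ B <;> by_cases hm : m ∈ B <;> simp only [hl, hm, if_true, if_false, smul_zero,
    neg_zero]
  rw [smul_smul, smul_smul, insert_comm, mul_comm, sgn_swap h.symm hm hl, neg_smul, mul_comm]

theorem io_ze (l m : σ) :
    io C W l * ze C W m = (if l = m then 1 else 0) - ze C W m * io C W l := by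
  refine LinearMap.ext fun v => funext fun B => ?_
  rcases eq_or_ne l m with rfl | h
  · simp only [Module.End.mul_apply, if_true, LinearMap.sub_apply, Module.End.one_apply,
      Pi.sub_apply, io_apply, ze_apply, mem_insert, true_or, notMem_erase, if_false]
    by_cases hl : l ∈ B
    · simp [hl, smul_smul, sgn_erase_self, sgn_mul_self]
    · simp [hl, smul_smul, sgn_insert_self, sgn_mul_self]
  simp only [Module.End.mul_apply, h, if_false, LinearMap.neg_apply, Pi.neg_apply,
    io_apply, ze_apply, mem_insert, h.symm, false_or, mem_erase, ne_eq,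
    not_false_eq_true, true_and, zero_sub]
  by_cases hl : l ∈ B <;> by_cases hm : m ∈ B <;> simp only [hl, hm, if_true, if_false, smul_zero,
    neg_zero]
  obtain ⟨B, rfl, hm'⟩ : ∃ B', B = insert m B' ∧ m ∉ B' :=
    ⟨B.erase m, (insert_erase hm).symm, by simp⟩
  have hl' : l ∉ B := fun h => hl (mem_insert_of_mem h)
  have e2 : (insert l (insert m B)).erase m = insert l B := by
    rw [insert_comm]; exact erase_insert (by simp [h.symm, hm'])
  rw [e2, erase_insert hm', smul_smul, smul_smul, insert_comm, sgn_insert_self, sgn_insert_self,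
    ← neg_smul, sgn_insert hm', sgn_insert hl']
  congr 1
  rcases lt_or_gt_of_ne h with h' | h'
  · rw [if_neg h'.not_gt, if_pos h']; ring
  · rw [if_pos h', if_neg h'.not_gt]; ring

variable [Fintype σ] (W)

/-- The Koszul type operator `∑ a l • ze l`. -/
def dK (a : σ → C) : Module.End C (Finset σ → W) := ∑ l, a l • ze C W l

/-- The contraction operator `∑ a l • io l`. -/
def dI (a : σ → C) : Module.End C (Finset σ → W) := ∑ l, a l • io C W l

variable {W}

omit [LinearOrder σ] in
theorem anti_sum {A : Type} [Ring A] [Algebra C A] (f g : σ → A) (a b : σ → C) (e : σ → σ → A)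
    (h : ∀ l m, f l * g m = e l m - g m * f l) :
    (∑ l, a l • f l) * (∑ l, b l • g l) =
      ∑ l, ∑ m, (a l * b m) • e l m - (∑ l, b l • g l) * (∑ l, a l • f l) := by
  rw [sum_mul_sum, sum_mul_sum, sum_comm (f := fun l m => b l • g l * a m • f m), ← sum_sub_distrib]
  refine sum_congr rfl fun l _ => ?_
  rw [← sum_sub_distrib]
  refine sum_congr rfl fun m _ => ?_
  rw [smul_mul_smul_comm, smul_mul_smul_comm, h, smul_sub, mul_comm (b m)]

theorem sq_sum {A : Type} [Ring A] [Algebra C A] (f : σ → A) (a : σ → C)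
    (h0 : ∀ l, f l * f l = 0) (h : ∀ l m, f l * f m = -(f m * f l)) :
    (∑ l, a l • f l) * (∑ l, a l • f l) = 0 := by
  suffices H : ∀ s : Finset σ, (∑ l ∈ s, a l • f l) * (∑ l ∈ s, a l • f l) = 0 from H _
  intro s
  induction s using Finset.induction_on with
  | empty => simp
  | insert m s hm ih =>
    have : a m • f m * ∑ l ∈ s, a l • f l + (∑ l ∈ s, a l • f l) * a m • f m = 0 := by
      rw [mul_sum, sum_mul, ← sum_add_distrib]
      refine sum_eq_zero fun l _ => ?_
      rw [smul_mul_smul_comm, smul_mul_smul_comm, h m l, mul_comm (a l), smul_neg, neg_add_cancel]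
    rw [sum_insert hm, add_mul, mul_add, mul_add, ih, smul_mul_smul_comm, h0, smul_zero, zero_add,
      add_zero, this]

theorem dK_sq (a : σ → C) : dK W a * dK W a = 0 := sq_sum _ a ze_sq ze_ze

theorem dI_sq (a : σ → C) : dI W a * dI W a = 0 := sq_sum _ a io_sq io_io

theorem dK_dK (a b : σ → C) : dK W a * dK W b = -(dK W b * dK W a) := by
  have := anti_sum (ze C W) (ze C W) a b (fun _ _ => 0) fun l m => by rw [ze_ze, zero_sub]
  simpa [dK] using this

theorem dI_dI (a b : σ → C) : dI W a * dI W b = -(dI W b * dI W a) := by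
  have := anti_sum (io C W) (io C W) a b (fun _ _ => 0) fun l m => by rw [io_io, zero_sub]
  simpa [dI] using this

theorem dI_dK (a b : σ → C) :
    dI W a * dK W b = (∑ l, a l * b l) • (1 : Module.End C (Finset σ → W)) - dK W b * dI W a := by
  rw [dI, dK, anti_sum (io C W) (ze C W) a b _ io_ze, sum_smul]
  simp

theorem d_sq (a b : σ → C) : (dK W a + dI W b) * (dK W a + dI W b) =
    (∑ l, b l * a l) • (1 : Module.End C (Finset σ → W)) := by
  rw [add_mul, mul_add, mul_add, dK_sq, dI_sq, dI_dK]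
  abel

theorem dK_add (a b : σ → C) : dK W (a + b) = dK W a + dK W b := by
  simp [dK, add_smul, sum_add_distrib]

theorem dI_add (a b : σ → C) : dI W (a + b) = dI W a + dI W b := by
  simp [dI, add_smul, sum_add_distrib]

theorem dK_smul (c : C) (a : σ → C) : dK W (c • a) = c • dK W a := by
  simp [dK, smul_sum, smul_smul]

theorem dI_smul (c : C) (a : σ → C) : dI W (c • a) = c • dI W a := by
  simp [dI, smul_sum, smul_smul]

theorem dK_zero : dK W (0 : σ → C) = 0 := by simp [dK]

theorem dI_zero : dI W (0 : σ → C) = 0 := by simp [dI]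

theorem dK_single (l : σ) (c : C) : dK W (Pi.single l c) = c • ze C W l := by
  rw [dK, sum_eq_single l] <;> simp +contextual

theorem dI_single (l : σ) (c : C) : dI W (Pi.single l c) = c • io C W l := by
  rw [dI, sum_eq_single l] <;> simp +contextual

theorem dK_apply (a : σ → C) (v : Finset σ → W) (B : Finset σ) :
    dK W a v B = ∑ l, if l ∈ B then (a l * sgn C l B) • v (B.erase l) else 0 := by
  simp [dK, LinearMap.sum_apply, Finset.sum_apply, ze_apply, smul_smul]

theorem dI_apply (a : σ → C) (v : Finset σ → W) (B : Finset σ) :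
    dI W a v B = ∑ l, if l ∈ B then 0 else (a l * sgn C l B) • v (insert l B) := by
  simp [dI, LinearMap.sum_apply, Finset.sum_apply, io_apply, smul_smul]

end Car

section Wt
variable {σ : Type} [LinearOrder σ] {C W : Type} [CommRing C] [AddCommGroup W] [Module C W]

/-- Families whose member at `B` lies in the piece `w - ω * #B`. -/
def Wt (σ : Type) (ω : ℤ) (𝒲 : ℤ → AddSubgroup W) (w : ℤ) : AddSubgroup (Finset σ → W) where
  carrier := {v | ∀ B, v B ∈ 𝒲 (w - ω * B.card)}
  add_mem' h h' B := add_mem (h B) (h' B)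
  zero_mem' _ := zero_mem _
  neg_mem' h B := neg_mem (h B)

/-- Families with all members in `𝒩`. -/
def Al (σ : Type) (𝒩 : Submodule C W) : Submodule C (Finset σ → W) where
  carrier := {v | ∀ B, v B ∈ 𝒩}
  add_mem' h h' B := add_mem (h B) (h' B)
  zero_mem' _ := zero_mem _
  smul_mem' c _ h B := 𝒩.smul_mem c (h B)

/-- The scalar `a` shifts the pieces by `k`. -/
def Sh (𝒲 : ℤ → AddSubgroup W) (a : C) (k : ℤ) : Prop := ∀ j, ∀ y ∈ 𝒲 j, a • y ∈ 𝒲 (j + k)

variable {𝒲 : ℤ → AddSubgroup W} {ω : ℤ}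

theorem Sh.zero (k : ℤ) : Sh 𝒲 (0 : C) k := fun j y _ => by rw [zero_smul]; exact zero_mem _

theorem Sh.one : Sh 𝒲 (1 : C) 0 := fun j y h => by simpa using h

theorem Sh.add {a b : C} {k : ℤ} (ha : Sh 𝒲 a k) (hb : Sh 𝒲 b k) : Sh 𝒲 (a + b) k :=
  fun j y h => by rw [add_smul]; exact add_mem (ha j y h) (hb j y h)

theorem Sh.neg {a : C} {k : ℤ} (ha : Sh 𝒲 a k) : Sh 𝒲 (-a) k :=
  fun j y h => by rw [neg_smul]; exact neg_mem (ha j y h)

theorem Sh.sub {a b : C} {k : ℤ} (ha : Sh 𝒲 a k) (hb : Sh 𝒲 b k) : Sh 𝒲 (a - b) k := by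
  rw [sub_eq_add_neg]; exact ha.add hb.neg

theorem Sh.mul {a b : C} {k m : ℤ} (ha : Sh 𝒲 a k) (hb : Sh 𝒲 b m) : Sh 𝒲 (a * b) (k + m) :=
  fun j y h => by
    rw [mul_smul, show j + (k + m) = j + m + k by ring]; exact ha _ _ (hb j y h)

theorem Sh.cast {a : C} {k m : ℤ} (ha : Sh 𝒲 a k) (h : k = m) : Sh 𝒲 a m := h ▸ ha

theorem Sh.pow {a : C} {k : ℤ} (ha : Sh 𝒲 a k) (n : ℕ) : Sh 𝒲 (a ^ n) (n * k) := by
  induction n with
  | zero => simpa using Sh.one
  | succ n ih => rw [pow_succ]; exact (ih.mul ha).cast (by push_cast; ring)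

theorem Sh.sum {α : Type} (s : Finset α) {a : α → C} {k : ℤ} (h : ∀ i ∈ s, Sh 𝒲 (a i) k) :
    Sh 𝒲 (∑ i ∈ s, a i) k :=
  Finset.sum_induction a (fun x => Sh 𝒲 x k) (fun _ _ => Sh.add) (Sh.zero k) h

theorem Sh.sgn (l : σ) (B : Finset σ) : Sh 𝒲 (sgn C l B) 0 :=
  (Sh.one.neg.pow _).cast (mul_zero _)

omit [LinearOrder σ] in
theorem Sh.wt {a : C} {k : ℤ} (ha : Sh 𝒲 a k) : Sh (Wt σ ω 𝒲) a k := fun j v h B => by
  have := ha _ _ (h B)
  rwa [show j - ω * B.card + k = j + k - ω * B.card by ring] at this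

theorem ze_mem (l : σ) {w : ℤ} {v : Finset σ → W} (h : v ∈ Wt σ ω 𝒲 w) :
    ze C W l v ∈ Wt σ ω 𝒲 (w + ω) := fun B => by
  rw [ze_apply]
  split_ifs with hl
  · have := Sh.sgn (C := C) l B _ _ (h (B.erase l))
    have e : (B.card : ℤ) = (B.erase l).card + 1 := by exact_mod_cast (card_erase_add_one hl).symm
    rwa [show w - ω * (B.erase l).card + 0 = w + ω - ω * B.card by rw [e]; ring] at this
  · exact zero_mem _

theorem io_mem (l : σ) {w : ℤ} {v : Finset σ → W} (h : v ∈ Wt σ ω 𝒲 w) :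
    io C W l v ∈ Wt σ ω 𝒲 (w - ω) := fun B => by
  rw [io_apply]
  split_ifs with hl
  · exact zero_mem _
  · have := Sh.sgn (C := C) l B _ _ (h (insert l B))
    rw [card_insert_of_notMem hl] at this
    rwa [show w - ω * ((B.card + 1 : ℕ) : ℤ) + 0 = w - ω - ω * B.card by push_cast; ring] at this

theorem ze_al (l : σ) {𝒩 : Submodule C W} {v : Finset σ → W} (h : v ∈ Al σ 𝒩) :
    ze C W l v ∈ Al σ 𝒩 := fun B => by
  rw [ze_apply]
  split_ifs
  exacts [𝒩.smul_mem _ (h _), zero_mem _]

theorem io_al (l : σ) {𝒩 : Submodule C W} {v : Finset σ → W} (h : v ∈ Al σ 𝒩) :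
    io C W l v ∈ Al σ 𝒩 := fun B => by
  rw [io_apply]
  split_ifs
  exacts [zero_mem _, 𝒩.smul_mem _ (h _)]

variable [Fintype σ]

theorem dK_mem {a : σ → C} {k : ℤ} (ha : ∀ l, Sh 𝒲 (a l) k) {w : ℤ} {v : Finset σ → W}
    (h : v ∈ Wt σ ω 𝒲 w) : dK W a v ∈ Wt σ ω 𝒲 (w + ω + k) := by
  rw [dK, LinearMap.sum_apply]
  exact sum_mem fun l _ => (ha l).wt _ _ (ze_mem l h)

theorem dI_mem {a : σ → C} {k : ℤ} (ha : ∀ l, Sh 𝒲 (a l) k) {w : ℤ} {v : Finset σ → W}
    (h : v ∈ Wt σ ω 𝒲 w) : dI W a v ∈ Wt σ ω 𝒲 (w - ω + k) := by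
  rw [dI, LinearMap.sum_apply]
  exact sum_mem fun l _ => (ha l).wt _ _ (io_mem l h)

theorem dK_al (a : σ → C) {𝒩 : Submodule C W} {v : Finset σ → W} (h : v ∈ Al σ 𝒩) :
    dK W a v ∈ Al σ 𝒩 := by
  rw [dK, LinearMap.sum_apply]
  exact sum_mem fun l _ => Submodule.smul_mem _ _ (ze_al l h)

theorem dI_al (a : σ → C) {𝒩 : Submodule C W} {v : Finset σ → W} (h : v ∈ Al σ 𝒩) :
    dI W a v ∈ Al σ 𝒩 := by
  rw [dI, LinearMap.sum_apply]
  exact sum_mem fun l _ => Submodule.smul_mem _ _ (io_al l h)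

end Wt

section Ex
variable {C V : Type} [CommRing C] [AddCommGroup V] [Module C V]

/-- Exactness modulo `𝒩` at weight `w` of an operator `d` that raises the weight by `P`. -/
def ExM (d : Module.End C V) (𝒱 : ℤ → AddSubgroup V) (𝒩 : Submodule C V) (P w : ℤ) : Prop :=
  ∀ v ∈ 𝒱 w, d v ∈ 𝒩 → ∃ z ∈ 𝒱 (w - P), d z - v ∈ 𝒩

/-- Exactness at weight `w`. -/
def Ex (d : Module.End C V) (𝒱 : ℤ → AddSubgroup V) (P w : ℤ) : Prop :=
  ∀ v ∈ 𝒱 w, d v = 0 → ∃ z ∈ 𝒱 (w - P), d z = v

end Ex

end Pool.Agent.Lib.MP_3184af_co.Tate
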