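import Pool.Agent.Lib.MP_3184af_co.Tate.Car

set_option autoImplicit false

namespace Pool.Agent.Lib.MP_3184af_co.Tate

open Finset

section Aux

theorem conj_choose {C : Type} [CommRing C] {p : ℕ} (hp : p.Prime) (hC : (p : C) = 0) (i : ℕ)
    (hi : i < p) : (((p - 1).choose i : ℕ) : C) = (-1) ^ i := by
  induction i with
  | zero => simp
  | succ i ih =>
    obtain ⟨m, rfl⟩ : ∃ m, p = m + 1 := ⟨p - 1, by have := hp.pos; omega⟩
    have h1 : (((m + 1).choose (i + 1) : ℕ) : C) = 0 := by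
      obtain ⟨k, hk⟩ := hp.dvd_choose_self (k := i + 1) (by omega) hi
      rw [hk, Nat.cast_mul, hC, zero_mul]
    have h2 := ih (by omega)
    rw [Nat.add_sub_cancel] at h2 ⊢
    rw [Nat.choose_succ_succ', Nat.cast_add, h2] at h1
    rw [pow_succ]
    linear_combination h1

theorem conj_G {C : Type} [CommRing C] {m : ℕ} (hp : (m + 2).Prime) (hC : ((m + 2 : ℕ) : C) = 0)
    (a b : C) :
    (a + b) ^ (m + 1) = a ^ (m + 1) + b * ∑ i ∈ range (m + 1), b ^ i * a ^ (m - i) * (-1) ^ (i + 1) ∧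
    (a + b) ^ (m + 1) = b ^ (m + 1) - a * ∑ i ∈ range (m + 1), b ^ i * a ^ (m - i) * (-1) ^ (i + 1) := by
  have hch : ∀ i, i < m + 2 → (((m + 1).choose i : ℕ) : C) = (-1) ^ i :=
    fun i hi => conj_choose hp hC i hi
  have h0 : (a + b) ^ (m + 1) = ∑ i ∈ range (m + 1 + 1), b ^ i * a ^ (m + 1 - i) * (-1) ^ i := by
    rw [add_comm a b, add_pow]
    exact sum_congr rfl fun i hi => by rw [hch i (mem_range.1 hi)]
  constructor
  · rw [h0, sum_range_succ', mul_sum, add_comm]
    congr 1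
    · simp
    · refine sum_congr rfl fun i _ => ?_
      rw [Nat.add_sub_add_right]
      ring
  · have h1 : ((-1 : C)) ^ (m + 1) = 1 := by rw [← hch (m + 1) (by omega)]; simp
    rw [h0, sum_range_succ, h1, mul_sum, sub_eq_add_neg, ← sum_neg_distrib, add_comm]
    congr 1
    · simp
    · refine sum_congr rfl fun i hi => ?_
      rw [show m + 1 - i = m - i + 1 by have := mem_range.1 hi; omega]
      ring

theorem conj_ring {C A : Type} [CommRing C] [Ring A] [Algebra C A] (K P Q R : A)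
    (a b x y s G : C) (hPK : P * K = a • (1 : A) - K * P) (hQK : Q * K = b • (1 : A) - K * Q)
    (hPP : P * P = 0) (hQQ : Q * Q = 0) (hQP : Q * P = -(P * Q)) (hPR : P * R = -(R * P))
    (hQR : Q * R = -(R * Q)) (hx : s = x + b * G) (hy : s = y - a * G) :
    (K + s • (P + Q) + R) * (1 + G • (P * Q)) = (1 + G • (P * Q)) * (K + x • P + (R + y • Q)) ∧
      G • (P * Q) * G • (P * Q) = 0 := by
  have e1 : P * (P * Q) = 0 := by rw [← mul_assoc, hPP, zero_mul]
  have e2 : Q * (P * Q) = 0 := by rw [← mul_assoc, hQP, neg_mul, mul_assoc, hQQ, mul_zero, neg_zero]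
  have e3 : P * Q * P = 0 := by rw [mul_assoc, hQP, mul_neg, e1, neg_zero]
  have e4 : P * Q * Q = 0 := by rw [mul_assoc, hQQ, mul_zero]
  have e5 : P * Q * R = R * (P * Q) := by
    rw [mul_assoc, hQR, mul_neg, ← mul_assoc, hPR, neg_mul, neg_neg, mul_assoc]
  have e6 : P * Q * K = b • P - a • Q + K * (P * Q) := by
    rw [mul_assoc, hQK, mul_sub, ← mul_assoc, hPK, sub_mul, mul_smul_comm, smul_mul_assoc, mul_one,
      one_mul, mul_assoc]
    abel
  constructor
  · simp only [mul_add, add_mul, smul_mul_assoc, mul_smul_comm, mul_one, one_mul, e1, e2, e3, e4,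
      e5, e6, smul_zero, add_zero]
    have hx' : x = s - b * G := by rw [hx]; ring
    have hy' : y = s + a * G := by rw [hy]; ring
    rw [hx', hy']
    module
  · rw [smul_mul_smul_comm, mul_assoc, e2, mul_zero, smul_zero]

theorem ex_conj {C V : Type} [CommRing C] [AddCommGroup V] [Module C V] {d d' N : Module.End C V}
    {𝒱 : ℤ → AddSubgroup V} {P w : ℤ} (hN : N * N = 0) (hW : ∀ j, ∀ v ∈ 𝒱 j, N v ∈ 𝒱 j)
    (h : d' * (1 + N) = (1 + N) * d) (hd : Ex d' 𝒱 P w) : Ex d 𝒱 P w := by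
  intro v hv hdv
  have h1 : ∀ x, d' (x + N x) = d x + N (d x) := fun x => LinearMap.congr_fun h x
  have h2 : ∀ x, N (N x) = 0 := fun x => LinearMap.congr_fun hN x
  obtain ⟨z, hz, hz'⟩ := hd (v + N v) (add_mem hv (hW _ _ hv)) (by rw [h1, hdv, map_zero, add_zero])
  refine ⟨z - N z, sub_mem hz (hW _ _ hz), ?_⟩
  have h3 := h1 (z - N z)
  rw [map_sub N, h2, sub_zero, sub_add_cancel, hz'] at h3
  have h4 := congrArg N h3
  rw [map_add, map_add, h2, h2, add_zero, add_zero] at h4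
  rw [h4] at h3
  exact (add_right_cancel h3).symm

end Aux

variable {σ C W : Type} [LinearOrder σ] [Fintype σ] [CommRing C] [AddCommGroup W] [Module C W]

/-- The two forms of the operator are conjugate. -/
theorem conj {p : ℕ} (hp : p.Prime) (hC : (p : C) = 0) (𝒲 : ℤ → AddSubgroup W) (u c : σ → C)
    (hu : ∀ l, Sh 𝒲 (u l) 2) (hc : ∀ l, Sh 𝒲 (c l) 0) (w : ℤ)
    (h : Ex (dK W u + (∑ l, c l * u l) ^ (p - 1) • dI W c) (Wt σ ((p : ℤ) - 2) 𝒲) p w) :
    Ex (dK W u + dI W fun l => c l ^ p * u l ^ (p - 1)) (Wt σ ((p : ℤ) - 2) 𝒲) p w := by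
  obtain ⟨m, rfl⟩ : ∃ m, p = m + 2 := ⟨p - 2, by have := hp.two_le; omega⟩
  rw [show m + 2 - 1 = m + 1 from rfl] at h ⊢
  set ω : ℤ := ((m + 2 : ℕ) : ℤ) - 2 with hω
  have hωm : ω = m := by rw [hω]; push_cast; ring
  let cJ : Finset σ → σ → C := fun J l => if l ∈ J then c l else 0
  let rJ : Finset σ → σ → C := fun J l => if l ∈ J then 0 else c l ^ (m + 2) * u l ^ (m + 1)
  let d : Finset σ → Module.End C (Finset σ → W) := fun J =>
    dK W u + (∑ l, cJ J l * u l) ^ (m + 1) • dI W (cJ J) + dI W (rJ J)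
  have hcJ : ∀ J l, Sh 𝒲 (cJ J l) 0 := fun J l => by
    by_cases hl : l ∈ J
    · simpa [cJ, hl] using hc l
    · simpa [cJ, hl] using Sh.zero 0
  have key : ∀ J : Finset σ, Ex (d J) (Wt σ ω 𝒲) ((m + 2 : ℕ) : ℤ) w →
      Ex (d ∅) (Wt σ ω 𝒲) ((m + 2 : ℕ) : ℤ) w := by
    intro J
    induction J using Finset.induction_on with
    | empty => exact id
    | insert k J hk ih =>
      intro hJ
      refine ih ?_
      set a : C := ∑ l, cJ J l * u l with ha
      set b : C := ∑ l, cJ {k} l * u l with hb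
      have hb' : b = c k * u k := by simp [hb, cJ]
      have e1 : cJ (insert k J) = cJ J + cJ {k} := by
        funext l
        by_cases hl : l = k
        · subst hl; simp [cJ, hk]
        · simp [cJ, hl]
      have e2 : rJ J = rJ (insert k J) + b ^ (m + 1) • cJ {k} := by
        funext l
        by_cases hl : l = k
        · subst hl; simp [rJ, cJ, hk, hb']; ring
        · simp [rJ, cJ, hl]
      have e3 : ∑ l, cJ (insert k J) l * u l = a + b := by
        rw [e1, ha, hb, ← sum_add_distrib]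
        exact sum_congr rfl fun l _ => by rw [Pi.add_apply, add_mul]
      obtain ⟨g1, g2⟩ := conj_G hp hC a b
      set G : C := ∑ i ∈ range (m + 1), b ^ i * a ^ (m - i) * (-1) ^ (i + 1) with hG
      obtain ⟨r1, r2⟩ := conj_ring (dK W u) (dI W (cJ J)) (dI W (cJ {k})) (dI W (rJ (insert k J)))
        a b (a ^ (m + 1)) (b ^ (m + 1)) ((a + b) ^ (m + 1)) G (dI_dK _ _) (dI_dK _ _) (dI_sq _)
        (dI_sq _) (dI_dI _ _) (dI_dI _ _) (dI_dI _ _) g1 g2
      have sa : Sh 𝒲 a 2 := Sh.sum _ fun l _ => ((hcJ J l).mul (hu l)).cast (zero_add _)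
      have sb : Sh 𝒲 b 2 := Sh.sum _ fun l _ => ((hcJ {k} l).mul (hu l)).cast (zero_add _)
      have sG : Sh 𝒲 G (2 * m) := Sh.sum _ fun i hi =>
        (((sb.pow i).mul (sa.pow (m - i))).mul (Sh.one.neg.pow (i + 1))).cast (by
          have := mem_range.1 hi
          rw [Nat.cast_sub (by omega)]
          ring)
      refine ex_conj r2 (fun j v hv => ?_) ?_ hJ
      · have := sG.wt _ _ (dI_mem (hcJ J) (dI_mem (hcJ {k}) hv))
        rwa [show j - ω + 0 - ω + 0 + 2 * (m : ℤ) = j by rw [hωm]; ring] at this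
      · have d1 : d (insert k J) = dK W u + (a + b) ^ (m + 1) • (dI W (cJ J) + dI W (cJ {k})) +
            dI W (rJ (insert k J)) := by
          simp only [d]
          rw [e3, e1, dI_add]
        have d2 : d J = dK W u + a ^ (m + 1) • dI W (cJ J) +
            (dI W (rJ (insert k J)) + b ^ (m + 1) • dI W (cJ {k})) := by
          simp only [d]
          rw [e2, dI_add, dI_smul]
        rw [d1, d2]
        exact r1
  have hU : d univ = dK W u + (∑ l, c l * u l) ^ (m + 1) • dI W c := by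
    have e1 : cJ univ = c := by funext l; simp [cJ]
    have e2 : rJ univ = 0 := by funext l; simp [rJ]
    simp only [d]
    rw [e1, e2, dI_zero, add_zero]
  have hE : d ∅ = dK W u + dI W fun l => c l ^ (m + 2) * u l ^ (m + 1) := by
    have e1 : cJ ∅ = 0 := by funext l; simp [cJ]
    have e2 : rJ ∅ = fun l => c l ^ (m + 2) * u l ^ (m + 1) := by funext l; simp [rJ]
    simp only [d]
    rw [e1, e2, dI_zero, smul_zero, add_zero]
  rw [← hE]
  exact key univ (hU ▸ h)

/-- The complex is a retract of a complex of pairs. -/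
theorem retract {p : ℕ} (hp : p.Prime) (𝒲 : ℤ → AddSubgroup W) (u c ξ : σ → C) (θ : C)
    (hθ : θ = ∑ l, c l * u l) (hξ : ∑ l, c l * ξ l = 1)
    (hc : ∀ l, Sh 𝒲 (c l) 0) (hx : ∀ l, Sh 𝒲 (ξ l) 0) (w : ℤ)
    (h : ∀ z ∈ Wt σ ((p : ℤ) - 2) 𝒲 w, ∀ y ∈ Wt σ ((p : ℤ) - 2) 𝒲 (w - (p - 2)),
      dK W (fun l => u l - θ * ξ l) z + θ ^ (p - 1) • y = 0 →
      θ • z - dK W (fun l => u l - θ * ξ l) y = 0 →
      ∃ z' ∈ Wt σ ((p : ℤ) - 2) 𝒲 (w - p), ∃ y' ∈ Wt σ ((p : ℤ) - 2) 𝒲 (w - p - (p - 2)),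
        dK W (fun l => u l - θ * ξ l) z' + θ ^ (p - 1) • y' = z ∧
        θ • z' - dK W (fun l => u l - θ * ξ l) y' = y) :
    Ex (dK W u + θ ^ (p - 1) • dI W c) (Wt σ ((p : ℤ) - 2) 𝒲) p w := by
  have _ := hp
  set ω : ℤ := (p : ℤ) - 2
  set D := dK W (fun l => u l - θ * ξ l) with hD
  set X := dK W ξ with hX
  set I := dI W c with hI
  set t := θ ^ (p - 1)
  have hK : dK W u = D + θ • X := by
    rw [hD, hX, ← dK_smul, ← dK_add]
    congr 1
    funext l
    simp
  have hXI : X * I = 1 - I * X := by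
    rw [hX, hI, dI_dK, hξ, one_smul]; abel
  have hID : I * D = -(D * I) := by
    have : ∑ l, c l * (u l - θ * ξ l) = 0 := by
      have : ∑ l, c l * (u l - θ * ξ l) = ∑ l, c l * u l - θ * ∑ l, c l * ξ l := by
        rw [mul_sum, ← sum_sub_distrib]
        exact sum_congr rfl fun l _ => by ring
      rw [this, hξ, ← hθ]; ring
    rw [hI, hD, dI_dK, this, zero_smul, zero_sub]
  have hXD : X * D = -(D * X) := dK_dK _ _
  have hXX : X * X = 0 := dK_sq _
  have hII : I * I = 0 := dI_sq _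
  have aXI : ∀ x, X (I x) = x - I (X x) := fun x => LinearMap.congr_fun hXI x
  have aID : ∀ x, I (D x) = -D (I x) := fun x => LinearMap.congr_fun hID x
  have aXD : ∀ x, X (D x) = -D (X x) := fun x => LinearMap.congr_fun hXD x
  have aXX : ∀ x, X (X x) = 0 := fun x => LinearMap.congr_fun hXX x
  have aII : ∀ x, I (I x) = 0 := fun x => LinearMap.congr_fun hII x
  have mX : ∀ j, ∀ x ∈ Wt σ ω 𝒲 j, X x ∈ Wt σ ω 𝒲 (j + ω) := fun j x hxj => by
    have := dK_mem hx hxj
    rwa [add_zero] at this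
  have mI : ∀ j, ∀ x ∈ Wt σ ω 𝒲 j, I x ∈ Wt σ ω 𝒲 (j - ω) := fun j x hxj => by
    have := dI_mem hc hxj
    rwa [add_zero] at this
  have mIX : ∀ j, ∀ x ∈ Wt σ ω 𝒲 j, I (X x) ∈ Wt σ ω 𝒲 j := fun j x hxj => by
    have := mI _ _ (mX _ _ hxj)
    rwa [add_sub_cancel_right] at this
  have ad : ∀ x, (dK W u + t • I) x = D x + θ • X x + t • I x := fun x => by rw [hK]; rfl
  intro v hv hdv
  rw [ad] at hdv
  obtain ⟨z, hz, y, hy, e1, e2⟩ := h (I (X v)) (mIX _ _ hv) (I v) (mI _ _ hv) (by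
      have := congrArg (fun x => I (X x)) hdv
      simp only [map_add, map_smul, map_zero, aXD, aXX, aXI, map_neg, aID, map_sub, aII, neg_neg,
        smul_zero, add_zero, sub_zero] at this
      exact this) (by
      have := congrArg I hdv
      simp only [map_add, map_smul, map_zero, aID, aII, smul_zero, add_zero] at this
      rw [← this]; abel)
  refine ⟨I (X z) + X y, add_mem (mIX _ _ hz) ?_, ?_⟩
  · have := mX _ _ hy
    rwa [sub_add_cancel] at this
  · have f1 := congrArg (fun x => I (X x)) e1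
    have f2 := congrArg X e2
    simp only [map_add, map_smul, aXD, aXX, aXI, map_neg, aID, map_sub, neg_neg, map_zero,
      sub_zero] at f1 f2
    rw [ad]
    simp only [map_add, aXX, aXI, aII, map_zero, sub_zero, add_zero, zero_add]
    have : v = I (X v) + (v - I (X v)) := by abel
    rw [this, ← f2, ← f1]
    abel

end Pool.Agent.Lib.MP_3184af_co.Tate
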