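import Pool.Agent.Lib.MP_3184af_co.Tate.Car

/-!
The module of square-free polynomials, the complexes attached to a family of vectors, and
functions of bounded degree on the subsets of a finite set.
-/

set_option autoImplicit false

namespace Pool.Agent.Lib.MP_3184af_co.Tate

open Finset MvPolynomial

section Sq

/-- Coefficient families of square-free polynomials. -/
def Sq (ι K : Type) : Type := Finset ι → K

variable {ι K : Type} [DecidableEq ι] [CommRing K]

instance : AddCommGroup (Sq ι K) := inferInstanceAs (AddCommGroup (Finset ι → K))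

instance : Module K (Sq ι K) := inferInstanceAs (Module K (Finset ι → K))

omit [DecidableEq ι] in
theorem Sq.zero_apply (A : Finset ι) : (0 : Sq ι K) A = 0 := rfl

omit [DecidableEq ι] in
theorem Sq.add_apply (y y' : Sq ι K) (A : Finset ι) : (y + y') A = y A + y' A := rfl

omit [DecidableEq ι] in
theorem Sq.neg_apply (y : Sq ι K) (A : Finset ι) : (-y) A = -y A := rfl

omit [DecidableEq ι] in
theorem Sq.sub_apply (y y' : Sq ι K) (A : Finset ι) : (y - y') A = y A - y' A := rfl

omit [DecidableEq ι] in
theorem Sq.sum_apply {α : Type} (s : Finset α) (y : α → Sq ι K) (A : Finset ι) :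
    (∑ a ∈ s, y a) A = ∑ a ∈ s, y a A := Finset.sum_apply A s y

omit [DecidableEq ι] [CommRing K] in
theorem Sq.ext {y y' : Sq ι K} (h : ∀ A, y A = y' A) : y = y' := funext h

variable (K) in
/-- Multiplication by a variable. -/
def xo (i : ι) : Module.End K (Sq ι K) where
  toFun y A := if i ∈ A then y (A.erase i) else 0
  map_add' y y' := Sq.ext fun A => by
    change (if i ∈ A then y (A.erase i) + y' (A.erase i) else 0) =
      (if i ∈ A then y (A.erase i) else 0) + if i ∈ A then y' (A.erase i) else 0
    by_cases h : i ∈ A <;> simp [h]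
  map_smul' c y := Sq.ext fun A => by
    change (if i ∈ A then c * y (A.erase i) else 0) = c * if i ∈ A then y (A.erase i) else 0
    by_cases h : i ∈ A <;> simp [h]

theorem xo_apply (i : ι) (y : Sq ι K) (A : Finset ι) :
    xo K i y A = if i ∈ A then y (A.erase i) else 0 := rfl

theorem xo_comm (i j : ι) : xo K i * xo K j = xo K j * xo K i := by
  rcases eq_or_ne i j with rfl | h
  · rfl
  refine LinearMap.ext fun y => Sq.ext fun A => ?_
  simp only [Module.End.mul_apply, xo_apply, mem_erase, h, h.symm, ne_eq, not_false_eq_true,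
    true_and, erase_right_comm (a := i)]
  by_cases hi : i ∈ A <;> by_cases hj : j ∈ A <;> simp [hi, hj]

open scoped IsMulCommutative in
variable (ι K) in
theorem exists_act : ∃ φ : MvPolynomial ι K →ₐ[K] Module.End K (Sq ι K),
    ∀ i, φ (X i) = xo K i := by
  have := Algebra.isMulCommutative_adjoin K (s := Set.range (xo K : ι → _)) (by
    rintro _ ⟨i, rfl⟩ _ ⟨j, rfl⟩
    exact xo_comm i j)
  exact ⟨(Subalgebra.val _).comp (aeval fun i => (⟨xo K i, Algebra.subset_adjoin ⟨i, rfl⟩⟩ :
    Algebra.adjoin K (Set.range (xo K : ι → _)))), fun i => by simp⟩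

noncomputable instance : Module (MvPolynomial ι K) (Sq ι K) :=
  Module.compHom _ (exists_act ι K).choose.toRingHom

theorem X_smul (i : ι) (y : Sq ι K) (A : Finset ι) :
    ((X i : MvPolynomial ι K) • y) A = if i ∈ A then y (A.erase i) else 0 := by
  change (exists_act ι K).choose (X i) y A = _
  rw [(exists_act ι K).choose_spec]
  rfl

theorem C_smul (r : K) (y : Sq ι K) (A : Finset ι) :
    ((C r : MvPolynomial ι K) • y) A = r * y A := by
  change (exists_act ι K).choose (algebraMap K _ r) y A = _
  rw [AlgHom.commutes]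
  rfl

theorem X_X_smul (i : ι) (y : Sq ι K) : (X i * X i : MvPolynomial ι K) • y = 0 :=
  Sq.ext fun A => by
    rw [mul_smul, X_smul, X_smul]
    simp [Sq.zero_apply]

theorem sgn_smul {σ : Type} [LinearOrder σ] (l : σ) (B : Finset σ) (y : Sq ι K) (A : Finset ι) :
    (sgn (MvPolynomial ι K) l B • y) A = sgn K l B * y A := by
  rw [← C_smul]
  simp [sgn]

variable (K) in
/-- Families supported on the sets with a given property. -/
def Sp (P : Finset ι → Prop) : AddSubgroup (Sq ι K) where
  carrier := {y | ∀ A, ¬ P A → y A = 0}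
  add_mem' h h' A hA := by rw [Sq.add_apply, h A hA, h' A hA, add_zero]
  zero_mem' _ _ := rfl
  neg_mem' h A hA := by rw [Sq.neg_apply, h A hA, neg_zero]

variable (K) in
/-- Homogeneous polynomials of weight `k` (twice the degree) in the variables `U`. -/
def Hm (U : Finset ι) (k : ℤ) : AddSubgroup (Sq ι K) :=
  Sp K fun A => A ⊆ U ∧ 2 * (A.card : ℤ) = k

theorem sh_C (U : Finset ι) (r : K) : Sh (Hm K U) (C r : MvPolynomial ι K) 0 :=
  fun j y h A hA => by rw [C_smul, h A (by simpa using hA), mul_zero]

theorem sh_X {U : Finset ι} {i : ι} (hi : i ∈ U) : Sh (Hm K U) (X i : MvPolynomial ι K) 2 :=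
  fun j y h A hA => by
    rw [X_smul]
    split_ifs with h1
    · refine h _ fun h2 => hA ⟨?_, ?_⟩
      · rw [← insert_erase h1]
        exact insert_subset hi h2.1
      · have := card_erase_add_one h1
        omega
    · rfl

variable (ι) in
/-- Families with all coefficients in an ideal. -/
def Vl (I : Ideal K) : Submodule (MvPolynomial ι K) (Sq ι K) where
  carrier := {y | ∀ A, y A ∈ I}
  add_mem' h h' A := add_mem (h A) (h' A)
  zero_mem' _ := zero_mem _
  smul_mem' P y h := by
    induction P using MvPolynomial.induction_on generalizing y with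
    | C r => exact fun A => by rw [C_smul]; exact I.mul_mem_left _ (h A)
    | add P Q hP hQ => exact fun A => by rw [add_smul]; exact add_mem (hP _ h A) (hQ _ h A)
    | mul_X P i hP =>
      rw [mul_smul]
      refine hP _ fun A => ?_
      rw [X_smul]
      split_ifs
      exacts [h _, zero_mem _]

end Sq

section Cx
variable {ι σ F : Type} [DecidableEq ι] [LinearOrder σ] [Fintype σ] [Field F]
  (K : Type) [CommRing K] [Algebra F K]

/-- The linear forms attached to the vectors `g i`, `i ∈ U`. -/
noncomputable def lf (g : ι → σ → F) (U : Finset ι) (l : σ) : MvPolynomial ι K :=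
  ∑ i ∈ U, C (algebraMap F K (g i l)) * X i

/-- The Koszul operator. -/
noncomputable def dKos (g : ι → σ → F) (U : Finset ι) :
    Module.End (MvPolynomial ι K) (Finset σ → Sq ι K) :=
  dK (Sq ι K) (lf K g U)

variable {K}

/-- The full operator with parameters `c`. -/
noncomputable def dS (p : ℕ) (g : ι → σ → F) (U : Finset ι) (c : σ → K) :
    Module.End (MvPolynomial ι K) (Finset σ → Sq ι K) :=
  dK (Sq ι K) (lf K g U) + dI (Sq ι K) fun l => C (c l) ^ p * lf K g U l ^ (p - 1)

variable (σ K) in
/-- The pieces of given weight. -/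
def Yw (p : ℕ) (U : Finset ι) : ℤ → AddSubgroup (Finset σ → Sq ι K) :=
  Wt σ ((p : ℤ) - 2) (Hm K U)

/-- The rank of the vectors `g i`, `i ∈ U`. -/
noncomputable def rk (g : ι → σ → F) (U : Finset ι) : ℕ :=
  Module.finrank F (Submodule.span F (g '' (U : Set ι)))

/-- The linear form in the parameters attached to a vector. -/
noncomputable def lin (a : σ → F) : MvPolynomial σ F := ∑ l, C (a l) * X l

/-- The ideal generated by the linear forms attached to a subspace. -/
noncomputable def idl (D : Submodule F (σ → F)) : Ideal (MvPolynomial σ F) :=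
  Ideal.span (lin '' (D : Set (σ → F)))

/-- Coefficientwise image under an additive map. -/
def cmap {K K' : Type} [CommRing K] [CommRing K'] (ψ : K →+ K') :
    (Finset σ → Sq ι K) →+ (Finset σ → Sq ι K') where
  toFun v B A := ψ (v B A)
  map_zero' := funext fun _ => Sq.ext fun _ => ψ.map_zero
  map_add' _ _ := funext fun _ => Sq.ext fun _ => ψ.map_add _ _

omit [LinearOrder σ] [Fintype σ] in
theorem sh_lf (g : ι → σ → F) {Z U : Finset ι} (h : Z ⊆ U) (l : σ) :
    Sh (Hm K U) (lf K g Z l) 2 :=
  Sh.sum _ fun _ hi => ((sh_C U _).mul (sh_X (h hi))).cast (zero_add _)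

theorem dKos_mem (p : ℕ) (g : ι → σ → F) {Z U : Finset ι} (h : Z ⊆ U) {w : ℤ}
    {v : Finset σ → Sq ι K} (hv : v ∈ Yw σ K p U w) : dKos K g Z v ∈ Yw σ K p U (w + p) := by
  have := dK_mem (sh_lf g h) hv
  rwa [show w + ((p : ℤ) - 2) + 2 = w + p by ring] at this

theorem dS_mem {p : ℕ} (hp : 1 ≤ p) (g : ι → σ → F) (U : Finset ι) (c : σ → K) {w : ℤ}
    {v : Finset σ → Sq ι K} (hv : v ∈ Yw σ K p U w) : dS p g U c v ∈ Yw σ K p U (w + p) := by
  refine add_mem (dKos_mem p g subset_rfl hv) ?_
  have := dI_mem (fun l => ((sh_C U (c l)).pow p).mul ((sh_lf g subset_rfl l).pow (p - 1))) hv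
  rwa [show w - ((p : ℤ) - 2) + ((p : ℤ) * 0 + ((p - 1 : ℕ) : ℤ) * 2) = w + p by
    push_cast [hp]; ring] at this

theorem dS_al (p : ℕ) (g : ι → σ → F) (U : Finset ι) (c : σ → K)
    {𝒩 : Submodule (MvPolynomial ι K) (Sq ι K)} {v : Finset σ → Sq ι K} (hv : v ∈ Al σ 𝒩) :
    dS p g U c v ∈ Al σ 𝒩 :=
  add_mem (dK_al _ hv) (dI_al _ hv)

omit [DecidableEq ι] [LinearOrder σ] [Fintype σ] in
theorem Yw_neg {p : ℕ} (hp : 2 ≤ p) {U : Finset ι} {w : ℤ} (hw : w < 0) {v : Finset σ → Sq ι K}
    (hv : v ∈ Yw σ K p U w) : v = 0 :=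
  funext fun B => Sq.ext fun A => hv B A fun h => by
    have : 0 ≤ ((p : ℤ) - 2) * B.card := mul_nonneg (by omega) (by omega)
    omega

omit [DecidableEq ι] [LinearOrder σ] [Fintype σ] in
theorem cmap_mem {K' : Type} [CommRing K'] (ψ : K →+ K') {p : ℕ} {U : Finset ι} {w : ℤ}
    {v : Finset σ → Sq ι K} (hv : v ∈ Yw σ K p U w) : cmap ψ v ∈ Yw σ K' p U w :=
  fun B A hA => by
    change ψ (v B A) = 0
    rw [hv B A hA, map_zero]

end Cx

section Fn
variable {ι : Type} [DecidableEq ι] (K : Type) [CommRing K]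

/-- The monomial function attached to a set. -/
def mon (A I : Finset ι) : K := if A ⊆ I then 1 else 0

variable (ι) in
/-- Functions of degree at most `n`. -/
def Pol (n : ℤ) : Submodule K (Finset ι → K) :=
  Submodule.span K {f | ∃ A : Finset ι, (A.card : ℤ) ≤ n ∧ f = mon K A}

variable (ι) in
/-- Functions of weight (twice the degree) at most `k`. -/
def Pw (k : ℤ) : AddSubgroup (Finset ι → K) := (Pol ι K (k / 2)).toAddSubgroup

/-- Functions that vanish on `X`. -/
def Van (X : Set (Finset ι)) : Submodule (Finset ι → K) (Finset ι → K) where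
  carrier := {f | ∀ I ∈ X, f I = 0}
  add_mem' h h' I hI := by rw [Pi.add_apply, h I hI, h' I hI, add_zero]
  zero_mem' _ _ := rfl
  smul_mem' c f h I hI := by rw [smul_eq_mul, Pi.mul_apply, h I hI, mul_zero]

/-- The binomial coefficient of the size of a set measured from `s`. -/
noncomputable def bin (s : ℤ) (k : ℕ) (I : Finset ι) : K :=
  ((Ring.choose ((I.card : ℤ) - s) k : ℤ) : K)

/-- The subsets of `U` on which the binomial coefficients of orders in `𝒜` vanish. -/
def Lev (U : Finset ι) (s : ℤ) (𝒜 : Set ℕ) : Set (Finset ι) :=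
  {I | I ⊆ U ∧ ∀ q ∈ 𝒜, bin K s q I = 0}

variable {σ F : Type} [LinearOrder σ] [Fintype σ] [Field F] [Algebra F K]

/-- The affine functions attached to the vectors `g i` and the target `b`. -/
def af (g : ι → σ → F) (b : σ → F) (l : σ) (I : Finset ι) : K :=
  algebraMap F K (∑ i ∈ I, g i l - b l)

variable {K}

/-- The full operator on functions. -/
noncomputable def dF (p : ℕ) (g : ι → σ → F) (b : σ → F) (c : σ → K) :
    Module.End (Finset ι → K) (Finset σ → Finset ι → K) :=
  dK (Finset ι → K) (af K g b) +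
    dI (Finset ι → K) fun l => (fun _ => c l ^ p) * (af K g b l ^ (p - 1) - 1)

/-- Exactness of the filtered complex on the family of sets `X`. -/
def EF (p : ℕ) (g : ι → σ → F) (b : σ → F) (X : Set (Finset ι)) (w : ℤ) : Prop :=
  ExM (dF p g b (MvPolynomial.X : σ → MvPolynomial σ F))
    (Wt σ ((p : ℤ) - 2) (Pw ι (MvPolynomial σ F))) (Al σ (Van (MvPolynomial σ F) X)) p w

end Fn

end Pool.Agent.Lib.MP_3184af_co.Tate
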