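import Pool.Agent.Lib.MP_3184af_co.Tate.Slice

set_option autoImplicit false

namespace Pool.Agent.Lib.MP_3184af_co.Tate

open Finset

variable {ι K : Type} [DecidableEq ι] [Fintype ι] [CommRing K]

namespace Dv

variable (ι K) in
/-- The span of the multiples of the binomial coefficients of order at least `k`. -/
def J (s D : ℤ) (k : ℕ) : Submodule K (Finset ι → K) :=
  Submodule.span K {h | ∃ i : ℕ, k ≤ i ∧ ∃ r ∈ Pol ι K (D - i), h = bin K s i * r}

omit [Fintype ι] in
theorem J_zero {s D : ℤ} {k : ℕ} (hk : D < k) {g : Finset ι → K} (hg : g ∈ J ι K s D k) :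
    g = 0 := by
  induction hg using Submodule.span_induction with
  | mem x hx =>
    obtain ⟨i, hi, r, hr, rfl⟩ := hx
    rw [Pol.neg (by omega) hr, mul_zero]
  | zero => rfl
  | add x y _ _ hx hy => rw [hx, hy, add_zero]
  | smul c x _ hx => rw [hx, smul_zero]

omit [Fintype ι] in
theorem J_van {s D : ℤ} {k : ℕ} {I : Finset ι} (hI : (I.card : ℤ) - s = k) {g : Finset ι → K}
    (hg : g ∈ J ι K s D (k + 1)) : g I = 0 := by
  induction hg using Submodule.span_induction with
  | mem x hx =>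
    obtain ⟨i, hi, r, hr, rfl⟩ := hx
    rw [Pi.mul_apply, bin, hI, Ring.choose_natCast, Nat.choose_eq_zero_of_lt hi]
    simp
  | zero => rfl
  | add x y _ _ hx hy => rw [Pi.add_apply, hx, hy, add_zero]
  | smul c x _ hx => rw [Pi.smul_apply, hx, smul_zero]

omit [Fintype ι] in
theorem J_dec {s D : ℤ} {k : ℕ} {g : Finset ι → K} (hg : g ∈ J ι K s D k) :
    ∃ h ∈ Pol ι K (D - k), g - bin K s k * h ∈ J ι K s D (k + 1) := by
  induction hg using Submodule.span_induction with
  | mem x hx =>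
    obtain ⟨i, hi, r, hr, rfl⟩ := hx
    rcases hi.eq_or_lt with rfl | hi
    · exact ⟨r, hr, by rw [sub_self]; exact zero_mem _⟩
    · exact ⟨0, zero_mem _, by
        rw [mul_zero, sub_zero]
        exact Submodule.subset_span ⟨i, hi, r, hr, rfl⟩⟩
  | zero => exact ⟨0, zero_mem _, by rw [mul_zero, sub_zero]; exact zero_mem _⟩
  | add x y _ _ hx hy =>
    obtain ⟨h, hh, k1⟩ := hx
    obtain ⟨h', hh', k2⟩ := hy
    refine ⟨h + h', add_mem hh hh', ?_⟩
    rw [mul_add, add_sub_add_comm]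
    exact add_mem k1 k2
  | smul c x _ hx =>
    obtain ⟨h, hh, k1⟩ := hx
    refine ⟨c • h, Submodule.smul_mem _ _ hh, ?_⟩
    rw [mul_smul_comm, ← smul_sub]
    exact Submodule.smul_mem _ _ k1

omit [DecidableEq ι] [Fintype ι] in
theorem bin_mul (s : ℤ) (k j : ℕ) (I : Finset ι) :
    bin K s k I * bin K (s + k) j I = ((k + j).choose k : ℕ) * bin K s (k + j) I := by
  have e := Ring.choose_smul_choose ((I.card : ℤ) - s) (Nat.le_add_right k j)
  rw [Nat.add_sub_cancel_left, sub_sub, nsmul_eq_mul] at e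
  rw [bin, bin, bin, ← Int.cast_mul, ← e, Int.cast_mul, Int.cast_natCast]

omit [Fintype ι] in
theorem J_mul {s D : ℤ} {k : ℕ} {g : Finset ι → K} (hg : g ∈ J ι K (s + k) (D - k) 1) :
    bin K s k * g ∈ J ι K s D (k + 1) := by
  induction hg using Submodule.span_induction with
  | mem x hx =>
    obtain ⟨i, hi, r, hr, rfl⟩ := hx
    have e : bin K s k * (bin K (s + k) i * r) =
        (((k + i).choose k : ℕ) : K) • (bin K s (k + i) * r) := by
      funext I
      simp only [Pi.mul_apply, Pi.smul_apply, smul_eq_mul]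
      rw [← mul_assoc, bin_mul, mul_assoc]
    rw [e]
    exact Submodule.smul_mem _ _ (Submodule.subset_span ⟨k + i, by omega, r,
      Pol.mono (by push_cast; omega) hr, rfl⟩)
  | zero => rw [mul_zero]; exact zero_mem _
  | add x y _ _ hx hy => rw [mul_add]; exact add_mem hx hy
  | smul c x _ hx => rw [mul_smul_comm]; exact Submodule.smul_mem _ _ hx

end Dv

/-- Division on level sets. -/
theorem gdiv (F : Type) [Field F] [Algebra F K] (U : Finset ι) (s D : ℤ) (𝒜 : Set ℕ) (Q : ℕ)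
    {f : Finset ι → K} (hf : f ∈ Pol ι K D) (h1 : D ≤ s) (h2 : D + s ≤ U.card)
    (h0 : ∀ I ∈ Lev F U s (insert Q 𝒜), f I = 0) :
    ∃ f' ∈ Pol ι K (D - Q), ∀ I ∈ Lev F U s 𝒜, f I = bin K s Q I * f' I := by
  have hc : ∀ (q : ℕ) (I : Finset ι), bin K s q I = algebraMap F K (bin F s q I) := fun q I =>
    (map_intCast _ _).symm
  suffices H : ∀ n k : ℕ, D < k + n → ∀ g ∈ Dv.J ι K s D k,
      (∀ I ∈ Lev F U s (insert Q 𝒜), g I = 0) →
      ∃ g' ∈ Pol ι K (D - Q), ∀ I ∈ Lev F U s 𝒜, g I = bin K s Q I * g' I by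
    refine H (D.toNat + 1) 0 (by omega) f (Submodule.subset_span ⟨0, le_rfl, f, by simpa using hf,
      ?_⟩) h0
    funext I
    simp [bin]
  intro n
  induction n with
  | zero =>
    intro k hk g hg _
    rw [Dv.J_zero (by simpa using hk) hg]
    exact ⟨0, zero_mem _, fun I _ => by simp⟩
  | succ n ih =>
    intro k hk g hg hg0
    obtain ⟨h, hh, hr⟩ := Dv.J_dec hg
    have hk' : D < ((k + 1 : ℕ) : ℤ) + n := by push_cast at hk ⊢; omega
    by_cases hL : ∀ q ∈ insert Q 𝒜, ((k.choose q : ℕ) : F) = 0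
    · obtain ⟨h', hh', he⟩ := slice_div U (s + k) (D - k) hh (by omega) (by omega)
        fun I hI hcard => by
          have e0 : (I.card : ℤ) - s = k := by omega
          have e1 : g I = 0 := hg0 I ⟨hI, fun q hq => by
            rw [bin, e0, Ring.choose_natCast, Int.cast_natCast]
            exact hL q hq⟩
          have e2 := Dv.J_van e0 hr
          rw [Pi.sub_apply, Pi.mul_apply, e1, bin, e0, Ring.choose_natCast, Nat.choose_self] at e2
          simpa using e2
      have e : ∀ I ⊆ U, g I = (g - bin K s k * h + bin K s k * h' : Finset ι → K) I := fun I hI => by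
        simp only [Pi.add_apply, Pi.sub_apply, Pi.mul_apply, he I hI]
        ring
      obtain ⟨g', hg', hg''⟩ := ih (k + 1) hk' _ (add_mem hr (Dv.J_mul hh'))
        fun I hI => by rw [← e I hI.1, hg0 I hI]
      exact ⟨g', hg', fun I hI => by rw [e I hI.1, hg'' I hI]⟩
    · push Not at hL
      obtain ⟨q, hq, hne⟩ := hL
      have hqk : q ≤ k := by
        by_contra hlt
        exact hne (by rw [Nat.choose_eq_zero_of_lt (not_le.1 hlt), Nat.cast_zero])
      have e : ∀ I : Finset ι, bin K s k I =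
          bin K s q I * (algebraMap F K ((k.choose q : ℕ) : F)⁻¹ * bin K (s + q) (k - q) I) := by
        intro I
        have e1 := Dv.bin_mul (K := K) s q (k - q) I
        rw [Nat.add_sub_cancel' hqk] at e1
        rw [mul_left_comm, e1, ← mul_assoc, ← map_natCast (algebraMap F K), ← map_mul,
          inv_mul_cancel₀ hne, map_one, one_mul]
      obtain ⟨g', hg', hg''⟩ := ih (k + 1) hk' _ hr fun I hI => by
        rw [Pi.sub_apply, Pi.mul_apply, hg0 I hI, e, hc q, hI.2 q hq]
        simp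
      rcases hq with rfl | hq
      · refine ⟨g' + algebraMap F K ((k.choose q : ℕ) : F)⁻¹ • (bin K (s + q) (k - q) * h),
          add_mem hg' (Submodule.smul_mem _ _ (Pol.mono ?_ (Pol.mul (bin_mem _ _) hh))),
          fun I hI => ?_⟩
        · push_cast [hqk]
          omega
        · have e1 := hg'' I hI
          simp only [Pi.add_apply, Pi.sub_apply, Pi.mul_apply, Pi.smul_apply, smul_eq_mul] at e1 ⊢
          rw [e] at e1
          linear_combination e1
      · refine ⟨g', hg', fun I hI => ?_⟩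
        have e1 := hg'' I hI
        rw [Pi.sub_apply, Pi.mul_apply, e, hc q, hI.2 q hq] at e1
        simpa using e1

section
variable {p : ℕ} [hp : Fact p.Prime]

namespace Dv

theorem const {A : Type} (φ : ℤ → A) (h : ∀ m, φ (m + 1) = φ m) (m : ℤ) : φ m = φ 0 := by
  induction m with
  | zero => rfl
  | succ i ih => rw [h, ih]
  | pred i ih => rw [← h, sub_add_cancel, ih]

theorem diag {A : Type} [CommRing A] (φ : ℕ → A) (q m : ℕ) :
    ∑ ij ∈ antidiagonal q, φ ij.1 * (if ij.2 = m then 1 else 0) =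
      if m ≤ q then φ (q - m) else 0 := by
  split_ifs with h
  · rw [sum_eq_single (q - m, m)]
    · simp
    · rintro ⟨i, j⟩ hij hne
      rw [HasAntidiagonal.mem_antidiagonal] at hij
      rw [if_neg, mul_zero]
      rintro rfl
      exact hne (Prod.ext (by simp only at hij ⊢; omega) rfl)
    · intro hn
      exact absurd (HasAntidiagonal.mem_antidiagonal.2 (by simp only; omega)) hn
  · refine sum_eq_zero fun ij hij => ?_
    rw [HasAntidiagonal.mem_antidiagonal] at hij
    rw [if_neg (by omega), mul_zero]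

theorem step (u : ℤ) (e q : ℕ) :
    ((Ring.choose (u + (p : ℤ) ^ e) q : ℤ) : ZMod p) = (Ring.choose u q : ℤ) +
      if p ^ e ≤ q then ((Ring.choose u (q - p ^ e) : ℤ) : ZMod p) else 0 := by
  have h0 : 0 < p ^ e := pow_pos hp.out.pos e
  have h1 : ∀ j : ℕ, ((Ring.choose ((p : ℤ) ^ e) j : ℤ) : ZMod p) =
      (if j = 0 then 1 else 0) + if j = p ^ e then 1 else 0 := by
    intro j
    rw [← Nat.cast_pow, Ring.choose_natCast, Int.cast_natCast]
    by_cases k0 : j = 0
    · rw [if_pos k0, if_neg (by omega), k0]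
      simp
    by_cases k1 : j = p ^ e
    · rw [if_neg k0, if_pos k1, k1]
      simp
    rw [if_neg k0, if_neg k1, add_zero]
    exact (ZMod.natCast_eq_zero_iff _ _).2 (hp.out.dvd_choose_pow k0 k1)
  rw [Ring.add_choose_eq _ (Commute.all _ _), Int.cast_sum]
  simp only [Int.cast_mul, h1, mul_add, sum_add_distrib]
  rw [diag (fun i => ((Ring.choose u i : ℤ) : ZMod p)),
    diag (fun i => ((Ring.choose u i : ℤ) : ZMod p)), if_pos (Nat.zero_le _), Nat.sub_zero]

end Dv

theorem ch_per (u a : ℤ) {e q : ℕ} (ha : (p : ℤ) ^ e ∣ a) (hq : q < p ^ e) :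
    ((Ring.choose (u + a) q : ℤ) : ZMod p) = (Ring.choose u q : ℤ) := by
  obtain ⟨j, rfl⟩ := ha
  have := Dv.const (fun j => ((Ring.choose (u + (p : ℤ) ^ e * j) q : ℤ) : ZMod p))
    (fun m => by rw [mul_add, mul_one, ← add_assoc, Dv.step, if_neg hq.not_ge, add_zero]) j
  simpa using this

theorem ch_top (u j : ℤ) (e : ℕ) :
    ((Ring.choose (u + j * (p : ℤ) ^ e) (p ^ e) : ℤ) : ZMod p) =
      (Ring.choose u (p ^ e) : ℤ) + (j : ZMod p) := by
  have := Dv.const (fun j : ℤ => ((Ring.choose (u + j * (p : ℤ) ^ e) (p ^ e) : ℤ) : ZMod p) - j)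
    (fun m => by
      rw [add_mul, one_mul, ← add_assoc, Dv.step, if_pos le_rfl, Nat.sub_self,
        Ring.choose_zero_right]
      push_cast
      ring) j
  simp only [zero_mul, add_zero, Int.cast_zero, sub_zero] at this
  rw [← this, sub_add_cancel]

theorem Dv.top_iff {u : ℤ} {r e : ℕ} (hr : r < p ^ e) (hu : (p : ℤ) ^ e ∣ u) :
    ((Ring.choose (u + r) (p ^ e) : ℤ) : ZMod p) = 0 ↔ (p : ℤ) ^ (e + 1) ∣ u := by
  obtain ⟨j, rfl⟩ := hu
  have h0 : (p : ℤ) ^ e ≠ 0 := pow_ne_zero _ (by exact_mod_cast hp.out.ne_zero)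
  rw [add_comm, mul_comm _ j, ch_top, Ring.choose_natCast, Nat.choose_eq_zero_of_lt hr,
    Nat.cast_zero, Int.cast_zero, zero_add, ZMod.intCast_zmod_eq_zero_iff_dvd, mul_comm j, pow_succ,
    mul_dvd_mul_iff_left h0]

theorem ch_dvd (u : ℤ) (e : ℕ) :
    (∀ k < e, ((Ring.choose u (p ^ k) : ℤ) : ZMod p) = 0) ↔ (p : ℤ) ^ e ∣ u := by
  induction e with
  | zero => simp
  | succ e ih =>
    rw [Nat.forall_lt_succ_right, ih]
    have h := Dv.top_iff (p := p) (u := u) (r := 0) (e := e) (pow_pos hp.out.pos e)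
    rw [Nat.cast_zero, add_zero] at h
    exact ⟨fun k => (h k.1).1 k.2, fun k => ⟨(pow_dvd_pow _ e.le_succ).trans k,
      (h ((pow_dvd_pow _ e.le_succ).trans k)).2 k⟩⟩

theorem Dv.scale (e k : ℕ) (m : ℤ) :
    ((Ring.choose (m * (p : ℤ) ^ e) (k * p ^ e) : ℤ) : ZMod p) = (Ring.choose m k : ℤ) := by
  induction k generalizing m with
  | zero => simp
  | succ k ih =>
    have h0 : 0 < p ^ e := pow_pos hp.out.pos e
    have := Dv.const (fun m : ℤ => ((Ring.choose (m * (p : ℤ) ^ e) ((k + 1) * p ^ e) : ℤ) : ZMod p) -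
      (Ring.choose m (k + 1) : ℤ))
      (fun m => by
        rw [add_mul m, one_mul, Dv.step, if_pos (Nat.le_mul_of_pos_left _ k.succ_pos),
          Ring.choose_succ_succ, show (k + 1) * p ^ e - p ^ e = k * p ^ e by
            rw [add_mul, one_mul, Nat.add_sub_cancel], ih]
        push_cast
        ring) m
    simp only [zero_mul] at this
    rw [Ring.choose_zero_pos ℤ (Nat.mul_pos k.succ_pos h0), Ring.choose_zero_succ, sub_self] at this
    exact sub_eq_zero.1 this

theorem ch_ind (u : ℤ) (e : ℕ) (hu : (p : ℤ) ^ e ∣ u) :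
    ((Ring.choose (u - (p : ℤ) ^ e) ((p - 1) * p ^ e) : ℤ) : ZMod p) =
      if (p : ℤ) ^ (e + 1) ∣ u then 1 else 0 := by
  obtain ⟨j, rfl⟩ := hu
  have h0 : (p : ℤ) ^ e ≠ 0 := pow_ne_zero _ (by exact_mod_cast hp.out.ne_zero)
  have hp2 := hp.out.two_le
  have hp0 : (0 : ℤ) < p := by omega
  simp only [pow_succ, mul_dvd_mul_iff_left h0]
  rw [show (p : ℤ) ^ e * j - (p : ℤ) ^ e = (j - 1) * (p : ℤ) ^ e by ring, Dv.scale]
  obtain ⟨r, hr⟩ := Int.eq_ofNat_of_zero_le (Int.emod_nonneg (j - 1) hp0.ne')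
  have h1 := Int.emod_lt_of_pos (j - 1) hp0
  have h2 := Int.emod_add_mul_ediv (j - 1) p
  rw [hr] at h1 h2
  rw [← h2, ch_per (e := 1) _ _ (by rw [pow_one]; exact dvd_mul_right _ _)
    (by rw [pow_one]; omega), Ring.choose_natCast, Int.cast_natCast]
  have h3 : (p : ℤ) ∣ j ↔ (p : ℤ) ∣ r + 1 := by
    rw [show j = r + 1 + p * ((j - 1) / p) by linarith]
    exact dvd_add_left (dvd_mul_right _ _)
  split_ifs with h
  · have h4 := Int.le_of_dvd (by omega) (h3.1 h)
    rw [show r = p - 1 by omega, Nat.choose_self, Nat.cast_one]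
  · have h4 : (r : ℤ) + 1 ≠ p := fun k => h (h3.2 (k ▸ dvd_rfl))
    rw [Nat.choose_eq_zero_of_lt (by omega), Nat.cast_zero]

theorem ch_block (u : ℤ) (e : ℕ) (hu : (p : ℤ) ∣ u) :
    (∀ k, 1 ≤ k → k ≤ e → ((Ring.choose (u + (p - 1)) (p ^ k) : ℤ) : ZMod p) = 0) ↔
      (p : ℤ) ^ (e + 1) ∣ u := by
  induction e with
  | zero => exact ⟨fun _ => by simpa using hu, fun _ k h1 h2 => by omega⟩
  | succ e ih =>
    have hp2 := hp.out.two_le
    have h := Dv.top_iff (p := p) (u := u) (r := p - 1) (e := e + 1)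
      (lt_of_lt_of_le (by omega) (Nat.le_self_pow e.succ_ne_zero p))
    rw [Nat.cast_sub (by omega), Nat.cast_one] at h
    refine ⟨fun k => (h (ih.1 fun i h1 h2 => k i h1 (by omega))).1 (k _ (by omega) le_rfl),
      fun k i h1 h2 => ?_⟩
    have k' := (pow_dvd_pow (p : ℤ) (e + 1).le_succ).trans k
    rcases h2.eq_or_lt with rfl | h2
    · exact (h k').2 k
    · exact ih.2 k' i h1 (by omega)

end

end Pool.Agent.Lib.MP_3184af_co.Tate
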