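import Pool.Agent.Lib.MP_3184af_co.Tate.Pol
import Pool.Agent.Lib.MP_3184af_co.Tate.Base

set_option autoImplicit false
set_option linter.unusedSectionVars false

namespace Pool.Agent.Lib.MP_3184af_co.Tate

open Finset

variable {ι σ : Type} [DecidableEq ι] [Fintype ι] [LinearOrder σ] [Fintype σ]
  {p : ℕ} [hp : Fact p.Prime]

omit [Fintype ι] in
theorem dF_sq {K : Type} [CommRing K] [Algebra (ZMod p) K] (g : ι → σ → ZMod p) (b : σ → ZMod p)
    (c : σ → K) (v : Finset σ → Finset ι → K) : dF p g b c (dF p g b c v) = 0 := by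
  rw [← Module.End.mul_apply, dF, d_sq, sum_eq_zero, zero_smul, LinearMap.zero_apply]
  intro l _
  have h : af K g b l ^ (p - 1) * af K g b l = af K g b l := by
    rw [← pow_succ, Nat.sub_add_cancel hp.out.one_le]
    funext I
    rw [Pi.pow_apply, af, ← map_pow, ZMod.pow_card]
  rw [mul_assoc, sub_mul, h, one_mul, sub_self, mul_zero]

namespace Filt

theorem dF_mem' {K : Type} [CommRing K] [Algebra (ZMod p) K] (g : ι → σ → ZMod p)
    (b : σ → ZMod p) (c : σ → K) {𝒲 : ℤ → AddSubgroup (Finset ι → K)}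
    (h : ∀ m f, f ∈ Pol ι K m → Sh 𝒲 f (2 * m)) {w : ℤ} {v : Finset σ → Finset ι → K}
    (hv : v ∈ Wt σ ((p : ℤ) - 2) 𝒲 w) : dF p g b c v ∈ Wt σ ((p : ℤ) - 2) 𝒲 (w + p) := by
  have h1 := hp.out.one_le
  refine add_mem ?_ ?_
  · have := dK_mem (fun l => h _ _ (af_mem (K := K) g b l)) hv
    rwa [show w + ((p : ℤ) - 2) + 2 * 1 = w + p by ring] at this
  · have := dI_mem (fun l => h _ _ (Pol.mul (Pol.const (c l ^ p))
      (sub_mem (Pol.pow (af_mem (K := K) g b l) (p - 1))
        (Pol.mono (by positivity) (Pol.const (ι := ι) (1 : K)))))) hv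
    rwa [show w - ((p : ℤ) - 2) + 2 * (0 + ((p - 1 : ℕ) : ℤ) * 1) = w + p by
      push_cast [h1]; ring] at this

omit [Fintype ι] in
theorem dF_al {K : Type} [CommRing K] [Algebra (ZMod p) K] (g : ι → σ → ZMod p)
    (b : σ → ZMod p) (c : σ → K) {𝒩 : Submodule (Finset ι → K) (Finset ι → K)}
    {v : Finset σ → Finset ι → K} (hv : v ∈ Al σ 𝒩) : dF p g b c v ∈ Al σ 𝒩 :=
  add_mem (dK_al _ hv) (dI_al _ hv)

section Single
variable {C W : Type} [CommRing C] [AddCommGroup W] [Module C W]

omit [Fintype σ] in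
theorem sgn_single (l : σ) : sgn C l {l} = 1 := by simp [sgn, filter_singleton]

omit [Fintype σ] in
theorem ze_single (l : σ) (f : W) : ze C W l (Pi.single ∅ f) = Pi.single {l} f := by
  funext B
  rw [ze_apply]
  by_cases h : B = {l}
  · subst h
    simp [sgn_single]
  · rw [Pi.single_eq_of_ne h]
    split_ifs with hl
    · rw [Pi.single_eq_of_ne, smul_zero]
      intro e
      exact h (by rw [← insert_erase hl, e]; rfl)
    · rfl

omit [Fintype σ] in
theorem io_single (l : σ) (f : W) : io C W l (Pi.single ∅ f) = 0 := by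
  funext B
  rw [io_apply, Pi.single_eq_of_ne (insert_ne_empty l B)]
  simp

end Single

variable {K : Type} [CommRing K]

variable (K) in
/-- Functions that agree on the subsets of `U` with a function of bounded weight. -/
def Qw (U : Finset ι) (k : ℤ) : AddSubgroup (Finset ι → K) where
  carrier := {f | ∃ e ∈ Pw ι K k, f - e ∈ Van K {I | I ⊆ U}}
  add_mem' := fun ⟨e, h1, h2⟩ ⟨e', h3, h4⟩ =>
    ⟨e + e', add_mem h1 h3, by rw [add_sub_add_comm]; exact add_mem h2 h4⟩
  zero_mem' := ⟨0, zero_mem _, by simp⟩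
  neg_mem' := fun ⟨e, h1, h2⟩ => ⟨-e, neg_mem h1, by rw [← neg_sub', ]; exact neg_mem h2⟩

variable {U : Finset ι}

omit [Fintype ι] in
theorem Pw_mono {j k : ℤ} (h : j ≤ k) {f : Finset ι → K} (hf : f ∈ Pw ι K j) : f ∈ Pw ι K k :=
  Pol.mono (Int.ediv_le_ediv two_pos h) hf

omit [Fintype ι] in
theorem Qw_of {j k : ℤ} (h : j ≤ k) {f : Finset ι → K} (hf : f ∈ Pw ι K j) : f ∈ Qw K U k :=
  ⟨f, Pw_mono h hf, by simp⟩

omit [Fintype ι] in
theorem Qw_van (k : ℤ) {f : Finset ι → K} (hf : f ∈ Van K {I | I ⊆ U}) : f ∈ Qw K U k :=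
  ⟨0, zero_mem _, by simpa using hf⟩

omit [Fintype ι] in
theorem Qw_sh (m : ℤ) (f : Finset ι → K) (hf : f ∈ Pol ι K m) : Sh (Qw K U) f (2 * m) :=
  fun j _ ⟨e, h1, h2⟩ => ⟨f • e, Pol.sh hf j e h1, by
    rw [← smul_sub]; exact Submodule.smul_mem _ _ h2⟩

/-- The function attached to a square-free polynomial. -/
def Phi : Sq ι K →+ (Finset ι → K) where
  toFun y := ∑ A, y A • mon K A
  map_zero' := by simp [Sq.zero_apply]
  map_add' y y' := by simp [Sq.add_apply, add_smul, sum_add_distrib]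

theorem Phi_apply (y : Sq ι K) : Phi y = ∑ A, y A • mon K A := rfl

theorem Phi_mem {k : ℤ} {y : Sq ι K} (hy : y ∈ Hm K U k) : Phi y ∈ Pw ι K k := by
  refine sum_mem fun A _ => ?_
  by_cases h : A ⊆ U ∧ 2 * (A.card : ℤ) = k
  · exact (Pol ι K _).smul_mem _ (mon_mem (by omega))
  · rw [hy A h, zero_smul]
    exact zero_mem _

theorem Phi_C (r : K) (y : Sq ι K) :
    Phi ((MvPolynomial.C r : MvPolynomial ι K) • y) = (fun _ => r) * Phi y := by
  funext I
  simp [Phi_apply, C_smul, Finset.sum_apply, mul_sum, mul_assoc]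

theorem Phi_inj {k : ℤ} {y : Sq ι K} (hy : y ∈ Hm K U k) (h : Phi y ∈ Qw K U (k - 1)) : y = 0 := by
  refine Sq.ext fun A => ?_
  by_cases hA : A ⊆ U ∧ 2 * (A.card : ℤ) = k
  swap
  · exact hy A hA
  obtain ⟨e, h1, h2⟩ := h
  have h3 := Pol.alt h1 A (by omega)
  have h4 : ∀ B, B ⊆ A → e B = if B = A then y A else 0 := fun B hB => by
    have h5 := h2 B (hB.trans hA.1)
    rw [Pi.sub_apply, sub_eq_zero] at h5
    rw [← h5, Phi_apply, Finset.sum_apply, sum_eq_single A _ (by simp)]
    · simp only [Pi.smul_apply, mon, smul_eq_mul, mul_ite, mul_one, mul_zero]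
      exact if_congr ⟨fun h => hB.antisymm h, fun h => h.ge⟩ rfl rfl
    · intro A' _ hne
      by_cases h6 : A' ⊆ B
      · rw [Pi.smul_apply, hy A', zero_smul]
        intro h7
        exact hne (eq_of_subset_of_card_le (h6.trans hB) (by omega))
      · simp [mon, h6]
  rw [sum_eq_single A (fun B hB hne => by rw [h4 B (mem_powerset.1 hB), if_neg hne, mul_zero])
    (by simp), h4 A subset_rfl, if_pos rfl] at h3
  exact (isUnit_neg_one.pow _).mul_right_eq_zero.1 h3

theorem Phi_surj (U : Finset ι) {k : ℤ} {f : Finset ι → K} (hf : f ∈ Pw ι K k) :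
    ∃ y ∈ Hm K U k, f - Phi y ∈ Qw K U (k - 1) := by
  refine Pol.ind (P := fun f => ∃ y ∈ Hm K U k, f - Phi y ∈ Qw K U (k - 1)) (fun B hB => ?_)
    ⟨0, zero_mem _, by simp⟩ ?_ ?_ hf
  · by_cases h : B ⊆ U
    · by_cases h' : 2 * (B.card : ℤ) = k
      · refine ⟨fun A => if A = B then 1 else 0, fun A hA =>
          if_neg fun e : A = B => hA (by rw [e]; exact ⟨h, h'⟩), ?_⟩
        simp [Phi_apply]
      · exact ⟨0, zero_mem _, by
          rw [map_zero, sub_zero]; exact Qw_of le_rfl (mon_mem (by omega))⟩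
    · exact ⟨0, zero_mem _, by
        rw [map_zero, sub_zero]; exact Qw_van _ fun I hI => if_neg fun h' => h (h'.trans hI)⟩
  · rintro f f' ⟨y, h1, h2⟩ ⟨y', h3, h4⟩
    exact ⟨y + y', add_mem h1 h3, by rw [map_add, add_sub_add_comm]; exact add_mem h2 h4⟩
  · rintro c f ⟨y, h1, h2⟩
    refine ⟨_, by simpa using sh_C U c _ _ h1, ?_⟩
    have := Qw_sh _ _ (Pol.const c) _ _ h2
    rw [mul_zero, add_zero, smul_eq_mul, mul_sub] at this
    rw [Phi_C]
    exact this

variable (U) in
/-- The polynomial `P` is the top part of the function `f`. -/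
structure Top (f : Finset ι → K) (P : MvPolynomial ι K) (k : ℤ) : Prop where
  shq : Sh (Qw K U) f k
  shh : Sh (Hm K U) P k
  top : ∀ j, ∀ y ∈ Hm K U j, f • Phi y - Phi (P • y) ∈ Qw K U (j + k - 1)

variable {f f' : Finset ι → K} {P P' : MvPolynomial ι K} {k k' : ℤ}

theorem Top.add (h : Top U f P k) (h' : Top U f' P' k) : Top U (f + f') (P + P') k :=
  ⟨h.shq.add h'.shq, h.shh.add h'.shh, fun j y hy => by
    rw [add_smul, add_smul, map_add, add_sub_add_comm]
    exact add_mem (h.top j y hy) (h'.top j y hy)⟩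

theorem Top.mul (h : Top U f P k) (h' : Top U f' P' k') : Top U (f * f') (P * P') (k + k') :=
  ⟨h.shq.mul h'.shq, h.shh.mul h'.shh, fun j y hy => by
    have h1 := h.shq _ _ (h'.top j y hy)
    have h2 := h.top _ _ (h'.shh j y hy)
    rw [show j + k' - 1 + k = j + (k + k') - 1 by ring] at h1
    rw [show j + k' + k - 1 = j + (k + k') - 1 by ring] at h2
    have := add_mem h1 h2
    rwa [smul_sub, sub_add_sub_cancel, ← mul_smul, ← mul_smul] at this⟩

theorem Top.const (r : K) : Top U (fun _ => r) (MvPolynomial.C r) 0 :=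
  ⟨Qw_sh 0 _ (Pol.const r), sh_C U r, fun j y _ => by simp [Phi_C]⟩

theorem Top.cast (h : Top U f P k) (e : k = k') : Top U f P k' := e ▸ h

theorem Top.pow (h : Top U f P k) (n : ℕ) : Top U (f ^ n) (P ^ n) (n * k) := by
  induction n with
  | zero =>
    rw [pow_zero, pow_zero, Nat.cast_zero, zero_mul, ← MvPolynomial.C_1]
    exact Top.const (U := U) (1 : K)
  | succ n ih => rw [pow_succ, pow_succ]; exact (ih.mul h).cast (by push_cast; ring)

theorem Top.sgn (l : σ) (B : Finset σ) : Top U (sgn _ l B) (sgn (MvPolynomial ι K) l B) 0 := by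
  have := Top.const (U := U) (Tate.sgn K l B)
  convert this using 1
  · funext I
    simp [Tate.sgn]
  · simp [Tate.sgn]

theorem Top.low {m n : ℤ} (hf : f ∈ Pol ι K m) (h : m < n) : Top U f 0 (2 * n) :=
  ⟨Qw_sh _ _ (Pol.mono h.le hf), Sh.zero _, fun j y hy => by
    rw [zero_smul, map_zero, sub_zero]
    exact Qw_of (by omega) (Pol.sh hf _ _ (Phi_mem hy))⟩

theorem Top.van (hf : f ∈ Van K {I | I ⊆ U}) (k : ℤ) : Top U f 0 k := by
  have h : ∀ y, f • y ∈ Van K {I | I ⊆ U} := fun y => by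
    rw [smul_eq_mul, mul_comm]
    exact Submodule.smul_mem _ y hf
  exact ⟨fun j y _ => Qw_van _ (h y), Sh.zero _, fun j y _ => by
    rw [zero_smul, map_zero, sub_zero]
    exact Qw_van _ (h _)⟩

theorem Top.sum {α : Type} (s : Finset α) {f : α → Finset ι → K} {P : α → MvPolynomial ι K}
    (h : ∀ a ∈ s, Top U (f a) (P a) k) : Top U (∑ a ∈ s, f a) (∑ a ∈ s, P a) k := by
  classical
  induction s using Finset.induction_on with
  | empty => simpa using Top.van (zero_mem _) k
  | insert a s ha ih =>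
    rw [sum_insert ha, sum_insert ha]
    exact (h a (mem_insert_self _ _)).add (ih fun b hb => h b (mem_insert_of_mem hb))

theorem Top.var {i : ι} (hi : i ∈ U) : Top U (mon K {i}) (MvPolynomial.X i) 2 := by
  refine ⟨Qw_sh 1 _ (mon_mem (by simp)), sh_X hi, fun j y hy => ?_⟩
  have e : Phi ((MvPolynomial.X i : MvPolynomial ι K) • y) =
      ∑ A, if i ∈ A then 0 else y A • mon K (insert i A) := by
    simp only [Phi_apply, X_smul, ite_smul, zero_smul]
    rw [← sum_filter, ← sum_filter_not_add_sum_filter univ (fun A => i ∈ A),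
      sum_congr rfl fun A hA => if_neg (mem_filter.1 hA).2,
      sum_eq_zero fun A hA => if_pos (mem_filter.1 hA).2, add_zero]
    refine sum_nbij' (fun A => A.erase i) (fun A => insert i A) (by simp) (by simp)
      (fun A hA => insert_erase (mem_filter.1 hA).2) (fun A hA => erase_insert (mem_filter.1 hA).2)
      fun A hA => by rw [insert_erase (mem_filter.1 hA).2]
  rw [e, Phi_apply, smul_sum, ← sum_sub_distrib]
  refine sum_mem fun A _ => ?_
  have e2 : mon K {i} • y A • mon K A = y A • mon K (insert i A) := by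
    funext I
    by_cases h1 : i ∈ I <;> by_cases h2 : A ⊆ I <;> simp [mon, insert_subset_iff, h1, h2]
  rw [e2]
  split_ifs with h
  · rw [sub_zero, insert_eq_of_mem h]
    by_cases h' : A ⊆ U ∧ 2 * (A.card : ℤ) = j
    · exact Qw_of le_rfl ((Pol ι K _).smul_mem _ (mon_mem (by omega)))
    · rw [hy A h', zero_smul]
      exact zero_mem _
  · rw [sub_self]
    exact zero_mem _

theorem top_af {F : Type} [Field F] [Algebra F K] (g : ι → σ → F) (b : σ → F) (l : σ) :
    Top U (af K g b l) (lf K g U l) 2 := by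
  have h1 := Top.sum (U := U) U fun i hi =>
    ((Top.const (algebraMap F K (g i l))).mul (Top.var hi)).cast (zero_add 2)
  have h2 : Top U (fun _ => -algebraMap F K (b l)) 0 (2 * 1) := Top.low (Pol.const _) one_pos
  have h3 := Top.van (U := U) (f := af K g b l - (∑ i ∈ U, (fun _ => algebraMap F K (g i l)) *
      mon K {i} + fun _ => -algebraMap F K (b l))) (fun I hI => by
    have hI' : I ⊆ U := hI
    simp [af, mon, Finset.sum_apply, inter_eq_right.2 hI', sub_eq_add_neg]) 2
  simpa [lf] using h3.add (h1.add h2)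

/-- The map on families. -/
def PhiW (v : Finset σ → Sq ι K) : Finset σ → Finset ι → K := fun B => Phi (v B)

theorem top_dK {ω w : ℤ} {a : σ → Finset ι → K} {a' : σ → MvPolynomial ι K}
    (h : ∀ l, Top U (a l) (a' l) k) {y : Finset σ → Sq ι K} (hy : y ∈ Wt σ ω (Hm K U) w) :
    dK _ a (PhiW y) - PhiW (dK _ a' y) ∈ Wt σ ω (Qw K U) (w + ω + k - 1) := fun B => by
  rw [Pi.sub_apply, PhiW, dK_apply, dK_apply, map_sum, ← sum_sub_distrib]
  refine sum_mem fun l _ => ?_
  split_ifs with hl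
  · have := ((h l).mul (Top.sgn l B)).top _ _ (hy (B.erase l))
    have e : (B.card : ℤ) = (B.erase l).card + 1 := by exact_mod_cast (card_erase_add_one hl).symm
    rwa [show w - ω * (B.erase l).card + (k + 0) - 1 = w + ω + k - 1 - ω * B.card by
      rw [e]; ring] at this
  · simp

theorem top_dI {ω w : ℤ} {a : σ → Finset ι → K} {a' : σ → MvPolynomial ι K}
    (h : ∀ l, Top U (a l) (a' l) k) {y : Finset σ → Sq ι K} (hy : y ∈ Wt σ ω (Hm K U) w) :
    dI _ a (PhiW y) - PhiW (dI _ a' y) ∈ Wt σ ω (Qw K U) (w - ω + k - 1) := fun B => by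
  rw [Pi.sub_apply, PhiW, dI_apply, dI_apply, map_sum, ← sum_sub_distrib]
  refine sum_mem fun l _ => ?_
  split_ifs with hl
  · simp
  · have := ((h l).mul (Top.sgn l B)).top _ _ (hy (insert l B))
    rw [card_insert_of_notMem hl] at this
    rwa [show w - ω * ((B.card + 1 : ℕ) : ℤ) + (k + 0) - 1 = w - ω + k - 1 - ω * B.card by
      push_cast; ring] at this

theorem top_dF [Algebra (ZMod p) K] (g : ι → σ → ZMod p) (b : σ → ZMod p) (c : σ → K) {w : ℤ}
    {y : Finset σ → Sq ι K} (hy : y ∈ Yw σ K p U w) :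
    dF p g b c (PhiW y) - PhiW (dS p g U c y) ∈ Wt σ ((p : ℤ) - 2) (Qw K U) (w + p - 1) := by
  have h2 := hp.out.two_le
  have h3 : ((p - 1 : ℕ) : ℤ) = p - 1 := by omega
  have a1 := top_dK (top_af (U := U) g b) hy
  have a2 := top_dI (k := 2 * (p - 1)) (a := fun l => (fun _ => c l ^ p) *
    (af K g b l ^ (p - 1) - 1)) (a' := fun l => MvPolynomial.C (c l) ^ p * lf K g U l ^ (p - 1))
    (fun l => by
      have := (Top.const (U := U) (c l ^ p)).mul ((((top_af g b l).pow (p - 1)).cast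
        (k' := 2 * (p - 1)) (by rw [h3]; ring)).add (Top.low (Pol.const (-1)) (by omega)))
      rw [add_zero, zero_add, map_pow] at this
      rw [sub_eq_add_neg]
      exact this) hy
  rw [show w + ((p : ℤ) - 2) + 2 - 1 = w + p - 1 by ring] at a1
  rw [show w - ((p : ℤ) - 2) + 2 * (p - 1) - 1 = w + p - 1 by ring] at a2
  have := add_mem a1 a2
  convert this using 1
  funext B
  simp only [dF, dS, PhiW, LinearMap.add_apply, Pi.add_apply, Pi.sub_apply, map_add]
  abel

end Filt

open Filt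

theorem dF_mem {K : Type} [CommRing K] [Algebra (ZMod p) K] (g : ι → σ → ZMod p) (b : σ → ZMod p)
    (c : σ → K) {w : ℤ} {v : Finset σ → Finset ι → K} (hv : v ∈ Wt σ ((p : ℤ) - 2) (Pw ι K) w) :
    dF p g b c v ∈ Wt σ ((p : ℤ) - 2) (Pw ι K) (w + p) :=
  dF_mem' g b c (fun _ _ => Pol.sh) hv

omit [Fintype ι] in
theorem ef_neg (g : ι → σ → ZMod p) (b : σ → ZMod p) (X : Set (Finset ι)) {w : ℤ} (hw : w < 0) :
    EF p g b X w := by
  intro v hv _
  have h2 := hp.out.two_le
  have : v = 0 := funext fun B => Pol.neg (by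
    have : 0 ≤ ((p : ℤ) - 2) * B.card := mul_nonneg (by omega) (by omega)
    omega) (hv B)
  exact ⟨0, zero_mem _, by simp [this]⟩

/-- What exactness says in the first degree. -/
theorem h_one (g : ι → σ → ZMod p) (b : σ → ZMod p) (X : Set (Finset ι)) (D : ℤ)
    (h : EF p g b X (2 * (D + 1) + (p - 2))) (u : Finset ι → ZMod p)
    (hu : ∀ l, ∃ E ∈ Pol ι (ZMod p) (D + 1), ∀ I ∈ X, af (ZMod p) g b l I * u I = E I) :
    ∃ u' ∈ Pol ι (ZMod p) D, ∀ l, ∀ I ∈ X, af (ZMod p) g b l I * (u I - u' I) = 0 := by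
  choose E hE1 hE2 using hu
  have haf : ∀ l I, af (MvPolynomial σ (ZMod p)) g b l I =
      MvPolynomial.C (af (ZMod p) g b l I) := fun l I => rfl
  let v : Finset σ → Finset ι → MvPolynomial σ (ZMod p) :=
    ∑ l, Pi.single {l} fun I => MvPolynomial.C (E l I)
  have hv : v ∈ Wt σ ((p : ℤ) - 2) (Pw ι _) (2 * (D + 1) + (p - 2)) := sum_mem fun l _ B => by
    by_cases hB : B = {l}
    · subst hB
      rw [Pi.single_eq_same]
      exact Pol.mono (by simp) (Pol.map MvPolynomial.C (hE1 l))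
    · rw [Pi.single_eq_of_ne hB]
      exact zero_mem _
  have h1 : v - dF p g b MvPolynomial.X (Pi.single ∅ fun I => MvPolynomial.C (u I)) ∈
      Al σ (Van (MvPolynomial σ (ZMod p)) X) := by
    simp only [dF, dK, dI, LinearMap.add_apply, LinearMap.sum_apply, LinearMap.smul_apply,
      ze_single, io_single, smul_zero, sum_const_zero, add_zero]
    rw [← sum_sub_distrib]
    refine sum_mem fun l _ B I hI => ?_
    by_cases hB : B = {l}
    · subst hB
      simp [haf, ← hE2 l I hI]
    · simp [Pi.single_eq_of_ne hB]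
  have h2 := dF_al g b MvPolynomial.X h1
  rw [map_sub, dF_sq, sub_zero] at h2
  obtain ⟨z, hz, h3⟩ := h v hv h2
  refine ⟨fun I => MvPolynomial.constantCoeff (z ∅ I),
    Pol.mono (by simp; omega) (Pol.map MvPolynomial.constantCoeff (hz ∅)), fun l I hI => ?_⟩
  have h4 := congrArg MvPolynomial.constantCoeff (h3 {l} I hI)
  have h5 : v {l} I = MvPolynomial.C (E l I) := by
    simp only [v, Finset.sum_apply]
    rw [sum_eq_single l (fun m _ hm => by
      rw [Pi.single_eq_of_ne (by simpa using hm.symm)]; rfl) (by simp), Pi.single_eq_same]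
  have h6 : dK _ (af (MvPolynomial σ (ZMod p)) g b) z {l} I =
      MvPolynomial.C (af (ZMod p) g b l I) * z ∅ I := by
    rw [dK_apply, sum_eq_single l (fun m _ hm => if_neg (by simpa using hm)) (by simp)]
    simp [sgn_single, haf]
  have h7 : MvPolynomial.constantCoeff (dI _ (fun l => (fun _ => MvPolynomial.X l ^ p) *
      (af (MvPolynomial σ (ZMod p)) g b l ^ (p - 1) - 1)) z {l} I) = 0 := by
    rw [dI_apply, Finset.sum_apply, map_sum]
    refine sum_eq_zero fun m _ => ?_
    split_ifs <;> simp [hp.out.ne_zero]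
  rw [Pi.sub_apply, Pi.sub_apply, dF, LinearMap.add_apply, Pi.add_apply, Pi.add_apply, h5, h6,
    map_sub, map_add, h7, map_mul, MvPolynomial.constantCoeff_C, MvPolynomial.constantCoeff_C,
    map_zero, ← hE2 l I hI] at h4
  linear_combination -h4

/-- From the graded complex to the filtered complex. -/
theorem transfer (g : ι → σ → ZMod p) (b : σ → ZMod p) (U : Finset ι) (w : ℤ)
    (h : ∀ w' ≤ w, Ex (dS p g U (MvPolynomial.X : σ → MvPolynomial σ (ZMod p)))
      (Yw σ (MvPolynomial σ (ZMod p)) p U) p w') : EF p g b {I | I ⊆ U} w := by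
  induction hn : (w + 1).toNat generalizing w with
  | zero => exact ef_neg g b _ (by omega)
  | succ n ih =>
    intro v hv hd
    choose y hy1 hy2 using fun B => Phi_surj U (hv B)
    have hy : y ∈ Yw σ _ p U w := hy1
    have a1 : v - PhiW y ∈ Wt σ ((p : ℤ) - 2) (Qw _ U) (w - 1) := fun B => by
      rw [sub_right_comm]
      exact hy2 B
    have a2 := dF_mem' g b MvPolynomial.X Qw_sh a1
    rw [map_sub, show w - 1 + p = w + p - 1 by ring] at a2
    have a3 := add_mem a2 (top_dF g b MvPolynomial.X hy)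
    rw [sub_add_sub_cancel] at a3
    have a4 : dS p g U MvPolynomial.X y = 0 := funext fun B =>
      Phi_inj (dS_mem hp.out.one_le g U _ hy B) (by
        have := sub_mem (Qw_van _ (hd B)) (a3 B)
        rw [Pi.sub_apply, sub_sub_cancel, sub_right_comm] at this
        exact this)
    obtain ⟨z, hz, rfl⟩ := h w le_rfl y hy a4
    have a5 := top_dF g b MvPolynomial.X hz
    rw [sub_add_cancel] at a5
    have a6 := sub_mem a1 a5
    rw [sub_sub_sub_cancel_right] at a6
    choose e he1 he2 using a6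
    have a7 : v - dF p g b MvPolynomial.X (PhiW z) - e ∈ Al σ (Van _ {I | I ⊆ U}) := he2
    have a8 := sub_mem hd (dF_al g b MvPolynomial.X a7)
    rw [map_sub, map_sub, dF_sq, sub_zero, sub_sub_cancel] at a8
    obtain ⟨z', hz', a9⟩ := ih (w - 1) (fun w' hw' => h w' (by omega)) (by omega) e he1 a8
    refine ⟨z' + PhiW z, add_mem (fun B => Pw_mono (by omega) (hz' B)) fun B => Phi_mem (hz B), ?_⟩
    convert sub_mem a9 a7 using 1
    rw [map_add]
    abel

end Pool.Agent.Lib.MP_3184af_co.Tate
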