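import Pool.Agent.Lib.MP_3184af_co.Tate.Div
import Pool.Agent.Lib.MP_3184af_co.Tate.Filt

set_option autoImplicit false

namespace Pool.Agent.Lib.MP_3184af_co.Tate

open Finset

variable {ι σ : Type} [DecidableEq ι] [Fintype ι] [LinearOrder σ] [Fintype σ]
  {p : ℕ} [hp : Fact p.Prime]

omit [DecidableEq ι] [Fintype ι] in
theorem rec_al {K : Type} [CommRing K] [Algebra (ZMod p) K] (g : ι → σ → ZMod p) (b : σ → ZMod p)
    (c : σ → K) {X : Set (Finset ι)} {v : Finset σ → Finset ι → K} (hv : v ∈ Al σ (Van K X)) :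
    dF p g b c v ∈ Al σ (Van K X) :=
  add_mem (dK_al _ hv) (dI_al _ hv)

omit [DecidableEq ι] [Fintype ι] [LinearOrder σ] [Fintype σ] in
theorem rec_bin (s : ℤ) (Q : ℕ) (I : Finset ι) :
    bin (MvPolynomial σ (ZMod p)) s Q I = 0 ↔ bin (ZMod p) s Q I = 0 := by
  have : bin (MvPolynomial σ (ZMod p)) s Q I = MvPolynomial.C (bin (ZMod p) s Q I) := by
    rw [bin, bin, map_intCast]
  rw [this, MvPolynomial.C_eq_zero]

omit [LinearOrder σ] [Fintype σ] in
/-- Division of a family, component by component. -/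
theorem rec_div {K : Type} [CommRing K] [Algebra (ZMod p) K] (U : Finset ι) (s w : ℤ) (𝒜 : Set ℕ)
    (Q : ℕ) (h1 : w ≤ 2 * s) (h2 : w + 2 * s ≤ 2 * U.card) {v : Finset σ → Finset ι → K}
    (hv : v ∈ Wt σ ((p : ℤ) - 2) (Pw ι K) w)
    (h0 : v ∈ Al σ (Van K (Lev (ZMod p) U s (insert Q 𝒜)))) :
    ∃ r ∈ Wt σ ((p : ℤ) - 2) (Pw ι K) (w - 2 * Q),
      v - (bin K s Q : Finset ι → K) • r ∈ Al σ (Van K (Lev (ZMod p) U s 𝒜)) := by
  have hp2 := hp.out.two_le
  have key : ∀ B : Finset σ, ∃ f' ∈ Pol ι K ((w - ((p : ℤ) - 2) * B.card) / 2 - Q),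
      ∀ I ∈ Lev (ZMod p) U s 𝒜, v B I = bin K s Q I * f' I := fun B => by
    have : 0 ≤ ((p : ℤ) - 2) * B.card := mul_nonneg (by omega) (by omega)
    exact gdiv (ZMod p) U s _ 𝒜 Q (hv B) (by omega) (by omega) (h0 B)
  choose r hr hr' using key
  refine ⟨r, fun B => Pol.mono (by omega) (hr B), fun B I hI => ?_⟩
  change v B I - bin K s Q I * r B I = 0
  rw [hr' B I hI, sub_self]

/-- Passage to the zero set of one more binomial coefficient. -/
theorem rec_L (g : ι → σ → ZMod p) (b : σ → ZMod p) (U : Finset ι) (s w : ℤ) (𝒜 : Set ℕ) (Q : ℕ)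
    (h1 : w + p ≤ 2 * s) (h2 : w + p + 2 * s ≤ 2 * U.card)
    (E1 : EF p g b (Lev (ZMod p) U s 𝒜) w)
    (E2 : EF p g b {I ∈ Lev (ZMod p) U s 𝒜 | bin (ZMod p) s Q I ≠ 0} (w + p - 2 * Q)) :
    EF p g b (Lev (ZMod p) U s (insert Q 𝒜)) w := by
  intro y hy hd
  set d := dF p g b (MvPolynomial.X : σ → MvPolynomial σ (ZMod p)) with hdd
  set v : Finset ι → MvPolynomial σ (ZMod p) := bin (MvPolynomial σ (ZMod p)) s Q with hv
  obtain ⟨r, hr, hr'⟩ := rec_div U s (w + p) 𝒜 Q h1 h2 (dF_mem g b _ hy) hd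
  have a1 := rec_al g b (MvPolynomial.X : σ → MvPolynomial σ (ZMod p)) hr'
  rw [map_sub, map_smul, dF_sq, zero_sub] at a1
  obtain ⟨z, hz, hz'⟩ := E2 r hr (fun B I hI => by
    have a2 : -(v I * d r B I) = 0 := a1 B I hI.1
    exact (mul_eq_zero.1 (neg_eq_zero.1 a2)).resolve_left fun h => hI.2 ((rec_bin s Q I).1 h))
  have hvz : v • z ∈ Wt σ ((p : ℤ) - 2) (Pw ι (MvPolynomial σ (ZMod p))) w := by
    have := (Pol.sh (bin_mem (ι := ι) (K := MvPolynomial σ (ZMod p)) s Q)).wt _ _ hz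
    rwa [show w + p - 2 * Q - p + 2 * (Q : ℤ) = w by ring] at this
  obtain ⟨z', hz1, hz2⟩ := E1 (y - v • z) (sub_mem hy hvz) (by
    rw [map_sub, map_smul]
    intro B I hI
    have a2 : d y B I - v I * r B I = 0 := hr' B I hI
    change d y B I - v I * d z B I = 0
    by_cases h : bin (ZMod p) s Q I = 0
    · have a3 : v I = 0 := (rec_bin s Q I).2 h
      rw [a3, zero_mul] at a2 ⊢
      exact a2
    · have a3 : d z B I - r B I = 0 := hz' B I ⟨hI, h⟩
      linear_combination a2 - v I * a3)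
  refine ⟨z', hz1, fun B I hI => ?_⟩
  have a2 : d z' B I - (y B I - v I * z B I) = 0 :=
    hz2 B I ⟨hI.1, fun q hq => hI.2 q (Set.mem_insert_of_mem _ hq)⟩
  have a3 : v I = 0 := (rec_bin s Q I).2 (hI.2 Q (Set.mem_insert _ _))
  change d z' B I - y B I = 0
  rw [a3, zero_mul, sub_zero] at a2
  exact a2

/-- Gluing a zero set to its complement. -/
theorem rec_U (g : ι → σ → ZMod p) (b : σ → ZMod p) (U : Finset ι) (s w : ℤ) (𝒜 : Set ℕ) (Q : ℕ)
    (h1 : w ≤ 2 * s) (h2 : w + 2 * s ≤ 2 * U.card) {Y : Set (Finset ι)}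
    (hY : Y ⊆ Lev (ZMod p) U s 𝒜) (hj : Lev (ZMod p) U s (insert Q 𝒜) ⊆ Y)
    (E1 : EF p g b (Lev (ZMod p) U s (insert Q 𝒜)) w)
    (E2 : EF p g b {I ∈ Y | bin (ZMod p) s Q I ≠ 0} (w - 2 * Q)) : EF p g b Y w := by
  intro y hy hd
  set d := dF p g b (MvPolynomial.X : σ → MvPolynomial σ (ZMod p)) with hdd
  set v : Finset ι → MvPolynomial σ (ZMod p) := bin (MvPolynomial σ (ZMod p)) s Q with hv
  obtain ⟨z, hz, hz'⟩ := E1 y hy fun B I hI => hd B I (hj hI)
  have hdz : d z ∈ Wt σ ((p : ℤ) - 2) (Pw ι (MvPolynomial σ (ZMod p))) w := by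
    have := dF_mem g b (MvPolynomial.X : σ → MvPolynomial σ (ZMod p)) hz
    rwa [sub_add_cancel] at this
  obtain ⟨r, hr, hr'⟩ := rec_div U s w 𝒜 Q h1 h2 (sub_mem hdz hy) hz'
  have a1 := rec_al g b (MvPolynomial.X : σ → MvPolynomial σ (ZMod p)) hr'
  rw [map_sub, map_sub, map_smul, dF_sq, zero_sub] at a1
  obtain ⟨u, hu, hu'⟩ := E2 r hr (fun B I hI => by
    have a2 : -d y B I - v I * d r B I = 0 := a1 B I (hY hI.1)
    have a3 : d y B I = 0 := hd B I hI.1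
    rw [a3, neg_zero, zero_sub] at a2
    exact (mul_eq_zero.1 (neg_eq_zero.1 a2)).resolve_left fun h => hI.2 ((rec_bin s Q I).1 h))
  have hvu : v • u ∈ Wt σ ((p : ℤ) - 2) (Pw ι (MvPolynomial σ (ZMod p))) (w - p) := by
    have := (Pol.sh (bin_mem (ι := ι) (K := MvPolynomial σ (ZMod p)) s Q)).wt _ _ hu
    rwa [show w - 2 * Q - p + 2 * (Q : ℤ) = w - p by ring] at this
  refine ⟨z - v • u, sub_mem hz hvu, ?_⟩
  rw [map_sub, map_smul]
  intro B I hI
  have a2 : d z B I - y B I - v I * r B I = 0 := hr' B I (hY hI)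
  change d z B I - v I * d u B I - y B I = 0
  by_cases h : bin (ZMod p) s Q I = 0
  · have a3 : v I = 0 := (rec_bin s Q I).2 h
    rw [a3, zero_mul, sub_zero] at a2 ⊢
    exact a2
  · have a3 : d u B I - r B I = 0 := hu' B I ⟨hI, h⟩
    linear_combination a2 - v I * a3

omit [DecidableEq ι] [Fintype ι] in
theorem rec_per (U : Finset ι) (s j : ℤ) (e : ℕ) :
    Lev (ZMod p) U (s + j * (p ^ (e + 1) : ℕ)) {q | ∃ k, 1 ≤ k ∧ k ≤ e ∧ q = p ^ k} =
      Lev (ZMod p) U s {q | ∃ k, 1 ≤ k ∧ k ≤ e ∧ q = p ^ k} := by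
  ext I
  refine and_congr_right fun _ => forall₂_congr ?_
  rintro q ⟨k, -, hk, rfl⟩
  rw [bin, bin, show (I.card : ℤ) - (s + j * (p ^ (e + 1) : ℕ)) =
    I.card - s + -j * (p : ℤ) ^ (e + 1) by push_cast; ring,
    ch_per _ _ (dvd_mul_left _ _) (Nat.pow_lt_pow_right hp.out.one_lt (by omega))]

omit [DecidableEq ι] [Fintype ι] in
theorem rec_top (s j : ℤ) (e : ℕ) (I : Finset ι) :
    bin (ZMod p) (s + j * (p ^ e : ℕ)) (p ^ e) I = bin (ZMod p) s (p ^ e) I - j := by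
  rw [bin, bin, show (I.card : ℤ) - (s + j * (p ^ e : ℕ)) =
    I.card - s + -j * (p : ℤ) ^ e by push_cast; ring, ch_top, Int.cast_neg, ← sub_eq_add_neg]

omit hp in
theorem rec_ins (e : ℕ) : {q | ∃ k, 1 ≤ k ∧ k ≤ e + 1 ∧ q = p ^ k} =
    insert (p ^ (e + 1)) {q | ∃ k, 1 ≤ k ∧ k ≤ e ∧ q = p ^ k} := by
  ext q
  constructor
  · rintro ⟨k, h1, h2, rfl⟩
    rcases h2.eq_or_lt with rfl | h
    · exact Or.inl rfl
    · exact Or.inr ⟨k, h1, by omega, rfl⟩
  · rintro (rfl | ⟨k, h1, h2, rfl⟩)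
    · exact ⟨e + 1, by omega, le_rfl, rfl⟩
    · exact ⟨k, h1, by omega, rfl⟩

/-- The complement of the zero set, node by node. -/
theorem rec_nodes (g : ι → σ → ZMod p) (b : σ → ZMod p) (U : Finset ι) (e : ℕ) (s w ε : ℤ)
    (hε : ε * ε = 1)
    (H : ∀ i : ℕ, 1 ≤ i → w - 2 * (p ^ (e + 1) : ℕ) * i ≤ 2 * (s + ε * i * (p ^ (e + 1) : ℕ)) ∧
      w - 2 * (p ^ (e + 1) : ℕ) * i + 2 * (s + ε * i * (p ^ (e + 1) : ℕ)) ≤ 2 * U.card ∧
      EF p g b (Lev (ZMod p) U (s + ε * i * (p ^ (e + 1) : ℕ))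
        (insert (p ^ (e + 1)) {q | ∃ k, 1 ≤ k ∧ k ≤ e ∧ q = p ^ k}))
        (w - 2 * (p ^ (e + 1) : ℕ) * i)) :
    EF p g b {I ∈ Lev (ZMod p) U s {q | ∃ k, 1 ≤ k ∧ k ≤ e ∧ q = p ^ k} |
      bin (ZMod p) s (p ^ (e + 1)) I ≠ 0} (w - 2 * (p ^ (e + 1) : ℕ)) := by
  have hε' : (ε : ZMod p) * ε = 1 := by exact_mod_cast congrArg (Int.cast : ℤ → ZMod p) hε
  have key : ∀ m i : ℕ, i + m = p → 1 ≤ i →
      EF p g b {I ∈ Lev (ZMod p) U s {q | ∃ k, 1 ≤ k ∧ k ≤ e ∧ q = p ^ k} |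
        ∀ i' < i, bin (ZMod p) s (p ^ (e + 1)) I ≠ (ε : ZMod p) * (i' : ℕ)}
        (w - 2 * (p ^ (e + 1) : ℕ) * i) := by
    intro m
    induction m with
    | zero =>
      intro i hi _ y _ _
      refine ⟨0, zero_mem _, fun B I hI => ?_⟩
      refine (hI.2 ((ε : ZMod p) * bin (ZMod p) s (p ^ (e + 1)) I).val ?_ ?_).elim
      · rw [show i = p by omega]
        exact ZMod.val_lt _
      · rw [ZMod.natCast_zmod_val, ← mul_assoc, hε', one_mul]
    | succ m ih =>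
      intro i hi h1
      obtain ⟨k1, k2, k3⟩ := H i h1
      have top : ∀ I : Finset ι, bin (ZMod p) (s + ε * i * (p ^ (e + 1) : ℕ)) (p ^ (e + 1)) I =
          bin (ZMod p) s (p ^ (e + 1)) I - (ε : ZMod p) * (i : ℕ) := fun I => by
        rw [rec_top]
        push_cast
        rfl
      refine rec_U g b U _ _ _ _ k1 k2 (fun I hI => ?_) (fun I hI => ⟨?_, fun i' hi' h => ?_⟩) k3 ?_
      · rw [rec_per]
        exact hI.1
      · rw [← rec_per U s (ε * i) e]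
        exact ⟨hI.1, fun q hq => hI.2 q (Set.mem_insert_of_mem _ hq)⟩
      · have a1 := hI.2 _ (Set.mem_insert _ _)
        rw [top, h] at a1
        have a2 : ((i' : ℕ) : ZMod p) = (i : ℕ) := by
          linear_combination (ε : ZMod p) * a1 + ((i : ℕ) - (i' : ℕ) : ZMod p) * hε'
        have a3 := congrArg ZMod.val a2
        rw [ZMod.val_cast_of_lt (by omega), ZMod.val_cast_of_lt (by omega)] at a3
        omega
      · have a1 := ih (i + 1) (by omega) (by omega)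
        rw [show w - 2 * (p ^ (e + 1) : ℕ) * ((i + 1 : ℕ) : ℤ) =
          w - 2 * (p ^ (e + 1) : ℕ) * i - 2 * (p ^ (e + 1) : ℕ) by push_cast; ring] at a1
        convert a1 using 1
        ext I
        simp only [Set.mem_ofPred_eq, top, sub_ne_zero, Nat.forall_lt_succ_right, and_assoc]
  have := key (p - 1) 1 (by have := hp.out.pos; omega) le_rfl
  rw [Nat.cast_one, mul_one] at this
  convert this using 1
  ext I
  simp

/-- Exactness passes to the level sets of the higher digits of the size. -/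
theorem ef_lev (g : ι → σ → ZMod p) (b : σ → ZMod p) (U : Finset ι) (T : ℤ)
    (h : ∀ w < T, EF p g b {I | I ⊆ U} w) (e : ℕ) (s w : ℤ) (hw : w < T) (h1 : w + p ≤ 2 * s)
    (h2 : w + p + 2 * s ≤ 2 * U.card) (h3 : w + 2 * p ≤ U.card) :
    EF p g b (Lev (ZMod p) U s {q | ∃ k, 1 ≤ k ∧ k ≤ e ∧ q = p ^ k}) w := by
  induction e generalizing s w with
  | zero =>
    convert h w hw using 1
    ext I
    refine ⟨fun hI => hI.1, fun hI => ⟨hI, ?_⟩⟩
    rintro q ⟨k, k1, k2, -⟩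
    omega
  | succ e ih =>
    rw [rec_ins]
    have hQ : (p : ℤ) ≤ (p ^ (e + 1) : ℕ) := by
      exact_mod_cast Nat.le_self_pow (by omega) p
    have hp0 : (0 : ℤ) < p := by exact_mod_cast hp.out.pos
    obtain ⟨m, hm⟩ : ∃ m : ℕ, w < m := ⟨w.toNat + 1, by omega⟩
    induction m generalizing s w with
    | zero => exact ef_neg g b _ hm
    | succ m ihm =>
      refine rec_L g b U s w _ _ h1 h2 (ih s w hw h1 h2 h3) ?_
      have hi : ∀ i : ℕ, 1 ≤ i → (p : ℤ) ≤ (p ^ (e + 1) : ℕ) * (i : ℤ) := fun i hi =>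
        hQ.trans (le_mul_of_one_le_right (by positivity) (by exact_mod_cast hi))
      by_cases hs : 2 * s ≤ U.card
      · refine rec_nodes g b U e s (w + p) 1 rfl fun i h0 => ?_
        have := hi i h0
        refine ⟨by linarith, by linarith, ihm _ _ (by linarith) (by linarith) (by linarith)
          (by linarith) ?_⟩
        push_cast at hm this ⊢
        linarith
      · refine rec_nodes g b U e s (w + p) (-1) rfl fun i h0 => ?_
        have := hi i h0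
        refine ⟨by linarith, by linarith, ihm _ _ (by linarith) (by linarith) (by linarith)
          (by linarith) ?_⟩
        push_cast at hm this ⊢
        linarith

end Pool.Agent.Lib.MP_3184af_co.Tate
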