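import Pool.Agent.Lib.MP_3184af_co.Tate.Strat

set_option autoImplicit false

namespace Pool.Agent.Lib.MP_3184af_co.Tate

open Finset

variable {ι σ F : Type} [DecidableEq ι] [LinearOrder σ] [Fintype σ] [Field F]

/-- The vectors that vanish on `J`. -/
private noncomputable def DJ (F : Type) [Field F] (J : Finset σ) : Submodule F (σ → F) :=
  Pi.spanSubset F ((Jᶜ : Finset σ) : Set σ)

private theorem mem_DJ {J : Finset σ} {v : σ → F} : v ∈ DJ F J ↔ ∀ l ∈ J, v l = 0 := by
  simp [DJ, Pi.mem_spanSubset_iff]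

private theorem rk_DJ (J : Finset σ) : Module.finrank F (DJ F J) + J.card = Fintype.card σ := by
  rw [DJ, Pi.dim_spanSubset, Set.ncard_coe_finset, card_compl_add_card]

private theorem X_mem {J : Finset σ} {l : σ} (h : l ∉ J) : MvPolynomial.X l ∈ idl (DJ F J) :=
  Ideal.subset_span ⟨Pi.single l 1, mem_DJ.2 fun m hm => Pi.single_eq_of_ne (by
    rintro rfl
    exact h hm) _, by
    rw [lin, sum_eq_single l] <;> simp +contextual [Pi.single_eq_of_ne]⟩

omit [LinearOrder σ] [Fintype σ] in
private theorem C_al {K : Type} [CommRing K] {I : Ideal K} {a : K} (h : a ∈ I)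
    (v : Finset σ → Sq ι K) : (MvPolynomial.C a : MvPolynomial ι K) • v ∈ Al σ (Vl ι I) :=
  fun B A => by
    rw [Pi.smul_apply, C_smul]
    exact I.mul_mem_right _ h

/-- The components of the second part of the full operator. -/
private noncomputable def jo (K : Type) [CommRing K] [Algebra F K] (p : ℕ) (g : ι → σ → F)
    (U : Finset ι) (l : σ) : Module.End (MvPolynomial ι K) (Finset σ → Sq ι K) :=
  dI (Sq ι K) (Pi.single l (lf K g U l ^ (p - 1)))

section
variable {K : Type} [CommRing K] [Algebra F K] {p : ℕ} {g : ι → σ → F} {U : Finset ι}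

private theorem dS_eq (c : σ → K) (v : Finset σ → Sq ι K) : dS p g U c v =
    dKos K g U v + ∑ l, (MvPolynomial.C (c l ^ p) : MvPolynomial ι K) • jo K p g U l v := by
  simp only [jo, dI_single]
  simp only [dS, dKos, dI, LinearMap.add_apply, LinearMap.sum_apply, LinearMap.smul_apply, mul_smul,
    map_pow]

private theorem jo_mem (hp : 1 ≤ p) (l : σ) {w : ℤ} {v : Finset σ → Sq ι K}
    (hv : v ∈ Yw σ K p U w) : jo K p g U l v ∈ Yw σ K p U (w + p) := by
  have := dI_mem (a := Pi.single l (lf K g U l ^ (p - 1))) (k := ((p - 1 : ℕ) : ℤ) * 2)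
    (fun m => by
      rcases eq_or_ne m l with rfl | h
      · rw [Pi.single_eq_same]
        exact (sh_lf g subset_rfl m).pow _
      · rw [Pi.single_eq_of_ne h]
        exact Sh.zero _) hv
  rwa [show w - ((p : ℤ) - 2) + ((p - 1 : ℕ) : ℤ) * 2 = w + p by push_cast [hp]; ring] at this

private theorem dKos_jo (hp : p.Prime) [CharP F p] (l : σ) {v : Finset σ → Sq ι K}
    (hv : dKos K g U v = 0) : dKos K g U (jo K p g U l v) = 0 := by
  have h := LinearMap.congr_fun
    (dI_dK (W := Sq ι K) (Pi.single l (lf K g U l ^ (p - 1))) (lf K g U)) v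
  rw [sum_eq_single l (fun m _ k => by rw [Pi.single_eq_of_ne k, zero_mul]) (by simp),
    Pi.single_eq_same, pow_sub_one_mul hp.ne_zero, Module.End.mul_apply, LinearMap.sub_apply,
    LinearMap.smul_apply, Module.End.one_apply, lf_pow hp, Module.End.mul_apply] at h
  rw [dKos] at hv
  rw [hv, map_zero, zero_sub, eq_comm, neg_eq_zero] at h
  exact h

end

/-- One more weight of exactness for the classes that are killed by the second part. -/
private theorem climb {p : ℕ} (hp : p.Prime) [CharP F p] (g : ι → σ → F) (U : Finset ι)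
    (J : Finset σ) (w : ℤ)
    (h : ∀ J' ⊆ J, J'.Nonempty → ExM (dS p g U (MvPolynomial.X : σ → MvPolynomial σ F))
      (Yw σ (MvPolynomial σ F) p U) (Al σ (Vl ι (idl (DJ F J')))) p (w + p * (J'.card - 1)))
    (n : ℕ) : ∀ J' ⊆ J, (J \ J').card = n → ∀ x ∈ Yw σ (MvPolynomial σ F) p U (w + p * J'.card),
      dKos _ g U x = 0 → (∀ l ∈ J', jo _ p g U l x = 0) → (∀ B : Finset σ, n ≤ B.card → x B = 0) →
      ∃ z ∈ Yw σ (MvPolynomial σ F) p U (w + p * J'.card - p),
        dS p g U MvPolynomial.X z - x ∈ Al σ (Vl ι (idl (DJ F J'))) := by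
  induction n with
  | zero =>
    intro J' _ _ x _ _ _ h3
    obtain rfl : x = 0 := funext fun B => h3 B (Nat.zero_le _)
    exact ⟨0, zero_mem _, by simp⟩
  | succ n ih =>
    intro J' hJ hn x hx h1 h2 h3
    obtain ⟨l, hl⟩ := card_pos.1 (n.succ_pos.trans_eq hn.symm)
    obtain ⟨l1, l2⟩ := mem_sdiff.1 hl
    have e : ((insert l J').card : ℤ) = J'.card + 1 := by rw [card_insert_of_notMem l2]; rfl
    obtain ⟨z, hz, k⟩ := ih (insert l J') (insert_subset l1 hJ)
      (by rw [sdiff_insert, card_erase_of_mem hl, hn]; rfl) (jo _ p g U l x)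
      (by rw [e, mul_add, mul_one, ← add_assoc]; exact jo_mem hp.one_le l hx) (dKos_jo hp l h1)
      (fun m hm => by
        rcases mem_insert.1 hm with rfl | hm
        · exact LinearMap.congr_fun (dI_sq _) x
        · refine (LinearMap.congr_fun (dI_dI _ _) x).trans ?_
          rw [LinearMap.neg_apply, Module.End.mul_apply, neg_eq_zero]
          exact (congrArg _ (h2 m hm)).trans (map_zero _))
      (fun B hB => by
        rw [jo, dI_single, LinearMap.smul_apply, Pi.smul_apply, io_apply]
        split_ifs with hb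
        · exact smul_zero _
        · rw [h3 _ (by rw [card_insert_of_notMem hb]; omega), smul_zero, smul_zero])
    rw [e, mul_add, mul_one, ← add_assoc, add_sub_cancel_right] at hz
    obtain ⟨y, hy, k'⟩ := h (insert l J') (insert_subset l1 hJ) (insert_nonempty _ _)
      (x - (MvPolynomial.C (MvPolynomial.X l ^ p) : MvPolynomial ι (MvPolynomial σ F)) • z)
      (by
        rw [e, add_sub_cancel_right]
        have := (sh_C U (MvPolynomial.X l ^ p)).wt _ _ hz
        rw [add_zero] at this
        exact sub_mem hx this)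
      (by
        rw [map_sub, map_smul, dS_eq _ x, h1, zero_add, ← add_sum_erase _ _ (mem_univ l),
          add_sub_right_comm, ← smul_sub]
        refine add_mem (Submodule.smul_mem _ _ (by simpa using neg_mem k)) (sum_mem fun m hm => ?_)
        by_cases hm' : m ∈ J'
        · rw [h2 m hm', smul_zero]
          exact zero_mem _
        · exact C_al (Ideal.pow_mem_of_mem _ (X_mem (by simp [hm', (mem_erase.1 hm).1])) _ hp.pos) _)
    rw [e, add_sub_cancel_right] at hy
    refine ⟨y, hy, ?_⟩
    rw [← sub_add] at k'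
    have k1 := (show Al σ (Vl ι (idl (DJ F (insert l J')))) ≤ Al σ (Vl ι (idl (DJ F J'))) from
      fun v hv B A => Ideal.span_mono (Set.image_mono fun v hv => mem_DJ.2 fun m hm =>
        mem_DJ.1 hv m (mem_insert_of_mem hm)) (hv B A)) k'
    exact (add_mem_cancel_right (C_al (Ideal.pow_mem_of_mem _ (X_mem l2) _ hp.pos) z)).1 k1

private theorem kos_step {p : ℕ} (hp : p.Prime) [CharP F p] (g : ι → σ → F) (U : Finset ι)
    (sg : Finset ι → ℤ) (hK : ∀ Z ⊆ U, ∀ w < sg Z, Ex (dKos F g Z) (Yw σ F p Z) p w) (w : ℤ)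
    (h1 : w < (p - 2) * rk g U)
    (h2 : ∀ Z ⊆ U, w + p * rk g U - p < (U \ Z).card + sg Z + p * rk g Z) :
    Ex (dKos F g U) (Yw σ F p U) p w := by
  obtain ⟨J, hJ, hL⟩ := exists_J (Submodule.span F (g '' (U : Set ι)))
  intro x hx h0
  have p2 : (2 : ℤ) ≤ p := by exact_mod_cast hp.two_le
  obtain ⟨z, hz, k⟩ := climb hp g U J w (fun J' hJ' _ => strat hp g U sg hK _ _ fun Z hZ => by
      have a1 := Submodule.finrank_sup_add_finrank_inf_eq (DJ F J)
        (Submodule.span F (g '' (Z : Set ι)))
      have a2 : DJ F J ⊓ Submodule.span F (g '' (Z : Set ι)) = ⊥ := eq_bot_iff.2 fun v hv =>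
        hL v (Submodule.span_mono (Set.image_mono hZ) hv.2) (mem_DJ.1 hv.1)
      have a3 := Submodule.finrank_mono (sup_le_sup_right (show DJ F J ≤ DJ F J' from fun v hv =>
        mem_DJ.2 fun m hm => mem_DJ.1 hv m (hJ' hm)) (Submodule.span F (g '' (Z : Set ι))))
      have a4 := rk_DJ (F := F) J
      have a5 := rk_DJ (F := F) J'
      have a6 := h2 Z hZ
      rw [a2, finrank_bot] at a1
      rw [rk, rk, ← hJ] at a6
      have a7 : (J'.card : ℤ) + Module.finrank F (DJ F J') +
          Module.finrank F (Submodule.span F (g '' (Z : Set ι))) ≤ J.card +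
          Module.finrank F ↥(DJ F J' ⊔ Submodule.span F (g '' (Z : Set ι))) := by omega
      nlinarith)
    J.card ∅ (empty_subset _) (by rw [sdiff_empty])
    (cmap (Algebra.linearMap F (MvPolynomial σ F)).toAddMonoidHom x)
    (by simpa using cmap_mem _ hx) (by rw [← cmap_dKos, h0, map_zero]) (by simp)
    fun B hB => Sq.ext fun A => by
      change algebraMap F _ (x B A) = 0
      rw [hx B A fun e => ?_, map_zero]
      rw [rk, ← hJ] at h1
      have : ((p : ℤ) - 2) * J.card ≤ (p - 2) * B.card :=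
        mul_le_mul_of_nonneg_left (by exact_mod_cast hB) (by omega)
      omega
  let ψ := (MvPolynomial.aeval (0 : σ → F) : MvPolynomial σ F →ₐ[F] F).toLinearMap
  refine ⟨cmap ψ.toAddMonoidHom z, by simpa using cmap_mem _ hz, ?_⟩
  rw [← dS_zero hp.one_le, ← cmap_dS ψ p g U (c := MvPolynomial.X) fun l r => by simp [ψ]]
  refine funext fun B => Sq.ext fun A => ?_
  have e : idl (DJ F (∅ : Finset σ)) ≤ RingHom.ker (MvPolynomial.aeval (0 : σ → F) :
      MvPolynomial σ F →ₐ[F] F) := Ideal.span_le.2 (by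
    rintro _ ⟨a, -, rfl⟩
    simp [lin])
  have e2 := RingHom.mem_ker.1 (e (k B A))
  rw [Pi.sub_apply, Sq.sub_apply, map_sub, sub_eq_zero] at e2
  exact e2.trans (AlgHom.commutes _ _)

theorem kos {p : ℕ} (hp : p.Prime) [CharP F p] (g : ι → σ → F) (U : Finset ι) (T : ℤ)
    (hT : ∀ Z ⊆ U, T ≤ (U \ Z).card + 2 * ((p : ℤ) - 1) * rk g Z) (w : ℤ)
    (hw : w + p * rk g U < T) : Ex (dKos F g U) (Yw σ F p U) p w := by
  induction U using Finset.strongInduction generalizing T w with
  | H U ih =>
  suffices H : ∀ n : ℕ, ∀ w : ℤ, w < n → w + p * rk g U < T → Ex (dKos F g U) (Yw σ F p U) p w from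
    H (w.toNat + 1) w (by omega) hw
  intro n
  induction n with
  | zero =>
    intro w h _ v hv _
    exact ⟨0, zero_mem _, by rw [Yw_neg hp.two_le h hv, map_zero]⟩
  | succ n ihn =>
    intro w h hw
    have p0 : (0 : ℤ) < p := by exact_mod_cast hp.pos
    refine kos_step hp g U (fun Z => if Z = U then w else T - (U \ Z).card - p * rk g Z)
      (fun Z hZ w' hw' => ?_) w ?_ fun Z hZ => ?_
    · by_cases e : Z = U
      · subst e
        rw [if_pos rfl] at hw'
        exact ihn w' (by omega) (by omega)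
      · rw [if_neg e] at hw'
        refine ih Z (ssubset_of_subset_of_ne hZ e) (T - (U \ Z).card) (fun Z' hZ' => ?_) w'
          (by omega)
        have a1 := hT Z' (hZ'.trans hZ)
        have a2 := card_sdiff_add_card_eq_card hZ
        have a3 := card_sdiff_add_card_eq_card hZ'
        have a4 := card_sdiff_add_card_eq_card (hZ'.trans hZ)
        omega
    · have := hT U subset_rfl
      rw [sdiff_self, bot_eq_empty, card_empty, Nat.cast_zero] at this
      linarith
    · split_ifs with e
      · subst e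
        omega
      · omega

/-- The vanishing theorem. -/
theorem vstar {p : ℕ} (hp : p.Prime) [CharP F p] (g : ι → σ → F) (U : Finset ι) (T : ℤ)
    (hT : ∀ Z ⊆ U, T ≤ (U \ Z).card + 2 * ((p : ℤ) - 1) * rk g Z) (w : ℤ) (hw : w < T) :
    Ex (dS p g U (MvPolynomial.X : σ → MvPolynomial σ F)) (Yw σ (MvPolynomial σ F) p U) p w := by
  have e : idl (⊥ : Submodule F (σ → F)) = ⊥ := by simp [idl, lin]
  have h := strat hp g U (fun Z => T - (U \ Z).card - p * rk g Z) (fun Z hZ w' hw' =>
    kos hp g Z (T - (U \ Z).card) (fun Z' hZ' => by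
      have a1 := hT Z' (hZ'.trans hZ)
      have a2 := card_sdiff_add_card_eq_card hZ
      have a3 := card_sdiff_add_card_eq_card hZ'
      have a4 := card_sdiff_add_card_eq_card (hZ'.trans hZ)
      omega) w' (by omega)) ⊥ w fun Z _ => by
    rw [bot_sup_eq, finrank_bot, rk]
    omega
  rw [e] at h
  intro v hv h0
  obtain ⟨z, hz, k⟩ := h v hv (h0 ▸ zero_mem _)
  exact ⟨z, hz, sub_eq_zero.1 (funext fun B => Sq.ext fun A => k B A)⟩

end Pool.Agent.Lib.MP_3184af_co.Tate
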