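import Pool.Agent.Lib.MP_3184af_co.Main
import Pool.Agent.Lib.MP_3184af_co.Tate.Vstar
import Pool.Agent.Lib.MP_3184af_co.Tate.Rec
import Pool.Agent.Lib.MP_3184af_co.Tate.Step

set_option autoImplicit false

namespace Pool.Agent.Lib.MP_3184af_co.Tate

open Finset

section
variable {ι σ : Type} [DecidableEq ι] [Fintype ι] [LinearOrder σ] [Fintype σ]
  {p : ℕ} [hp : Fact p.Prime]

omit [DecidableEq ι] [Fintype ι] [LinearOrder σ] in
theorem gt_cut (g : ι → σ → ZMod p) (l0 : σ) (hg : ∀ i, g i l0 = 1) {U : Finset ι}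
    (hU : U.Nonempty) : ∃ J : Finset σ, J.card + 1 ≤ rk g U ∧
      ∀ v ∈ Submodule.span (ZMod p) (g '' (U : Set ι)), v l0 = 0 → (∀ l ∈ J, v l = 0) → v = 0 := by
  classical
  obtain ⟨i, hi⟩ := hU
  let : LinearOrder σ := linearOrderOfSTO WellOrderingRel
  obtain ⟨J, h1, h2⟩ := exists_J (Submodule.span (ZMod p) (g '' (U : Set ι)) ⊓
    LinearMap.ker (LinearMap.proj l0 : (σ → ZMod p) →ₗ[ZMod p] ZMod p))
  refine ⟨J, ?_, fun v hv h0 h => h2 v ⟨hv, h0⟩ h⟩
  rw [h1]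
  refine Submodule.finrank_lt_finrank_of_lt (lt_of_le_of_ne inf_le_left fun e => ?_)
  have h3 : g i ∈ Submodule.span (ZMod p) (g '' (U : Set ι)) :=
    Submodule.subset_span ⟨i, hi, rfl⟩
  rw [← e] at h3
  exact one_ne_zero ((hg i).symm.trans h3.2)

omit [Fintype σ] [LinearOrder σ] in
theorem gt_kappa (g : ι → σ → ZMod p) (b : σ → ZMod p) (J : Finset σ) :
    ∏ l ∈ J, (1 - af (ZMod p) g b l ^ (p - 1)) ∈ Pol ι (ZMod p) (((p : ℤ) - 1) * J.card) := by
  classical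
  have h1 := hp.out.one_lt
  induction J using Finset.induction_on with
  | empty =>
    rw [prod_empty, card_empty, Nat.cast_zero, mul_zero]
    exact Pol.const (1 : ZMod p)
  | insert l J hl ih =>
    rw [prod_insert hl, card_insert_of_notMem hl]
    have h2 : 1 - af (ZMod p) g b l ^ (p - 1) ∈ Pol ι (ZMod p) ((p : ℤ) - 1) :=
      sub_mem (Pol.mono (by omega) (Pol.const (ι := ι) (1 : ZMod p)))
        (Pol.mono (by omega) (Pol.pow (af_mem g b l) (p - 1)))
    refine Pol.mono (le_of_eq ?_) (Pol.mul h2 ih)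
    push_cast
    ring

omit [DecidableEq ι] [Fintype ι] [LinearOrder σ] [Fintype σ] in
theorem gt_l0 (g : ι → σ → ZMod p) (l0 : σ) (hg : ∀ i, g i l0 = 1) {I : Finset ι} {s : ℤ}
    (h : (p : ℤ) ∣ I.card - s) : (∑ i ∈ I, g i) l0 = (s : ZMod p) := by
  have := (ZMod.intCast_zmod_eq_zero_iff_dvd _ p).2 h
  push_cast at this
  simp only [Finset.sum_apply, hg, sum_const, nsmul_eq_mul, mul_one]
  exact sub_eq_zero.1 this

/-- The step when all subfamilies satisfy the inequality of the vanishing theorem. -/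
theorem gt_good (g : ι → σ → ZMod p) (l0 : σ) (hg : ∀ i, g i l0 = 1) (U : Finset ι) (s : ℤ)
    (h1 : ((p : ℤ) - 1) * (rk g U - 1) ≤ s) (h2 : s + ((p : ℤ) - 1) * (rk g U - 1) + 1 ≤ U.card)
    (hU : U.Nonempty) {e : ℕ} (he : 1 ≤ e) {I0 : Finset ι} (hI : I0 ⊆ U)
    (hs : (p : ℤ) ^ e ∣ I0.card - s)
    (hT : ∀ Z ⊆ U, 2 * (((p : ℤ) - 1) * (rk g U - 1)) - 2 * (p : ℤ) ^ (e + 1) + 3 * p - 1 ≤
      (U \ Z).card + 2 * ((p : ℤ) - 1) * rk g Z) :
    ∃ I ⊆ U, (p : ℤ) ^ (e + 1) ∣ I.card - s ∧ ∑ i ∈ I, g i = ∑ i ∈ I0, g i := by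
  obtain ⟨J, j1, j2⟩ := gt_cut g l0 hg hU
  have p2 : (2 : ℤ) ≤ p := by exact_mod_cast hp.out.two_le
  have pe : (p : ℤ) ∣ (p : ℤ) ^ e := dvd_pow_self _ (by omega)
  have pq : (p : ℤ) * p ≤ (p : ℤ) ^ (e + 1) := by
    rw [← sq]
    exact pow_le_pow_right₀ (by omega) (by omega)
  have q1 : 3 * (p : ℤ) - 2 ≤ p * p := by nlinarith
  have mem : ∀ I ⊆ U, ∑ i ∈ I, g i ∈ Submodule.span (ZMod p) (g '' (U : Set ι)) := fun I h =>
    sum_mem fun i hi => Submodule.subset_span ⟨i, h hi, rfl⟩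
  refine step g _ l0 hg U s _ (gt_l0 g l0 hg (pe.trans hs)) e he h1 h2 (fun w hw => ?_)
    (∏ l ∈ J, (1 - af (ZMod p) g (∑ i ∈ I0, g i) l ^ (p - 1)))
    (Pol.mono (mul_le_mul_of_nonneg_left (by omega) (by omega)) (gt_kappa g _ J))
    ⟨I0, hI, hs, ?_⟩ fun I h3 h4 h5 => ?_
  · exact ef_lev g _ U _ (fun w hw => transfer g _ U w fun w' hw' =>
      vstar hp.out g U _ hT w' (hw'.trans_lt hw)) e _ w (by omega) (by omega) (by omega) (by omega)
  · rw [Finset.prod_apply, prod_ne_zero_iff]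
    intro l _
    have : p - 1 ≠ 0 := by have := hp.out.two_le; omega
    simp [af, this]
  · refine sub_eq_zero.1 (j2 _ (sub_mem (mem I h3) (mem I0 hI)) ?_ fun l hl => ?_)
    · rw [Pi.sub_apply, gt_l0 g l0 hg (pe.trans h4), gt_l0 g l0 hg (pe.trans hs), sub_self]
    · rw [Finset.prod_apply, prod_ne_zero_iff] at h5
      by_contra h6
      refine h5 l hl ?_
      have h7 : af (ZMod p) g (∑ i ∈ I0, g i) l I = (∑ i ∈ I, g i - ∑ i ∈ I0, g i) l := by
        simp [af]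
      rw [Pi.sub_apply, Pi.one_apply, Pi.pow_apply, h7, ZMod.pow_card_sub_one_eq_one h6, sub_self]

/-- The sums of the subsets of a central size contain the sums of all subsets whose size is
congruent modulo `p`. -/
theorem gt (g : ι → σ → ZMod p) (l0 : σ) (hg : ∀ i, g i l0 = 1) (U : Finset ι) (s : ℤ)
    (h1 : ((p : ℤ) - 1) * (rk g U - 1) ≤ s) (h2 : s + ((p : ℤ) - 1) * (rk g U - 1) + 1 ≤ U.card)
    (h0 : 0 ≤ s) (h0' : s < U.card) {I0 : Finset ι} (hI : I0 ⊆ U) (hs : (p : ℤ) ∣ I0.card - s) :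
    ∃ I ⊆ U, (I.card : ℤ) = s ∧ ∑ i ∈ I, g i = ∑ i ∈ I0, g i := by
  induction hn : U.card using Nat.strong_induction_on generalizing U s I0 with
  | _ n ih =>
  have hU : U.Nonempty := card_pos.1 (by omega)
  have p2 : (2 : ℤ) ≤ p := by exact_mod_cast hp.out.two_le
  have key : ∀ e : ℕ, ∃ I ⊆ U, (p : ℤ) ^ (e + 1) ∣ I.card - s ∧
      ∑ i ∈ I, g i = ∑ i ∈ I0, g i := fun e => by
    induction e with
    | zero => exact ⟨I0, hI, by simpa using hs, rfl⟩
    | succ e ihe =>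
    obtain ⟨I, a1, a2, a3⟩ := ihe
    rw [← a3]
    by_cases hT : ∀ Z ⊆ U, 2 * (((p : ℤ) - 1) * (rk g U - 1)) - 2 * (p : ℤ) ^ (e + 1 + 1) +
      3 * p - 1 ≤ (U \ Z).card + 2 * ((p : ℤ) - 1) * rk g Z
    · exact gt_good g l0 hg U s h1 h2 hU (by omega) a1 a2 hT
    push Not at hT
    obtain ⟨Z, hZ, hT⟩ := hT
    have pq : (p : ℤ) * p ≤ (p : ℤ) ^ (e + 1 + 1) := by
      rw [← sq]
      exact pow_le_pow_right₀ (by omega) (by omega)
    have pd : (p : ℤ) ∣ (p : ℤ) ^ (e + 1 + 1) := dvd_pow_self _ (by omega)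
    have pe : (p : ℤ) ∣ (p : ℤ) ^ (e + 1) := dvd_pow_self _ (by omega)
    generalize (p : ℤ) ^ (e + 1 + 1) = Q at hT pq pd ⊢
    have q1 : 2 * (p : ℤ) ≤ p * p := by nlinarith
    have c1 : (U \ Z).card + Z.card = U.card := card_sdiff_add_card_eq_card hZ
    have c2 : Z.card < U.card := card_lt_card (lt_of_le_of_ne hZ fun e => by
      rw [e, sdiff_self, bot_eq_empty, card_empty] at hT
      push_cast at hT
      nlinarith)
    obtain ⟨t, ht⟩ : ∃ t : ℤ, t = ((p : ℤ) - 1) * (rk g Z - 1) := ⟨_, rfl⟩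
    have c3 : 2 * ((p : ℤ) - 1) * rk g Z = 2 * t + 2 * (p - 1) := by rw [ht]; ring
    have c4 : 2 * t + 2 * Q - p + 1 ≤ Z.card := by omega
    have c5 : 0 ≤ t := by
      rcases Z.eq_empty_or_nonempty with rfl | hZ'
      · have : rk g ∅ = 0 := by simp [rk]
        rw [this] at c3
        rw [card_empty] at c4
        push_cast at c3 c4
        omega
      · obtain ⟨J, j1, -⟩ := gt_cut g l0 hg hZ'
        rw [ht]
        exact mul_nonneg (by omega) (by omega)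
    have Q0 : 0 < Q := by omega
    have m1 := Int.emod_nonneg (s - (I \ Z).card - t) Q0.ne'
    have m2 := Int.emod_lt_of_pos (s - (I \ Z).card - t) Q0
    have m3 : Q ∣ (s - (I \ Z).card - t) % Q - (s - (I \ Z).card - t) :=
      (Int.mod_modEq _ _).symm.dvd
    generalize (s - (I \ Z).card - t) % Q = m at m1 m2 m3
    have c6 : (I \ Z).card + (I ∩ Z).card = I.card := card_sdiff_add_card_inter I Z
    obtain ⟨I', b1, b2, b3⟩ := ih _ (hn ▸ c2) Z (t + m) (by omega) (by omega) (by omega)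
      (by omega) (inter_subset_right (s₁ := I)) (by
        rw [show ((I ∩ Z).card : ℤ) - (t + m) =
          I.card - s - (m - (s - (I \ Z).card - t)) by omega]
        exact (pe.trans a2).sub (pd.trans m3)) rfl
    have dj : Disjoint I' (I \ Z) := disjoint_sdiff.mono_left b1
    refine ⟨I' ∪ I \ Z, union_subset (b1.trans hZ) (sdiff_subset.trans a1), ?_, ?_⟩
    · rw [card_union_of_disjoint dj, Nat.cast_add, b2,
        show t + m + (I \ Z).card - s = m - (s - (I \ Z).card - t) by ring]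
      exact m3
    · rw [sum_union dj, b3, sum_inter_add_sum_sdiff]
  obtain ⟨I, a1, a2, a3⟩ := key U.card
  refine ⟨I, a1, sub_eq_zero.1 (Int.eq_zero_of_abs_lt_dvd a2 ?_), a3⟩
  have b1 : U.card < p ^ (U.card + 1) :=
    (Nat.lt_succ_self _).trans (Nat.lt_pow_self hp.out.one_lt)
  have b2 : (U.card : ℤ) < (p : ℤ) ^ (U.card + 1) := by exact_mod_cast b1
  have b3 := card_le_card a1
  rw [abs_lt]
  omega

end

theorem gt_basis (p : ℕ) [hp : Fact p.Prime] (G : Type) [AddCommGroup G] [Module (ZMod p) G]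
    [Finite G] : ∃ (r : ℕ) (E : G →+ Fin r → ZMod p) (B : Fin r → G), Function.Injective E ∧
      ∀ c : Fin r → ℕ, (∀ i, c i ≤ p - 1) → ∑ i, c i • B i = 0 → ∀ i, c i = 0 := by
  have B := Module.finBasis (ZMod p) G
  refine ⟨_, B.equivFun.toAddEquiv.toAddMonoidHom, B, B.equivFun.injective, fun c hc h i => ?_⟩
  have h2 := Fintype.linearIndependent_iff.1 B.linearIndependent (fun i => (c i : ZMod p))
    (by simpa only [Nat.cast_smul_eq_nsmul] using h) i
  have := hc i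
  have := hp.out.pos
  exact Nat.eq_zero_of_dvd_of_lt ((ZMod.natCast_eq_zero_iff _ _).1 h2) (by omega)

theorem elem {p : ℕ} (hp : p.Prime) {G : Type} [AddCommGroup G] [Finite G]
    (hG : ∀ x : G, p • x = 0) {k d : ℕ}
    (hd : IsLeast
      {ℓ : ℕ | ∀ f : Fin ℓ → G, ∃ I : Finset (Fin ℓ), I.Nonempty ∧ ∑ i ∈ I, f i = 0} d)
    (hk : d ≤ k * p) :
    IsLeast {ℓ : ℕ | ∀ f : Fin ℓ → G, ∃ I : Finset (Fin ℓ), I.card = k * p ∧ ∑ i ∈ I, f i = 0}
      (d + k * p - 1) := by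
  classical
  have : Fact p.Prime := ⟨hp⟩
  obtain ⟨t, rfl⟩ : ∃ t, d = t + 1 := Nat.exists_eq_succ_of_ne_zero (by
    rintro rfl
    obtain ⟨I, ⟨i, -⟩, -⟩ := hd.1 fun _ => 0
    exact i.elim0)
  refine ⟨fun f => ?_, fun ℓ h => ?_⟩
  swap
  · have := lower (d := t) (by omega) (fun h' => by have := hd.2 h'; omega) h
    omega
  let : Module (ZMod p) G := AddCommGroup.zmodModule hG
  obtain ⟨r, E, B, hE, hB⟩ := gt_basis p G
  have h1 := zsf ⊤ (dav_fin hd.1) (fun _ : Unit => (0 : G)) ∅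
    (fun I hI h => absurd (subset_empty.1 hI) h.ne_empty) B (fun _ => p - 1) (fun _ => trivial) hB
  rw [sum_const, card_univ, Fintype.card_fin, card_empty, smul_eq_mul] at h1
  obtain ⟨g, hg⟩ : ∃ g : Fin (t + 1 + k * p - 1) → Fin (r + 1) → ZMod p,
      g = fun i => Fin.cons 1 (E (f i)) := ⟨_, rfl⟩
  have h2 : rk g univ ≤ r + 1 := (Submodule.finrank_le _).trans (by simp)
  have h3 : ((p : ℤ) - 1) * (rk g univ - 1) ≤ t := by
    have a1 : ((r * (p - 1) : ℕ) : ℤ) ≤ t := by omega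
    have a2 := hp.one_le
    push_cast [a2] at a1
    refine le_trans (mul_le_mul_of_nonneg_left (by omega) (by omega)) ((mul_comm _ _).trans_le a1)
  have h4 : (univ : Finset (Fin (t + 1 + k * p - 1))).card = t + k * p := by
    rw [card_univ, Fintype.card_fin]
    omega
  obtain ⟨U, -, h5, h6⟩ := gt g 0 (fun i => by simp [hg]) univ t h3 (by omega) (by omega)
    (by omega) subset_rfl (by rw [h4]; simp)
  refine ⟨Uᶜ, by rw [card_compl, Fintype.card_fin]; omega, ?_⟩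
  have h7 : ∑ i ∈ U, f i = ∑ i, f i := hE (funext fun j => by
    simpa [hg] using congrFun h6 j.succ)
  have := sum_compl_add_sum U f
  rw [h7] at this
  exact add_eq_right.1 this

end Pool.Agent.Lib.MP_3184af_co.Tate
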