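import Pool.Agent.Lib.MP_3184af_co.Tate.Conj
import Pool.Agent.Lib.MP_3184af_co.Tate.Band
import Pool.Agent.Lib.MP_3184af_co.Tate.Base

set_option autoImplicit false

namespace Pool.Agent.Lib.MP_3184af_co.Tate

open Finset

variable {ι σ F : Type} [DecidableEq ι] [LinearOrder σ] [Fintype σ] [Field F]
  {K : Type} [CommRing K] [Algebra F K]

namespace Leaf

open MvPolynomial

variable (K) in
/-- The second grading on square-free polynomials. -/
def Rz (Z : Finset ι) (φ : ℤ → Prop) (j : ℤ) : AddSubgroup (Sq ι K) :=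
  Sp K fun A => φ (-((A ∩ Z).card : ℤ) - j)

variable {Z : Finset ι} {φ ψ : ℤ → Prop}

theorem rz_C (r : K) : Sh (Rz K Z φ) (C r : MvPolynomial ι K) 0 :=
  fun j y h A hA => by rw [C_smul, h A (by simpa using hA), mul_zero]

theorem rz_in {i : ι} (hi : i ∈ Z) : Sh (Rz K Z φ) (X i : MvPolynomial ι K) (-1) :=
  fun j y h A hA => by
    rw [X_smul]
    split_ifs with h1
    · refine h _ fun h2 => hA ?_
      have : (A.erase i ∩ Z).card + 1 = (A ∩ Z).card := by
        rw [erase_inter]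
        exact card_erase_add_one (mem_inter.2 ⟨h1, hi⟩)
      beta_reduce at h2 ⊢
      rwa [show -((A ∩ Z).card : ℤ) - (j + -1) = -((A.erase i ∩ Z).card : ℤ) - j by omega]
    · rfl

theorem rz_out {i : ι} (hi : i ∉ Z) : Sh (Rz K Z φ) (X i : MvPolynomial ι K) 0 :=
  fun j y h A hA => by
    rw [X_smul]
    split_ifs with h1
    · refine h _ fun h2 => hA ?_
      beta_reduce at h2
      rwa [erase_inter, erase_eq_of_notMem fun k => hi (mem_inter.1 k).2, ← add_zero j] at h2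
    · rfl

variable (σ K Z φ) in
/-- The second grading on families. -/
def Wr : ℤ → AddSubgroup (Finset σ → Sq ι K) := Wt σ 1 (Rz K Z φ)

omit [LinearOrder σ] [Fintype σ] in
theorem mem_Wr {k : ℤ} {v : Finset σ → Sq ι K} : v ∈ Wr σ K Z φ k ↔
    ∀ B A, ¬ φ ((B.card : ℤ) - (A ∩ Z).card - k) → v B A = 0 :=
  forall_congr' fun B => forall_congr' fun A => by
    rw [show (B.card : ℤ) - (A ∩ Z).card - k = -((A ∩ Z).card : ℤ) - (k - 1 * B.card) by ring]

omit [LinearOrder σ] [Fintype σ] in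
theorem Wr_mono {k k' : ℤ} {v : Finset σ → Sq ι K} (h : v ∈ Wr σ K Z φ k)
    (e : ∀ t, φ (t - k) → ψ (t - k')) : v ∈ Wr σ K Z ψ k' :=
  mem_Wr.2 fun B A hA => mem_Wr.1 h B A fun h1 => hA (e _ h1)

omit [LinearOrder σ] [Fintype σ] in
theorem Wr_disj {k k' : ℤ} {v v' : Finset σ → Sq ι K} (h : v ∈ Wr σ K Z φ k)
    (h' : v' ∈ Wr σ K Z ψ k') (e : ∀ t, φ (t - k) → ¬ ψ (t - k')) (h0 : v + v' = 0) : v = 0 :=
  funext fun B => Sq.ext fun A => by
    by_cases h1 : φ ((B.card : ℤ) - (A ∩ Z).card - k)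
    · have h2 : v B A + v' B A = 0 := congrFun (congrFun h0 B) A
      rwa [mem_Wr.1 h' B A (e _ h1), add_zero] at h2
    · exact mem_Wr.1 h B A h1

variable (Z) in
/-- The part of degree `k`. -/
def pr (k : ℤ) (v : Finset σ → Sq ι K) : Finset σ → Sq ι K :=
  fun B A => if (B.card : ℤ) - (A ∩ Z).card - k = 0 then v B A else 0

omit [LinearOrder σ] [Fintype σ] in
theorem pr_mem (k : ℤ) (v : Finset σ → Sq ι K) : pr Z k v ∈ Wr σ K Z (· = 0) k :=
  mem_Wr.2 fun _ _ h => if_neg h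

omit [LinearOrder σ] [Fintype σ] in
theorem pr_yw {p : ℕ} {U : Finset ι} {w : ℤ} (k : ℤ) {v : Finset σ → Sq ι K}
    (h : v ∈ Yw σ K p U w) : pr Z k v ∈ Yw σ K p U w := fun B A hA => by
  rw [pr, h B A hA, ite_self]

omit [LinearOrder σ] [Fintype σ] in
theorem sub_pr {k : ℤ} {v : Finset σ → Sq ι K} (h : v ∈ Wr σ K Z φ k) :
    v - pr Z k v ∈ Wr σ K Z (fun t => φ t ∧ t ≠ 0) k := mem_Wr.2 fun B A hA => by
  change v B A - pr Z k v B A = 0
  rw [pr]
  split_ifs with h1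
  · exact sub_self _
  · rw [sub_zero]
    exact mem_Wr.1 h B A fun h2 => hA ⟨h2, h1⟩

theorem dKos_Wr (g : ι → σ → F) {k : ℤ} {v : Finset σ → Sq ι K} (h : v ∈ Wr σ K Z φ k) :
    dKos K g Z v ∈ Wr σ K Z φ k := by
  have := dK_mem (a := lf K g Z) (k := -1)
    (fun l => Sh.sum _ fun i hi => ((rz_C _).mul (rz_in hi)).cast (zero_add _)) h
  rwa [show k + 1 + -1 = k by ring] at this

variable (σ K Z) in
/-- The pieces for both gradings. -/
def Vk (p : ℕ) (k : ℤ) (T : Finset ι) (w : ℤ) : AddSubgroup (Finset σ → Sq ι K) :=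
  Yw σ K p (Z ∪ T) w ⊓ Wr σ K Z (· = 0) k

omit [LinearOrder σ] [Fintype σ] in
theorem sh_Vk {p : ℕ} {k j : ℤ} {T : Finset ι} {a : MvPolynomial ι K} (h1 : Sh (Hm K (Z ∪ T)) a j)
    (h2 : Sh (Rz K Z (· = 0)) a 0) : Sh (Vk σ K Z p k T) a j := fun w y h =>
  ⟨h1.wt w y h.1, by have := h2.wt k y h.2; rwa [add_zero] at this⟩

theorem band' {p : ℕ} (hp : p.Prime) [CharP F p] (g : ι → σ → F) (a : ι → K) {S : Finset ι}
    (hd : Disjoint S Z) (hS : ∀ i ∈ S, IsUnit (a i)) (s0 : ℤ)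
    (h0 : ∀ w < s0, Ex (dKos K g Z) (Yw σ K p Z) p w) {w : ℤ} (hw : w < s0 + S.card) (k : ℤ) :
    ∀ z ∈ Vk σ K Z p k S w, ∀ y ∈ Vk σ K Z p k S (w - (p - 2)),
      dKos K g Z z + (∑ i ∈ S, C (a i) * X i : MvPolynomial ι K) ^ (p - 1) • y = 0 →
      (∑ i ∈ S, C (a i) * X i : MvPolynomial ι K) • z - dKos K g Z y = 0 →
      ∃ z' ∈ Vk σ K Z p k S (w - p), ∃ y' ∈ Vk σ K Z p k S (w - p - (p - 2)),
        dKos K g Z z' + (∑ i ∈ S, C (a i) * X i : MvPolynomial ι K) ^ (p - 1) • y' = z ∧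
        (∑ i ∈ S, C (a i) * X i : MvPolynomial ι K) • z' - dKos K g Z y' = y := by
  have hC : (p : MvPolynomial ι K) = 0 := by
    rw [← map_natCast (algebraMap F (MvPolynomial ι K)), CharP.cast_eq_zero, map_zero]
  have hZ : ∀ i ∈ S, i ∉ Z := fun i hi => disjoint_left.1 hd hi
  have := band hp hC X (fun i => C (a i)) (Vk σ K Z p k) (dKos K g Z) S s0
    (fun i v => funext fun B => X_X_smul i (v B)) (fun i hi e e0 e1 => ?_)
    (fun i _ T => sh_Vk (sh_C _ _) (rz_C _))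
    (fun T hT i hi => sh_Vk (sh_X (mem_union_right _ hi)) (rz_out (hZ i (hT hi)))) (dK_sq _)
    (fun T w v hv => ⟨dKos_mem p g subset_union_left hv.1, dKos_Wr g hv.2⟩)
    (fun T i w v hv => ⟨fun B A hA => hv.1 B A fun h => hA
      ⟨h.1.trans (union_subset_union_right (subset_insert _ _)), h.2⟩, hv.2⟩)
    (fun T _ i hi hT w y hy => ?_) (fun T _ i hi hT w w' y0 hy0 y1 hy1 h => ?_) (fun w hw v hv h => ?_)
    S subset_rfl 1 hp.one_le w (by push_cast; omega)
  · simpa only [Nat.cast_one, mul_one, pow_one] using this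
  · have h1 : (e : F) ≠ 0 := fun h =>
      absurd (Nat.le_of_dvd e0 ((CharP.cast_eq_zero_iff F p e).1 h)) e1.not_ge
    have h2 : IsUnit (e : K) := map_natCast (algebraMap F K) e ▸ (Ne.isUnit h1).map _
    obtain ⟨b, hb⟩ := (h2.mul (hS i hi)).exists_left_inv
    refine ⟨C b, ?_, fun T => sh_Vk (sh_C _ _) (rz_C _)⟩
    rw [← map_natCast (C : K →+* MvPolynomial ι K), ← map_mul, ← map_mul, hb, map_one]
  · have h1 : ∀ A : Finset ι, i ∉ A → A ⊆ Z ∪ insert i T → A ⊆ Z ∪ T := fun A hA h j hj => by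
      have := h hj
      rw [union_insert, mem_insert] at this
      exact this.resolve_left fun e => hA (e ▸ hj)
    refine ⟨fun B A => if i ∈ A then 0 else y B A, ⟨fun B A hA => ?_, mem_Wr.2 fun B A hA => ?_⟩,
      fun B A => if i ∈ A then 0 else y B (insert i A),
      ⟨fun B A hA => ?_, mem_Wr.2 fun B A hA => ?_⟩, funext fun B => Sq.ext fun A => ?_⟩
    · exact ite_eq_left_iff.2 fun h2 => hy.1 B A fun h => hA ⟨h1 A h2 h.1, h.2⟩
    · exact ite_eq_left_iff.2 fun _ => mem_Wr.1 hy.2 B A hA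
    · refine ite_eq_left_iff.2 fun h2 => hy.1 B _ fun h =>
        hA ⟨h1 A h2 ((subset_insert _ _).trans h.1), ?_⟩
      have h3 := h.2
      rw [card_insert_of_notMem h2] at h3
      omega
    · refine ite_eq_left_iff.2 fun _ => mem_Wr.1 hy.2 B _ ?_
      rwa [insert_inter_of_notMem (hZ i hi)]
    · refine Eq.symm ((congrArg ((if i ∈ A then 0 else y B A) + ·)
        (X_smul i (fun A => if i ∈ A then 0 else y B (insert i A)) A)).trans ?_)
      by_cases h2 : i ∈ A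
      · simp [h2]
      · simp [h2]
  · have h1 : ∀ A : Finset ι, i ∈ A → ¬ A ⊆ Z ∪ T := fun A hA h =>
      (mem_union.1 (h hA)).elim (hZ i hi) hT
    have h2 : ∀ B A, y0 B A + (if i ∈ A then y1 B (A.erase i) else 0) = 0 := fun B A => by
      rw [← X_smul]
      exact congrFun (congrFun h B) A
    refine ⟨funext fun B => Sq.ext fun A => ?_, funext fun B => Sq.ext fun A => ?_⟩ <;>
      by_cases h3 : i ∈ A
    · exact hy0.1 B A fun h => h1 A h3 h.1
    · have := h2 B A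
      rwa [if_neg h3, add_zero] at this
    · exact hy1.1 B A fun h => h1 A h3 h.1
    · have := h2 B (insert i A)
      rwa [if_pos (mem_insert_self _ _), erase_insert h3,
        hy0.1 B _ fun h => h1 _ (mem_insert_self _ _) h.1, zero_add] at this
  · obtain ⟨hv1, hv2⟩ := hv
    rw [union_empty] at hv1
    obtain ⟨z, hz, e⟩ := h0 w hw v hv1 h
    refine ⟨pr Z k z, ⟨by rw [union_empty]; exact pr_yw k hz, pr_mem k z⟩, sub_eq_zero.1 ?_⟩
    refine Wr_disj (sub_mem (dKos_Wr g (pr_mem k z)) hv2)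
      (dKos_Wr g (sub_pr (φ := fun _ => True) (k := k) (v := z) (mem_Wr.2 fun _ _ h => (h trivial).elim)))
      (fun t h1 h2 => h2.2 h1) ?_
    rw [map_sub, e]
    abel

end Leaf

open MvPolynomial Leaf in
/-- Exactness on a stratum. -/
theorem leaf {p : ℕ} (hp : p.Prime) [CharP F p] (g : ι → σ → F) (c : σ → K) {S Z : Finset ι}
    (hd : Disjoint S Z) (hS : ∀ i ∈ S, IsUnit (∑ l, algebraMap F K (g i l) * c l))
    (hZ : ∀ i ∈ Z, ∑ l, algebraMap F K (g i l) * c l = 0) (s0 : ℤ)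
    (h0 : ∀ w < s0, Ex (dKos K g Z) (Yw σ K p Z) p w) {w : ℤ} (hw : w < s0 + S.card) :
    Ex (dS p g (Z ∪ S) c) (Yw σ K p (Z ∪ S)) p w := by
  have hC : (p : MvPolynomial ι K) = 0 := by
    rw [← map_natCast (algebraMap F (MvPolynomial ι K)), CharP.cast_eq_zero, map_zero]
  have hZ' : ∀ i ∈ S, i ∉ Z := fun i hi => disjoint_left.1 hd hi
  obtain ⟨a, ha⟩ : ∃ a : ι → K, a = fun i => ∑ l, algebraMap F K (g i l) * c l := ⟨_, rfl⟩
  obtain ⟨θ, hθ⟩ : ∃ θ : MvPolynomial ι K, θ = ∑ i ∈ S, C (a i) * X i := ⟨_, rfl⟩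
  have e1 : θ = ∑ l, C (c l) * lf K g (Z ∪ S) l := by
    have : ∑ l, C (c l) * lf K g (Z ∪ S) l = ∑ i ∈ Z ∪ S, C (a i) * X i := by
      simp only [lf, mul_sum, ha, map_sum, sum_mul]
      rw [sum_comm]
      exact sum_congr rfl fun i _ => sum_congr rfl fun l _ => by rw [map_mul]; ring
    rw [this, sum_union hd.symm, sum_eq_zero fun i hi => by
      rw [ha]; beta_reduce; rw [hZ i hi, map_zero, zero_mul], zero_add, hθ]
  refine conj hp hC (Hm K (Z ∪ S)) (lf K g (Z ∪ S)) (fun l => C (c l)) (sh_lf g subset_rfl)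
    (fun l => sh_C _ _) w ?_
  rw [← e1]
  rcases S.eq_empty_or_nonempty with rfl | ⟨i0, hi0⟩
  · rw [hθ, sum_empty, zero_pow (by have := hp.two_le; omega), zero_smul, add_zero, union_empty]
    exact h0 w (by simpa using hw)
  obtain ⟨b, hb⟩ := (hS i0 hi0).exists_left_inv
  refine retract hp _ _ _ (fun l => C (b * algebraMap F K (g i0 l))) θ e1 ?_ (fun l => sh_C _ _)
    (fun l => sh_C _ _) w ?_
  · rw [← map_one (C : K →+* MvPolynomial ι K), ← hb, mul_sum, map_sum]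
    exact sum_congr rfl fun l _ => by rw [← map_mul]; congr 1; ring
  obtain ⟨m, hm⟩ : ∃ m : σ → MvPolynomial ι K,
    m = fun l => lf K g S l - θ * C (b * algebraMap F K (g i0 l)) := ⟨_, rfl⟩
  have e2 : (fun l => lf K g (Z ∪ S) l - θ * C (b * algebraMap F K (g i0 l))) = lf K g Z + m :=
    funext fun l => by rw [hm, lf, sum_union hd.symm, Pi.add_apply, lf, add_sub_assoc]; rfl
  have hsq : ∀ v : Finset σ → Sq ι K, dK _ (lf K g Z + m) (dK _ (lf K g Z + m) v) = 0 :=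
    fun v => LinearMap.congr_fun (dK_sq (lf K g Z + m)) v
  have hsp : ∀ v : Finset σ → Sq ι K, dK _ (lf K g Z + m) v = dKos K g Z v + dK _ m v :=
    fun v => by rw [dK_add]; rfl
  have hp1 : ∀ v : Finset σ → Sq ι K, θ • θ ^ (p - 1) • v = 0 := fun v => by
    rw [smul_smul, ← pow_succ', Nat.sub_add_cancel hp.one_le, hθ]
    exact theta_pow hp hC X (fun i => C (a i)) (fun i v => funext fun B => X_X_smul i (v B)) S v
  have t1 : Sh (Hm K (Z ∪ S)) θ 2 := hθ ▸
    Sh.sum _ fun i hi => ((sh_C _ _).mul (sh_X (mem_union_right _ hi))).cast (zero_add _)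
  have t2 : ∀ φ, Sh (Rz K Z φ) θ 0 := fun φ => hθ ▸
    Sh.sum _ fun i hi => ((rz_C _).mul (rz_out (hZ' i hi))).cast (zero_add _)
  have t3 : ∀ φ k, ∀ v ∈ Wr σ K Z φ k, θ • v ∈ Wr σ K Z φ k := fun φ k v hv => by
    have := (t2 φ).wt k v hv
    rwa [add_zero] at this
  have t4 : ∀ φ k, ∀ v ∈ Wr σ K Z φ k, θ ^ (p - 1) • v ∈ Wr σ K Z φ k := fun φ k v hv => by
    have := ((t2 φ).pow (p - 1)).wt k v hv
    rwa [mul_zero, add_zero] at this
  have m1 : ∀ w, ∀ v ∈ Yw σ K p (Z ∪ S) (w - p), dK _ m v ∈ Yw σ K p (Z ∪ S) w := fun w v hv => by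
    have := dK_mem (a := m) (k := 2) (fun l => hm ▸ (sh_lf g subset_union_right l).sub
      ((t1.mul (sh_C _ _)).cast (add_zero _))) hv
    rwa [show w - p + ((p : ℤ) - 2) + 2 = w by ring] at this
  have m2 : ∀ φ k, ∀ v ∈ Wr σ K Z φ k, dK _ m v ∈ Wr σ K Z φ (k + 1) := fun φ k v hv => by
    have := dK_mem (a := m) (k := 0) (fun l => hm ▸ Sh.sub
      (Sh.sum _ fun i hi => ((rz_C _).mul (rz_out (hZ' i hi))).cast (zero_add _))
      (((t2 φ).mul (rz_C _)).cast (add_zero _))) hv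
    rwa [add_zero] at this
  rw [e2]
  have key : ∀ (n : ℕ) (k : ℤ), k + n = Fintype.card σ + 1 →
      ∀ z ∈ Yw σ K p (Z ∪ S) w, ∀ y ∈ Yw σ K p (Z ∪ S) (w - (p - 2)),
      z ∈ Wr σ K Z (0 ≤ ·) k → y ∈ Wr σ K Z (0 ≤ ·) k →
      dK _ (lf K g Z + m) z + θ ^ (p - 1) • y = 0 → θ • z - dK _ (lf K g Z + m) y = 0 →
      ∃ z' ∈ Yw σ K p (Z ∪ S) (w - p), ∃ y' ∈ Yw σ K p (Z ∪ S) (w - p - (p - 2)),
        dK _ (lf K g Z + m) z' + θ ^ (p - 1) • y' = z ∧ θ • z' - dK _ (lf K g Z + m) y' = y := by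
    intro n
    induction n with
    | zero =>
      intro k hk z _ y _ hz hy _ _
      have h1 : ∀ v ∈ Wr σ K Z (0 ≤ ·) k, v = 0 := fun v hv => funext fun B => Sq.ext fun A =>
        mem_Wr.1 hv B A (by have := card_le_univ B; omega)
      exact ⟨0, zero_mem _, 0, zero_mem _, by simp [h1 z hz], by simp [h1 y hy]⟩
    | succ n ih =>
      intro k hk z z1 y y1 z2 y2 h1 h2
      have up : ∀ v ∈ Wr σ K Z (0 ≤ ·) k, v - pr Z k v ∈ Wr σ K Z (0 ≤ ·) (k + 1) :=
        fun v hv => Wr_mono (sub_pr hv) fun t ht => by omega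
      obtain ⟨z', ⟨a1, a2⟩, y', ⟨b1, b2⟩, c1, c2⟩ := band' hp g a hd (ha ▸ hS) s0 h0 hw k
        (pr Z k z) ⟨pr_yw k z1, pr_mem k z⟩ (pr Z k y) ⟨pr_yw k y1, pr_mem k y⟩
        (by
          rw [← hθ]
          refine Wr_disj (add_mem (dKos_Wr g (pr_mem k z)) (t4 _ _ _ (pr_mem k y)))
            (add_mem (add_mem (dKos_Wr g (up z z2)) (t4 _ _ _ (up y y2))) (m2 _ _ z z2))
            (fun t ht => by omega) ?_
          rw [← h1, hsp, map_sub, smul_sub]
          abel)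
        (by
          rw [← hθ]
          refine Wr_disj (sub_mem (t3 _ _ _ (pr_mem k z)) (dKos_Wr g (pr_mem k y)))
            (sub_mem (sub_mem (t3 _ _ _ (up z z2)) (dKos_Wr g (up y y2))) (m2 _ _ y y2))
            (fun t ht => by omega) ?_
          rw [← h2, hsp, map_sub, smul_sub]
          abel)
      rw [← hθ] at c1 c2
      have d1 : z - (dK _ (lf K g Z + m) z' + θ ^ (p - 1) • y') = z - pr Z k z - dK _ m z' := by
        rw [← c1, hsp]
        abel
      have d2 : y - (θ • z' - dK _ (lf K g Z + m) y') = y - pr Z k y + dK _ m y' := by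
        rw [← c2, hsp]
        abel
      obtain ⟨z'', a3, y'', b3, c3, c4⟩ := ih (k + 1) (by push_cast at hk; omega)
        (z - (dK _ (lf K g Z + m) z' + θ ^ (p - 1) • y'))
        (d1 ▸ sub_mem (sub_mem z1 (pr_yw k z1)) (m1 w z' a1))
        (y - (θ • z' - dK _ (lf K g Z + m) y'))
        (d2 ▸ add_mem (sub_mem y1 (pr_yw k y1)) (m1 _ y' (by rwa [sub_right_comm])))
        (d1 ▸ sub_mem (up z z2) (Wr_mono (m2 _ _ z' a2) fun t ht => by omega))
        (d2 ▸ add_mem (up y y2) (Wr_mono (m2 _ _ y' b2) fun t ht => by omega))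
        (by
          rw [map_sub, map_add, hsq, map_smul, smul_sub, smul_sub, smul_comm _ θ, hp1]
          refine Eq.trans ?_ h1
          abel)
        (by
          rw [map_sub, map_sub, hsq, map_smul, smul_sub, smul_add, hp1]
          refine Eq.trans ?_ h2
          abel)
      refine ⟨z' + z'', add_mem a1 a3, y' + y'', add_mem b1 b3, ?_, ?_⟩
      · rw [map_add, smul_add, add_add_add_comm, c3, add_sub_cancel]
      · rw [map_add, smul_add, ← sub_add_sub_comm, c4, add_sub_cancel]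
  have all : ∀ v : Finset σ → Sq ι K, v ∈ Wr σ K Z (0 ≤ ·) (-(Z.card : ℤ)) := fun v =>
    mem_Wr.2 fun B A h => absurd (by
      have := card_le_card (inter_subset_right (s₁ := A) (s₂ := Z))
      omega) h
  exact fun z hz y hy => key (Fintype.card σ + 1 + Z.card) (-(Z.card : ℤ)) (by push_cast; ring)
    z hz y hy (all z) (all y)

end Pool.Agent.Lib.MP_3184af_co.Tate
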