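import Pool.Agent.Lib.MP_3184af_co.Tate.Defs

set_option autoImplicit false

namespace Pool.Agent.Lib.MP_3184af_co.Tate

open Finset

variable {ι K : Type} [DecidableEq ι] [CommRing K]

theorem mon_mem {n : ℤ} {B : Finset ι} (h : (B.card : ℤ) ≤ n) : mon K B ∈ Pol ι K n :=
  Submodule.subset_span ⟨B, h, rfl⟩

theorem Pol.mono {m n : ℤ} (h : m ≤ n) {f : Finset ι → K} (hf : f ∈ Pol ι K m) : f ∈ Pol ι K n :=
  Submodule.span_mono (by rintro _ ⟨B, h1, h2⟩; exact ⟨B, h1.trans h, h2⟩) hf

theorem Pol.ind {n : ℤ} {P : (Finset ι → K) → Prop}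
    (h1 : ∀ B : Finset ι, (B.card : ℤ) ≤ n → P (mon K B)) (h0 : P 0)
    (h2 : ∀ f g, P f → P g → P (f + g)) (h3 : ∀ (c : K) f, P f → P (c • f))
    {f : Finset ι → K} (hf : f ∈ Pol ι K n) : P f := by
  induction hf using Submodule.span_induction with
  | mem x hx => obtain ⟨B, hB, rfl⟩ := hx; exact h1 B hB
  | zero => exact h0
  | add x y _ _ hx hy => exact h2 x y hx hy
  | smul c x _ hx => exact h3 c x hx

theorem Pol.neg {n : ℤ} (hn : n < 0) {f : Finset ι → K} (hf : f ∈ Pol ι K n) : f = 0 :=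
  Pol.ind (P := fun f : Finset ι → K => f = 0) (fun B hB => by omega) rfl
    (fun f g hf hg => by rw [hf, hg, add_zero]) (fun c f hf => by rw [hf, smul_zero]) hf

theorem Pol.const (c : K) : (fun _ => c) ∈ Pol ι K 0 := by
  have := (Pol ι K 0).smul_mem c (mon_mem (B := ∅) (by simp))
  convert this using 1
  funext U
  simp [mon]

theorem Pol.mul {m n : ℤ} {f g : Finset ι → K} (hf : f ∈ Pol ι K m) (hg : g ∈ Pol ι K n) :
    f * g ∈ Pol ι K (m + n) := by
  refine Pol.ind (P := fun f => f * g ∈ Pol ι K (m + n)) (fun B hB => ?_) (by simp)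
    (fun f f' h h' => by rw [add_mul]; exact add_mem h h')
    (fun c f h => by rw [smul_mul_assoc]; exact Submodule.smul_mem _ c h) hf
  refine Pol.ind (P := fun g => mon K B * g ∈ Pol ι K (m + n)) (fun C hC => ?_) (by simp)
    (fun f f' h h' => by rw [mul_add]; exact add_mem h h')
    (fun c f h => by rw [mul_smul_comm]; exact Submodule.smul_mem _ c h) hg
  have : mon K B * mon K C = mon K (B ∪ C) := by
    funext U
    by_cases h1 : B ⊆ U <;> by_cases h2 : C ⊆ U <;> simp [mon, union_subset_iff, h1, h2]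
  rw [this]
  exact mon_mem (by have := card_union_le B C; omega)

theorem Pol.pow {m : ℤ} {f : Finset ι → K} (hf : f ∈ Pol ι K m) (n : ℕ) :
    f ^ n ∈ Pol ι K (n * m) := by
  induction n with
  | zero => rw [pow_zero, Nat.cast_zero, zero_mul]; exact Pol.const (ι := ι) (1 : K)
  | succ n ih => rw [pow_succ]; exact Pol.mono (by push_cast; linarith) (Pol.mul ih hf)

theorem Pol.sh {m : ℤ} {f : Finset ι → K} (hf : f ∈ Pol ι K m) : Sh (Pw ι K) f (2 * m) :=
  fun j y h => Pol.mono (by omega) (Pol.mul hf h)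

theorem Pol.map {K' : Type} [CommRing K'] (ψ : K →+* K') {n : ℤ} {f : Finset ι → K}
    (hf : f ∈ Pol ι K n) : (fun I => ψ (f I)) ∈ Pol ι K' n := by
  refine Pol.ind (P := fun f => (fun I => ψ (f I)) ∈ Pol ι K' n) (fun B hB => ?_) ?_
    (fun f f' h h' => ?_) (fun c f h => ?_) hf
  · convert mon_mem (K := K') hB using 2 with I
    simp [mon, apply_ite ψ]
  · simp only [Pi.zero_apply, map_zero]
    exact (Pol ι K' n).zero_mem
  · simp only [Pi.add_apply, map_add]
    exact add_mem h h'
  · simp only [Pi.smul_apply, smul_eq_mul, map_mul]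
    exact (Pol ι K' n).smul_mem (ψ c) h

theorem Pol.alt {n : ℤ} {f : Finset ι → K} (hf : f ∈ Pol ι K n) (V : Finset ι)
    (hV : n < V.card) : ∑ C ∈ V.powerset, (-1 : K) ^ C.card * f C = 0 := by
  refine Pol.ind (P := fun f => ∑ C ∈ V.powerset, (-1 : K) ^ C.card * f C = 0) (fun B hB => ?_)
    (by simp) (fun f g h h' => by simp [mul_add, sum_add_distrib, h, h'])
    (fun c f h => by simp only [Pi.smul_apply, smul_eq_mul, mul_left_comm _ c, ← mul_sum, h,
      mul_zero]) hf
  obtain ⟨v, hv, hvB⟩ := exists_mem_notMem_of_card_lt_card (s := B) (t := V) (by omega)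
  rw [← insert_erase hv, sum_powerset_insert (notMem_erase _ _), ← sum_add_distrib]
  refine sum_eq_zero fun C hC => ?_
  have hvC : v ∉ C := fun h => notMem_erase _ _ (mem_powerset.1 hC h)
  simp only [mon, card_insert_of_notMem hvC, subset_insert_iff_of_notMem hvB, pow_succ]
  ring

theorem af_mem [Fintype ι] {σ F : Type} [Field F] [Algebra F K] (g : ι → σ → F) (b : σ → F)
    (l : σ) : af K g b l ∈ Pol ι K 1 := by
  have : af K g b l = ∑ i, algebraMap F K (g i l) • mon K {i} - fun _ => algebraMap F K (b l) := by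
    funext I
    simp [af, mon, Finset.sum_apply, Algebra.algebraMap_eq_smul_one, sub_smul, sum_smul]
  rw [this]
  exact sub_mem (sum_mem fun i _ => Submodule.smul_mem _ _ (mon_mem (by simp)))
    (Pol.mono (by omega) (Pol.const _))

theorem bin_mem [Fintype ι] (s : ℤ) (k : ℕ) : bin K s k ∈ Pol ι K k := by
  have h1 : ∀ j : ℕ, (fun I : Finset ι => ((I.card.choose j : ℕ) : K)) ∈ Pol ι K j := fun j => by
    have : (fun I : Finset ι => ((I.card.choose j : ℕ) : K)) =
        ∑ A ∈ (univ : Finset ι).powersetCard j, mon K A := by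
      funext I
      rw [Finset.sum_apply, ← card_powersetCard]
      simp only [mon]
      rw [sum_boole]
      congr 2
      ext A
      simp [and_comm]
    rw [this]
    exact sum_mem fun A hA => mon_mem (by rw [(mem_powersetCard.1 hA).2])
  have : bin K s k = ∑ ij ∈ antidiagonal k, ((Ring.choose (-s) ij.2 : ℤ) : K) •
      fun I : Finset ι => ((I.card.choose ij.1 : ℕ) : K) := by
    funext I
    rw [bin, sub_eq_add_neg, Ring.add_choose_eq _ (Commute.all _ _), Finset.sum_apply]
    push_cast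
    refine sum_congr rfl fun ij _ => ?_
    rw [Ring.choose_natCast]
    simp [mul_comm]
  rw [this]
  exact sum_mem fun ij hij => Submodule.smul_mem _ _
    (Pol.mono (by have := mem_antidiagonal.1 hij; omega) (h1 _))

end Pool.Agent.Lib.MP_3184af_co.Tate
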