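import Pool.Agent.Lib.MP_3184af_co.Tate.Pol

set_option autoImplicit false

namespace Pool.Agent.Lib.MP_3184af_co.Tate

open Finset

variable {ι K : Type} [DecidableEq ι] [Fintype ι] [CommRing K]

omit [Fintype ι] in
theorem Pol.contract {n : ℤ} (R : Finset ι) {f : Finset ι → K} (hf : f ∈ Pol ι K n) :
    (fun U => f (R ∪ U)) ∈ Pol ι K n := by
  refine Pol.ind (P := fun f => (fun U => f (R ∪ U)) ∈ Pol ι K n) (fun B hB => ?_)
    (zero_mem _) (fun f f' h h' => add_mem h h') (fun c f h => Submodule.smul_mem _ c h) hf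
  have : (fun U => mon K B (R ∪ U)) = mon K (B \ R) := by
    funext U
    simp only [mon, ← sup_eq_union, sdiff_le_iff]
  rw [this]
  exact mon_mem (by have := card_le_card (sdiff_subset (s := B) (t := R)); omega)

omit [Fintype ι] in
theorem slice_mon (B U : Finset ι) (j : ℕ) :
    ∑ C ∈ U.powersetCard (B.card + j), mon K B C = mon K B U * ((U.card - B.card).choose j : ℕ) := by
  by_cases h : B ⊆ U
  · simp only [mon, if_pos h, one_mul, sum_boole]
    rw [← card_sdiff_of_subset h, ← card_powersetCard]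
    congr 1
    refine card_bij' (fun C _ => C \ B) (fun C _ => C ∪ B) ?_ ?_ ?_ ?_
    · intro C hC
      simp only [mem_filter, mem_powersetCard] at hC ⊢
      exact ⟨sdiff_subset_sdiff hC.1.1 Subset.rfl, by rw [card_sdiff_of_subset hC.2]; omega⟩
    · intro C hC
      simp only [mem_filter, mem_powersetCard, subset_sdiff] at hC ⊢
      exact ⟨⟨union_subset hC.1.1 h, by rw [card_union_of_disjoint hC.1.2]; omega⟩,
        subset_union_right⟩
    · intro C hC
      exact sdiff_union_of_subset (mem_filter.1 hC).2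
    · intro C hC
      exact union_sdiff_cancel_right (subset_sdiff.1 (mem_powersetCard.1 hC).1).2
  · rw [mon, if_neg h, zero_mul]
    exact sum_eq_zero fun C hC => if_neg fun h' => h (h'.trans (mem_powersetCard.1 hC).1)

theorem up_mem (τ : ℕ) (f : Finset ι → K) :
    (fun U : Finset ι => ∑ C ∈ U.powersetCard τ, f C) ∈ Pol ι K τ := by
  have : (fun U : Finset ι => ∑ C ∈ U.powersetCard τ, f C) =
      ∑ C ∈ powersetCard τ (univ : Finset ι), f C • mon K C := by
    funext U
    simp only [Finset.sum_apply, Pi.smul_apply, mon, smul_eq_mul, mul_ite, mul_one, mul_zero]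
    rw [← sum_filter]
    refine sum_congr ?_ fun _ _ => rfl
    ext C
    simp [mem_powersetCard, and_comm]
  rw [this]
  exact sum_mem fun C hC => Submodule.smul_mem _ _
    (mon_mem (by have := (mem_powersetCard.1 hC).2; omega))

theorem mon_choose (B : Finset ι) (k : ℕ) :
    (fun U : Finset ι => mon K B U * ((U.card - B.card).choose k : ℕ)) ∈
      Pol ι K (B.card + k : ℕ) := by
  have := up_mem (K := K) (B.card + k) (mon K B)
  simpa only [slice_mon] using this

theorem mon_bin (B : Finset ι) (s : ℤ) (j : ℕ) (U : Finset ι) :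
    mon K B U * bin K s j U = ∑ ij ∈ antidiagonal j,
      ((Ring.choose ((B.card : ℤ) - s) ij.2 : ℤ) : K) *
        (mon K B U * ((U.card - B.card).choose ij.1 : ℕ)) := by
  by_cases h : B ⊆ U
  · have h1 := card_le_card h
    have e : (U.card : ℤ) - s = ((U.card - B.card : ℕ) : ℤ) + ((B.card : ℤ) - s) := by
      push_cast [h1]; ring
    simp only [bin, mon, if_pos h, one_mul]
    rw [e, Ring.add_choose_eq _ (Commute.all _ _)]
    push_cast [Ring.choose_natCast]
    exact sum_congr rfl fun _ _ => mul_comm _ _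
  · simp [mon, h]

variable (ι K) in
/-- Combinations of the binomials with index in `A`. -/
noncomputable def Id (s : ℤ) (A : Set ℕ) (d : ℤ) : Submodule K (Finset ι → K) :=
  Submodule.span K {x | ∃ (i : ℕ) (f : Finset ι → K), i ∈ A ∧ f ∈ Pol ι K (d - i) ∧
    x = bin K s i * f}

theorem Id.ind {s : ℤ} {A : Set ℕ} {d : ℤ} {P : (Finset ι → K) → Prop}
    (h1 : ∀ i ∈ A, ∀ f ∈ Pol ι K (d - i), P (bin K s i * f)) (h0 : P 0)
    (h2 : ∀ f g, P f → P g → P (f + g)) (h3 : ∀ (c : K) f, P f → P (c • f))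
    {f : Finset ι → K} (hf : f ∈ Id ι K s A d) : P f := by
  induction hf using Submodule.span_induction with
  | mem x hx => obtain ⟨i, g, hi, hg, rfl⟩ := hx; exact h1 i hi g hg
  | zero => exact h0
  | add x y _ _ hx hy => exact h2 x y hx hy
  | smul c x _ hx => exact h3 c x hx

theorem Id.gen {s : ℤ} {A : Set ℕ} {d : ℤ} {i : ℕ} (hi : i ∈ A) {f : Finset ι → K}
    (hf : f ∈ Pol ι K (d - i)) : bin K s i * f ∈ Id ι K s A d :=
  Submodule.subset_span ⟨i, f, hi, hf, rfl⟩

theorem Id.pol {s : ℤ} {A : Set ℕ} {d : ℤ} {f : Finset ι → K} (hf : f ∈ Id ι K s A d) :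
    f ∈ Pol ι K d :=
  Id.ind (P := fun f => f ∈ Pol ι K d)
    (fun i _ g hg => Pol.mono (by omega) (Pol.mul (bin_mem s i) hg)) (zero_mem _)
    (fun _ _ => add_mem) (fun c _ => Submodule.smul_mem _ c) hf

theorem Id.mul {s : ℤ} {A : Set ℕ} {d e : ℤ} {f g : Finset ι → K} (hf : f ∈ Id ι K s A d)
    (hg : g ∈ Pol ι K e) : f * g ∈ Id ι K s A (d + e) :=
  Id.ind (P := fun f => f * g ∈ Id ι K s A (d + e))
    (fun i hi h hh => by
      rw [mul_assoc]; exact Id.gen hi (Pol.mono (by omega) (Pol.mul hh hg)))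
    (by simp) (fun _ _ h h' => by rw [add_mul]; exact add_mem h h')
    (fun c _ h => by rw [smul_mul_assoc]; exact Submodule.smul_mem _ c h) hf

theorem Id.mono {s : ℤ} {A B : Set ℕ} {d e : ℤ} (hA : A ⊆ B) (h : d ≤ e) {f : Finset ι → K}
    (hf : f ∈ Id ι K s A d) : f ∈ Id ι K s B e :=
  Id.ind (P := fun f => f ∈ Id ι K s B e)
    (fun i hi g hg => Id.gen (hA hi) (Pol.mono (by omega) hg)) (zero_mem _)
    (fun _ _ => add_mem) (fun c _ => Submodule.smul_mem _ c) hf

theorem Id.zero {s : ℤ} {d : ℤ} {f : Finset ι → K} (hf : f ∈ Id ι K s {i | 0 < i} d)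
    {U : Finset ι} (hU : (U.card : ℤ) = s) : f U = 0 :=
  Id.ind (P := fun f => f U = 0)
    (fun i hi g _ => by simp [bin, hU, Ring.choose_zero_pos ℤ hi]) rfl
    (fun _ _ h h' => by rw [Pi.add_apply, h, h', add_zero])
    (fun c _ h => by rw [Pi.smul_apply, h, smul_zero]) hf

omit [Fintype ι] in
theorem Pol.erase {d : ℤ} (w : ι) {f : Finset ι → K} (hf : f ∈ Pol ι K d) :
    (fun U : Finset ι => f (U.erase w)) ∈ Pol ι K d := by
  refine Pol.ind (P := fun f => (fun U : Finset ι => f (U.erase w)) ∈ Pol ι K d) (fun B hB => ?_)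
    (zero_mem _) (fun f f' h h' => add_mem h h') (fun c f h => Submodule.smul_mem _ c h) hf
  by_cases hw : w ∈ B
  · have : (fun U : Finset ι => mon K B (U.erase w)) = 0 := by
      funext U
      simp [mon, subset_erase, hw]
    rw [this]; exact zero_mem _
  · have : (fun U : Finset ι => mon K B (U.erase w)) = mon K B := by
      funext U
      simp [mon, subset_erase, hw]
    rw [this]; exact mon_mem hB

omit [Fintype ι] in
theorem Pol.diff {d : ℤ} (w : ι) {f : Finset ι → K} (hf : f ∈ Pol ι K d) :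
    (fun U : Finset ι => f (U.erase w) - f (insert w U)) ∈ Pol ι K (d - 1) := by
  refine Pol.ind (P := fun f => (fun U : Finset ι => f (U.erase w) - f (insert w U)) ∈ Pol ι K (d - 1))
    (fun B hB => ?_) (by simp only [Pi.zero_apply, sub_self]; exact zero_mem _) (fun f f' h h' => ?_) (fun c f h => ?_) hf
  · by_cases hw : w ∈ B
    · have : (fun U : Finset ι => mon K B (U.erase w) - mon K B (insert w U)) =
          -mon K (B.erase w) := by
        funext U
        simp [mon, subset_erase, hw, subset_insert_iff]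
      rw [this]
      exact neg_mem (mon_mem (by have := card_erase_add_one hw; omega))
    · have : (fun U : Finset ι => mon K B (U.erase w) - mon K B (insert w U)) = 0 := by
        funext U
        simp [mon, subset_erase, hw, subset_insert_iff_of_notMem hw]
      rw [this]; exact zero_mem _
  · convert add_mem h h' using 1
    funext U
    simp only [Pi.add_apply]
    ring
  · convert Submodule.smul_mem _ c h using 1
    funext U
    simp only [Pi.smul_apply, smul_eq_mul]
    ring

theorem Id.shift {s : ℤ} {A : Set ℕ} {d : ℤ} (w : ι) {g : Finset ι → K}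
    (hg : g ∈ Id ι K s A d) :
    ∃ g' ∈ Id ι K (s + 1) A d, ∀ U : Finset ι, w ∉ U → g' (insert w U) = g U := by
  refine Id.ind (P := fun g => ∃ g' ∈ Id ι K (s + 1) A d, ∀ U : Finset ι, w ∉ U →
    g' (insert w U) = g U) (fun i hi f hf => ?_) ⟨0, zero_mem _, fun _ _ => rfl⟩ ?_ ?_ hg
  · refine ⟨_, Id.gen hi (Pol.erase w hf), fun U hU => ?_⟩
    simp only [Pi.mul_apply, bin, card_insert_of_notMem hU, erase_insert hU]
    congr 3
    push_cast
    ring
  · rintro f f' ⟨g, h1, h2⟩ ⟨g', h1', h2'⟩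
    exact ⟨g + g', add_mem h1 h1', fun U hU => by simp [h2 U hU, h2' U hU]⟩
  · rintro c f ⟨g, h1, h2⟩
    exact ⟨c • g, Submodule.smul_mem _ _ h1, fun U hU => by simp [h2 U hU]⟩

theorem up_split (d : ℕ) {f : Finset ι → K} (hf : f ∈ Pol ι K d) :
    ∃ g ∈ Id ι K d {i | 0 < i} d, ∃ h ∈ Pol ι K (d - 1), ∀ U : Finset ι,
      f U = g U + h U + ∑ C ∈ U.powersetCard d, f C := by
  refine Pol.ind (P := fun f => ∃ g ∈ Id ι K d {i | 0 < i} d, ∃ h ∈ Pol ι K (d - 1),
    ∀ U : Finset ι, f U = g U + h U + ∑ C ∈ U.powersetCard d, f C) (fun B hB => ?_)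
    ⟨0, zero_mem _, 0, zero_mem _, by simp⟩ ?_ ?_ hf
  · obtain ⟨j, rfl⟩ : ∃ j, d = B.card + j := Nat.exists_eq_add_of_le (by omega)
    rcases j with _ | j
    · exact ⟨0, zero_mem _, 0, zero_mem _, fun U => by rw [slice_mon]; simp⟩
    · refine ⟨-(bin K (B.card + (j + 1) : ℕ) (j + 1) * mon K B),
        neg_mem (Id.gen (Nat.succ_pos j) (mon_mem (by push_cast; omega))),
        mon K B + ∑ ij ∈ antidiagonal j,
          ((Ring.choose ((B.card : ℤ) - (B.card + (j + 1) : ℕ)) (ij.2 + 1) : ℤ) : K) •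
            fun U : Finset ι => mon K B U * ((U.card - B.card).choose ij.1 : ℕ),
        add_mem (mon_mem (by push_cast; omega)) (sum_mem fun ij hij =>
          Submodule.smul_mem _ _ (Pol.mono ?_ (mon_choose B ij.1))), fun U => ?_⟩
      · have := mem_antidiagonal.1 hij
        push_cast
        omega
      · have := mon_bin (K := K) B (B.card + (j + 1) : ℕ) (j + 1) U
        rw [Finset.Nat.sum_antidiagonal_succ'] at this
        rw [slice_mon]
        simp only [Pi.neg_apply, Pi.mul_apply, Pi.add_apply, Finset.sum_apply, Pi.smul_apply,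
          smul_eq_mul, Ring.choose_zero_right, Int.cast_one, one_mul] at this ⊢
        linear_combination this
  · rintro f f' ⟨g, h1, h, h2, h3⟩ ⟨g', h1', h', h2', h3'⟩
    refine ⟨g + g', add_mem h1 h1', h + h', add_mem h2 h2', fun U => ?_⟩
    simp only [Pi.add_apply, sum_add_distrib]
    linear_combination h3 U + h3' U
  · rintro c f ⟨g, h1, h, h2, h3⟩
    refine ⟨c • g, Submodule.smul_mem _ _ h1, c • h, Submodule.smul_mem _ _ h2, fun U => ?_⟩
    simp only [Pi.smul_apply, smul_eq_mul, ← mul_sum]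
    linear_combination c * h3 U

theorem div (N : ℕ) : ∀ (Ω : Finset ι) (τ : ℕ) (d : ℤ) (f : Finset ι → K), d + τ < N →
    d ≤ τ → d + τ ≤ Ω.card → f ∈ Pol ι K d → (∀ U ⊆ Ω, U.card = τ → f U = 0) →
    ∃ g ∈ Id ι K τ {i | 0 < i} d, ∀ U ⊆ Ω, f U = g U := by
  induction N with
  | zero =>
    intro Ω τ d f h0 _ _ hf _
    exact ⟨0, zero_mem _, fun U _ => by rw [Pol.neg (by omega) hf]⟩
  | succ N ih =>
    intro Ω τ d f h0 h1 h2 hf hz
    rcases lt_or_ge d 0 with hd | hd
    · exact ⟨0, zero_mem _, fun U _ => by rw [Pol.neg hd hf]⟩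
    rcases h1.eq_or_lt with rfl | h1
    · obtain ⟨g, hg, h, hh, e⟩ := up_split τ hf
      have e' : ∀ U ⊆ Ω, f U = g U + h U := fun U hU => by
        rw [e U, sum_eq_zero, add_zero]
        intro C hC
        rw [mem_powersetCard] at hC
        exact hz C (hC.1.trans hU) hC.2
      obtain ⟨g', hg', e2⟩ := ih Ω τ _ h (by omega) (by omega) (by omega) hh fun U hU hc => by
        have := e' U hU
        rw [hz U hU hc, Id.zero hg (by omega), zero_add] at this
        exact this.symm
      exact ⟨g + g', add_mem hg (Id.mono subset_rfl (by omega) hg'), fun U hU => by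
        rw [e' U hU, e2 U hU, Pi.add_apply]⟩
    · obtain ⟨τ, rfl⟩ : ∃ σ, τ = σ + 1 := ⟨τ - 1, by omega⟩
      obtain ⟨w, hw⟩ : Ω.Nonempty := card_pos.1 (by omega)
      have hc := card_erase_add_one hw
      obtain ⟨g0, hg0, e0⟩ := ih (Ω.erase w) τ d (fun U => f ({w} ∪ U)) (by omega) (by omega)
        (by omega) (Pol.contract {w} hf) fun U hU hUc => by
          rw [subset_erase] at hU
          rw [← insert_eq]
          exact hz _ (insert_subset hw hU.1) (by rw [card_insert_of_notMem hU.2, hUc])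
      obtain ⟨g1, hg1, e1⟩ := Id.shift w hg0
      have hg1' : g1 ∈ Id ι K (τ + 1 : ℕ) {i | 0 < i} d := by simpa using hg1
      have k1 : ∀ U ⊆ Ω.erase w, (f - g1) (insert w U) = 0 := fun U hU => by
        rw [Pi.sub_apply, e1 U (subset_erase.1 hU).2, ← e0 U hU, insert_eq, sub_self]
      have k2 : ∀ U ⊆ Ω.erase w, (f - g1) (U.erase w) - (f - g1) (insert w U) = (f - g1) U :=
        fun U hU => by rw [k1 U hU, sub_zero, erase_eq_of_notMem (subset_erase.1 hU).2]
      obtain ⟨g2, hg2, e2⟩ := ih (Ω.erase w) (τ + 1) (d - 1) _ (by omega) (by omega) (by omega)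
        (Pol.diff w (sub_mem hf (Id.pol hg1'))) fun U hU hUc => by
          rw [k2 U hU, Pi.sub_apply, hz U (hU.trans (erase_subset _ _)) hUc,
            Id.zero hg1' (by omega), sub_self]
      have m1 : (fun _ => (1 : K)) - mon K {w} ∈ Pol ι K 1 :=
        sub_mem (Pol.mono (by omega) (Pol.const 1)) (mon_mem (by simp))
      refine ⟨g1 + g2 * ((fun _ => (1 : K)) - mon K {w}),
        add_mem hg1' (Id.mono subset_rfl (by omega) (Id.mul hg2 m1)), fun U hU => ?_⟩
      by_cases hwU : w ∈ U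
      · have := k1 (U.erase w) (erase_subset_erase _ hU)
        rw [insert_erase hwU, Pi.sub_apply] at this
        simp only [Pi.add_apply, Pi.mul_apply, Pi.sub_apply, mon, singleton_subset_iff, hwU,
          if_true]
        linear_combination this
      · have h3 : U ⊆ Ω.erase w := subset_erase.2 ⟨hU, hwU⟩
        have := e2 U h3
        rw [k2 U h3, Pi.sub_apply] at this
        simp only [Pi.add_apply, Pi.mul_apply, Pi.sub_apply, mon, singleton_subset_iff, hwU,
          if_false]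
        linear_combination this

/-- Division on a slice. -/
theorem slice_div (U : Finset ι) (s D : ℤ) {f : Finset ι → K} (hf : f ∈ Pol ι K D) (h1 : D ≤ s)
    (h2 : D + s ≤ U.card) (h0 : ∀ I ⊆ U, (I.card : ℤ) = s → f I = 0) :
    ∃ f' ∈ Submodule.span K {h : Finset ι → K | ∃ i : ℕ, 1 ≤ i ∧ ∃ r ∈ Pol ι K (D - i),
      h = bin K s i * r}, ∀ I ⊆ U, f I = f' I := by
  rcases lt_or_ge D 0 with hD | hD
  · exact ⟨0, zero_mem _, fun I _ => by rw [Pol.neg hD hf]⟩
  obtain ⟨τ, rfl⟩ := Int.eq_ofNat_of_zero_le (hD.trans h1)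
  obtain ⟨g, hg, e⟩ := div (D + τ + 1).toNat U τ D f (by omega) h1 h2 hf
    fun I hI hc => h0 I hI (by omega)
  exact ⟨g, Submodule.span_mono (by
    rintro _ ⟨i, r, a1, a2, rfl⟩
    exact ⟨i, a1, r, a2, rfl⟩) hg, e⟩

omit [DecidableEq ι] [Fintype ι] in
theorem bin_alg (F : Type) [Field F] [Algebra F K] (s : ℤ) (i : ℕ) (U : Finset ι) :
    bin K s i U = algebraMap F K (bin F s i U) := by
  simp [bin]

omit [DecidableEq ι] [Fintype ι] in
theorem bin_mul (s : ℤ) {i q : ℕ} (h : q ≤ i) (U : Finset ι) :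
    ((i.choose q : ℕ) : K) * bin K s i U = bin K s q U * bin K (s + q) (i - q) U := by
  have := Ring.choose_smul_choose ((U.card : ℤ) - s) h
  rw [nsmul_eq_mul] at this
  simp only [bin]
  rw [← sub_sub, ← Int.cast_mul, ← this]
  push_cast
  rfl

omit [DecidableEq ι] [Fintype ι] in
theorem bin_level {s : ℤ} {k : ℕ} {U : Finset ι} (h : (U.card : ℤ) = s + k) (i : ℕ) :
    bin K s i U = (k.choose i : ℕ) := by
  simp [bin, h, Ring.choose_natCast]

theorem Id.split {s : ℤ} {A : Set ℕ} {d : ℤ} (k : ℕ) {g : Finset ι → K} (hg : g ∈ Id ι K s A d) :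
    ∃ g' ∈ Id ι K s (A \ {k}) d, ∃ f ∈ Pol ι K (d - k), g = g' + bin K s k * f := by
  refine Id.ind (P := fun g => ∃ g' ∈ Id ι K s (A \ {k}) d, ∃ f ∈ Pol ι K (d - k),
    g = g' + bin K s k * f) (fun i hi f hf => ?_) ⟨0, zero_mem _, 0, zero_mem _, by simp⟩ ?_ ?_ hg
  · by_cases h : i = k
    · subst h
      exact ⟨0, zero_mem _, f, hf, by simp⟩
    · exact ⟨_, Id.gen (A := A \ {k}) ⟨hi, h⟩ hf, 0, zero_mem _, by simp⟩
  · rintro _ _ ⟨g, h1, f, h2, rfl⟩ ⟨g', h1', f', h2', rfl⟩
    exact ⟨g + g', add_mem h1 h1', f + f', add_mem h2 h2', by ring⟩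
  · rintro c _ ⟨g, h1, f, h2, rfl⟩
    exact ⟨c • g, Submodule.smul_mem _ _ h1, c • f, Submodule.smul_mem _ _ h2, by
      rw [smul_add, mul_smul_comm]⟩

theorem newton (F : Type) [Field F] [Algebra F K] (Ω : Finset ι) (s : ℕ) (A : Set ℕ) {d : ℤ} (h1 : d ≤ s) (h2 : d + s ≤ Ω.card)
    {f : Finset ι → K} (hf : f ∈ Pol ι K d)
    (hz : ∀ U ⊆ Ω, (∀ q ∈ A, bin F s q U = 0) → f U = 0) (k : ℕ) :
    ∃ g ∈ Id ι K s {i | (∃ q ∈ A, ((i.choose q : ℕ) : F) ≠ 0) ∨ k ≤ i} d, ∀ U ⊆ Ω, f U = g U := by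
  induction k with
  | zero =>
    exact ⟨_, Id.gen (i := 0) (Or.inr le_rfl) (by simpa using hf), fun U _ => by simp [bin]⟩
  | succ k ih =>
    obtain ⟨g, hg, e⟩ := ih
    by_cases hk : ∃ q ∈ A, ((k.choose q : ℕ) : F) ≠ 0
    · refine ⟨g, Id.mono (fun i hi => ?_) le_rfl hg, e⟩
      rcases hi with hi | hi
      · exact Or.inl hi
      · rcases hi.eq_or_lt with rfl | hi
        · exact Or.inl hk
        · exact Or.inr hi
    · push Not at hk
      obtain ⟨g1, hg1, f1, hf1, rfl⟩ := Id.split k hg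
      have hg1' := Id.mono (B := {i | (∃ q ∈ A, ((i.choose q : ℕ) : F) ≠ 0) ∨ k + 1 ≤ i})
        (fun i hi => hi.1.imp id fun h => lt_of_le_of_ne h fun h' => hi.2 h'.symm) le_rfl hg1
      obtain ⟨g2, hg2, e2⟩ := div (d + s + 1).toNat Ω (s + k) (d - k) f1 (by push_cast; omega)
        (by push_cast; omega) (by push_cast; omega) hf1 fun U hU hc => by
          have hc' : (U.card : ℤ) = s + k := by omega
          have a1 : g1 U = 0 := by
            refine Id.ind (P := fun g => g U = 0) (fun i hi h _ => ?_) rfl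
              (fun _ _ h h' => by rw [Pi.add_apply, h, h', add_zero])
              (fun c _ h => by rw [Pi.smul_apply, h, smul_zero]) hg1'
            rw [Pi.mul_apply]
            refine mul_eq_zero_of_left ?_ _
            rcases hi with ⟨q, hq, hi⟩ | hi
            · have := bin_mul (K := F) s (i := i) (q := q) (by
                by_contra hc
                exact hi (by rw [Nat.choose_eq_zero_of_lt (by omega), Nat.cast_zero])) U
              rw [bin_level hc' q, hk q hq, zero_mul] at this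
              rw [bin_alg F, (mul_eq_zero.1 this).resolve_left hi, map_zero]
            · rw [bin_level hc', Nat.choose_eq_zero_of_lt hi, Nat.cast_zero]
          have := e U hU
          rw [hz U hU fun q hq => by rw [bin_level hc', hk q hq], Pi.add_apply, a1, Pi.mul_apply,
            bin_level hc'] at this
          simpa using this.symm
      refine ⟨g1 + bin K s k * g2, add_mem hg1' ?_, fun U hU => by
        rw [e U hU, Pi.add_apply, Pi.add_apply, Pi.mul_apply, Pi.mul_apply, e2 U hU]⟩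
      refine Id.ind (P := fun g => bin K s k * g ∈ Id ι K s _ d) (fun i hi h hh => ?_)
        (by simp) (fun _ _ h h' => by rw [mul_add]; exact add_mem h h')
        (fun c _ h => by rw [mul_smul_comm]; exact Submodule.smul_mem _ c h) hg2
      have : bin K s k * (bin K (s + k : ℕ) i * h) =
          (((k + i).choose k : ℕ) : K) • (bin K s (k + i) * h) := by
        funext U
        have := bin_mul (K := K) s (Nat.le_add_right k i) U
        rw [Nat.add_sub_cancel_left] at this
        simp only [Pi.mul_apply, Pi.smul_apply, smul_eq_mul, Nat.cast_add]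
        linear_combination (-h U) * this
      rw [this]
      exact Submodule.smul_mem _ _ (Id.gen (Or.inr (Nat.succ_le_of_lt (Nat.lt_add_of_pos_right hi)))
        (Pol.mono (by push_cast; omega) hh))

theorem gdiv0 (F : Type) [Field F] [Algebra F K] (Ω : Finset ι) (s d : ℤ) (A : Set ℕ) (Q : ℕ)
    {f : Finset ι → K} (hf : f ∈ Pol ι K d) (h1 : d ≤ s) (h2 : d + s ≤ Ω.card)
    (hz : ∀ U ∈ Lev F Ω s (insert Q A), f U = 0) :
    ∃ f' ∈ Pol ι K (d - Q), ∀ U ∈ Lev F Ω s A, f U = bin K s Q U * f' U := by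
  rcases lt_or_ge d 0 with hD | hD
  · exact ⟨0, zero_mem _, fun I _ => by rw [Pol.neg hD hf]; simp⟩
  obtain ⟨s, rfl⟩ := Int.eq_ofNat_of_zero_le (hD.trans h1)
  obtain ⟨g, hg, e⟩ := newton F Ω s (insert Q A) h1 h2 hf
    (fun U hU h => hz U ⟨hU, h⟩) (d + 1).toNat
  suffices h : ∃ f' ∈ Pol ι K (d - Q), ∀ U : Finset ι, (∀ q ∈ A, bin F s q U = 0) →
      g U = bin K s Q U * f' U by
    obtain ⟨f', a1, a2⟩ := h
    exact ⟨f', a1, fun U hU => by rw [e U hU.1, a2 U hU.2]⟩
  refine Id.ind (P := fun g => ∃ f' ∈ Pol ι K (d - Q), ∀ U : Finset ι,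
    (∀ q ∈ A, bin F s q U = 0) → g U = bin K s Q U * f' U) (fun i hi h hh => ?_)
    ⟨0, zero_mem _, by simp⟩ ?_ ?_ hg
  · rcases hi with ⟨q, hq, hi⟩ | hi
    · have hqi : q ≤ i := by
        by_contra hc
        exact hi (by rw [Nat.choose_eq_zero_of_lt (by omega), Nat.cast_zero])
      rcases hq with rfl | hq
      · refine ⟨algebraMap F K ((i.choose q : ℕ) : F)⁻¹ • (bin K (s + q) (i - q) * h),
          Submodule.smul_mem _ _
          (Pol.mono (by push_cast [hqi]; omega) (Pol.mul (bin_mem _ _) hh)), fun U _ => ?_⟩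
        have := bin_mul (K := K) s hqi U
        have a : algebraMap F K ((i.choose q : ℕ) : F)⁻¹ * ((i.choose q : ℕ) : K) = 1 := by
          rw [← map_natCast (algebraMap F K), ← map_mul, inv_mul_cancel₀ hi, map_one]
        simp only [Pi.mul_apply, Pi.smul_apply, smul_eq_mul]
        linear_combination (algebraMap F K ((i.choose q : ℕ) : F)⁻¹ * h U) * this -
          (bin K s i U * h U) * a
      · refine ⟨0, zero_mem _, fun U hU => ?_⟩
        have := bin_mul (K := F) s hqi U
        rw [hU q hq, zero_mul] at this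
        rw [Pi.mul_apply, bin_alg F, (mul_eq_zero.1 this).resolve_left hi]
        simp
    · exact ⟨0, zero_mem _, fun U _ => by rw [Pol.neg (by omega) hh]; simp⟩
  · rintro _ _ ⟨g, a1, a2⟩ ⟨g', a1', a2'⟩
    exact ⟨g + g', add_mem a1 a1', fun U hU => by
      rw [Pi.add_apply, a2 U hU, a2' U hU, Pi.add_apply, mul_add]⟩
  · rintro c _ ⟨g, a1, a2⟩
    exact ⟨c • g, Submodule.smul_mem _ _ a1, fun U hU => by
      rw [Pi.smul_apply, a2 U hU, Pi.smul_apply, smul_eq_mul, smul_eq_mul, mul_left_comm]⟩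

end Pool.Agent.Lib.MP_3184af_co.Tate
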