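import Pool.Agent.Lib.MP_3184af_co.Tate.Leaf

set_option autoImplicit false

namespace Pool.Agent.Lib.MP_3184af_co.Tate

open Finset

variable {ι σ F : Type} [DecidableEq ι] [LinearOrder σ] [Fintype σ] [Field F]

namespace Strat

open MvPolynomial Filter

omit [LinearOrder σ] [Fintype σ] in
theorem C_apply {K : Type} [CommRing K] (r : K) (v : Finset σ → Sq ι K) (B : Finset σ)
    (A : Finset ι) : ((C r : MvPolynomial ι K) • v) B A = r * v B A :=
  C_smul r (v B) A

omit [LinearOrder σ] [Fintype σ] in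
theorem C_mem {K : Type} [CommRing K] (r : K) {p : ℕ} {U : Finset ι} {w : ℤ}
    {v : Finset σ → Sq ι K} (hv : v ∈ Yw σ K p U w) :
    (C r : MvPolynomial ι K) • v ∈ Yw σ K p U w := by
  have := (sh_C U r).wt _ _ hv
  rwa [add_zero] at this

omit [DecidableEq ι] [LinearOrder σ] in
theorem unif (U : Finset ι) (P : Finset σ → Finset ι → ℕ → Prop)
    (h : ∀ B A, ∀ᶠ k in atTop, P B A k) : ∃ k, ∀ B, ∀ A ⊆ U, P B A k := by
  have : ∀ᶠ k in atTop, ∀ B, ∀ A ∈ U.powerset, P B A k :=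
    eventually_all.2 fun B => (eventually_all_finset _).2 fun A _ => h B A
  exact this.exists.imp fun k hk B A hA => hk B A (mem_powerset.2 hA)

theorem exists_loc {R : Type} [CommRing R] [Algebra F R] (I : Ideal R) (f : R) :
    ∃ (K : Type) (_ : CommRing K) (_ : Algebra F K) (ψ : R →ₐ[F] K), IsUnit (ψ f) ∧
      (∀ r ∈ I, ψ r = 0) ∧ (∀ y, ∀ᶠ k in atTop, ∃ r, ψ r = ψ f ^ k * y) ∧
      ∀ r, ψ r = 0 → ∀ᶠ k in atTop, f ^ k * r ∈ I := by
  let K := Localization.Away (Ideal.Quotient.mk I f)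
  refine ⟨K, inferInstance, inferInstance,
    (IsScalarTower.toAlgHom F (R ⧸ I) K).comp (Ideal.Quotient.mkₐ F I),
    IsLocalization.Away.algebraMap_isUnit (S := K) (Ideal.Quotient.mk I f), fun r hr => ?_,
    fun y => ?_, fun r hr => ?_⟩
  · change algebraMap (R ⧸ I) K (Ideal.Quotient.mk I r) = 0
    rw [Ideal.Quotient.eq_zero_iff_mem.2 hr, map_zero]
  · obtain ⟨n, a, h⟩ := IsLocalization.Away.surj (Ideal.Quotient.mk I f) y
    obtain ⟨r, rfl⟩ := Ideal.Quotient.mk_surjective a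
    filter_upwards [eventually_ge_atTop n] with k hk
    obtain ⟨m, rfl⟩ := Nat.exists_eq_add_of_le hk
    refine ⟨f ^ m * r, ?_⟩
    change algebraMap (R ⧸ I) K (Ideal.Quotient.mk I _) =
      algebraMap (R ⧸ I) K (Ideal.Quotient.mk I f) ^ _ * y
    rw [map_mul, map_mul, map_pow, map_pow, ← h]
    ring
  · obtain ⟨⟨_, n, rfl⟩, h⟩ := (IsLocalization.map_eq_zero_iff
      (Submonoid.powers (Ideal.Quotient.mk I f)) K (Ideal.Quotient.mk I r)).1 hr
    filter_upwards [eventually_ge_atTop n] with k hk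
    obtain ⟨m, rfl⟩ := Nat.exists_eq_add_of_le hk
    rw [add_comm, pow_add, mul_assoc]
    refine I.mul_mem_left _ (Ideal.Quotient.eq_zero_iff_mem.1 ?_)
    rw [map_mul, map_pow]
    exact h

/-- Exactness modulo the ideal of `D`, up to a power of `f`. -/
def ES (p : ℕ) (g : ι → σ → F) (U : Finset ι) (f : MvPolynomial σ F) (D : Submodule F (σ → F))
    (w : ℤ) : Prop :=
  ∀ v ∈ Yw σ (MvPolynomial σ F) p U w, dS p g U X v ∈ Al σ (Vl ι (idl D)) →
    ∃ k : ℕ, ∃ z ∈ Yw σ (MvPolynomial σ F) p U (w - p),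
      dS p g U X z - (C (f ^ k) : MvPolynomial ι (MvPolynomial σ F)) • v ∈ Al σ (Vl ι (idl D))

omit [LinearOrder σ] in
theorem lin_mem {D : Submodule F (σ → F)} {a : σ → F} (h : a ∈ D) : lin a ∈ idl D :=
  Ideal.subset_span ⟨a, h, rfl⟩

theorem es_leaf {p : ℕ} (hp : p.Prime) [CharP F p] (g : ι → σ → F) {S Z : Finset ι}
    (hd : Disjoint S Z) {D : Submodule F (σ → F)} (hZ : ∀ i ∈ Z, g i ∈ D) (s0 : ℤ)
    (h0 : ∀ w < s0, Ex (dKos F g Z) (Yw σ F p Z) p w) {w : ℤ} (hw : w < s0 + S.card) :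
    ES p g (Z ∪ S) (∏ i ∈ S, lin (g i)) D w := by
  obtain ⟨K, _, _, ψ, hu, hI, hs, hk⟩ := exists_loc (F := F) (idl D) (∏ i ∈ S, lin (g i))
  have e : ∀ i, ∑ l, algebraMap F K (g i l) * ψ (X l) = ψ (lin (g i)) := fun i => by
    simp [lin]
  have hc := cmap_dS ψ.toLinearMap p g (Z ∪ S) (c := X) (c' := fun l => ψ (X l))
    fun l r => map_mul ψ _ _
  have hC := fun a => cmap_C (ι := ι) (σ := σ) ψ.toLinearMap.toAddMonoidHom (a := a) (a' := ψ a)
    fun r => map_mul ψ _ _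
  have H := leaf hp g (fun l => ψ (X l)) hd
    (fun i hi => e i ▸ isUnit_of_dvd_unit
      (map_dvd ψ (dvd_prod_of_mem (fun i => lin (g i)) hi)) hu)
    (fun i hi => (e i).trans (hI _ (lin_mem (hZ i hi)))) s0
    (fun w hw => kos_base K g Z (h0 w hw)) hw
  generalize ∏ i ∈ S, lin (g i) = f at *
  generalize Z ∪ S = U at *
  intro v hv hdv
  obtain ⟨y, hy, hyv⟩ := H _ (cmap_mem ψ.toLinearMap.toAddMonoidHom hv) (by
    rw [← hc]
    exact funext fun B => Sq.ext fun A => hI _ (hdv B A))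
  obtain ⟨k, h1⟩ := unif U _ fun B A => hs (y B A)
  have h2 : ∀ B A, ∃ r, ψ r = ψ f ^ k * y B A ∧ (y B A = 0 → r = 0) := fun B A => by
    by_cases h : y B A = 0
    · exact ⟨0, by simp [h], fun _ => rfl⟩
    · obtain ⟨r, hr⟩ := h1 B A (by_contra fun hA => h (hy B A fun h' => hA h'.1))
      exact ⟨r, hr, fun h' => (h h').elim⟩
  choose z hz hz0 using h2
  change Finset σ → Sq ι (MvPolynomial σ F) at z
  have zm : z ∈ Yw σ (MvPolynomial σ F) p U (w - p) := fun B A hA => hz0 B A (hy B A hA)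
  have ez : cmap ψ.toLinearMap.toAddMonoidHom z = (C (ψ (f ^ k)) : MvPolynomial ι K) • y :=
    funext fun B => Sq.ext fun A => by rw [C_apply, map_pow]; exact hz B A
  obtain ⟨t, ht⟩ : ∃ t, t = dS p g U X z - (C (f ^ k) : MvPolynomial ι (MvPolynomial σ F)) • v :=
    ⟨_, rfl⟩
  have tm : t ∈ Yw σ (MvPolynomial σ F) p U w := by
    have := dS_mem hp.one_le g U X zm
    rw [sub_add_cancel] at this
    exact ht ▸ sub_mem this (C_mem _ hv)
  have t0 : cmap ψ.toLinearMap.toAddMonoidHom t = 0 := by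
    rw [ht, map_sub, hc, hC, ez, map_smul, hyv, sub_self]
  obtain ⟨m, h3⟩ := unif U _ fun B A => hk (t B A) (congrFun (congrFun t0 B) A)
  refine ⟨m + k, (C (f ^ m) : MvPolynomial ι (MvPolynomial σ F)) • z, C_mem _ zm, ?_⟩
  rw [map_smul, pow_add, map_mul, mul_smul, ← smul_sub, ← ht]
  intro B A
  rw [C_apply]
  by_cases hA : A ⊆ U
  · exact h3 B A hA
  · rw [tm B A fun h => hA h.1, mul_zero]
    exact zero_mem _

theorem es_step {p : ℕ} (hp : p.Prime) [CharP F p] (g : ι → σ → F) (U : Finset ι)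
    {f : MvPolynomial σ F} {D : Submodule F (σ → F)} {a : σ → F} (ha : a ∉ D) {w : ℤ}
    (h1 : ES p g U (lin a * f) D w) (h2 : ES p g U f (D ⊔ Submodule.span F {a}) (w - p)) :
    ES p g U f D w := by
  intro v hv hdv
  obtain ⟨m, h⟩ := h1 v hv hdv
  rw [mul_pow] at h
  replace h : ∃ k : ℕ, ∃ z ∈ Yw σ (MvPolynomial σ F) p U (w - p), dS p g U X z -
      (C (lin a ^ m * f ^ k) : MvPolynomial ι (MvPolynomial σ F)) • v ∈ Al σ (Vl ι (idl D)) :=
    ⟨m, h⟩
  induction m with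
  | zero => simpa using h
  | succ m ih =>
    obtain ⟨k, z, hz, h⟩ := h
    have le : idl D ≤ idl (D ⊔ Submodule.span F {a}) :=
      Ideal.span_mono (Set.image_mono fun x hx => Submodule.mem_sup_left hx)
    obtain ⟨k', u, hu, h3⟩ := h2 z hz fun B A => by
      have h4 : dS p g U X z B A - _ ∈ idl D := h B A
      rw [C_apply, pow_succ', mul_assoc, mul_assoc] at h4
      have := add_mem (le h4) (Ideal.mul_mem_right (lin a ^ m * (f ^ k * v B A)) _
        (lin_mem (Submodule.mem_sup_right (Submodule.mem_span_singleton_self a))))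
      rwa [sub_add_cancel] at this
    obtain ⟨t, ht⟩ : ∃ t, t = dS p g U X u -
      (C (f ^ k') : MvPolynomial ι (MvPolynomial σ F)) • z := ⟨_, rfl⟩
    have tm : t ∈ Yw σ (MvPolynomial σ F) p U (w - p) := by
      have := dS_mem hp.one_le g U X hu
      rw [sub_add_cancel] at this
      exact ht ▸ sub_mem this (C_mem _ hz)
    rw [← ht] at h3
    have h5 : ∀ B A, ∃ r, t B A - lin a * r ∈ idl D ∧ (t B A = 0 → r = 0) := fun B A => by
      by_cases h : t B A = 0
      · exact ⟨0, by simp [h], fun _ => rfl⟩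
      · obtain ⟨r, hr⟩ := idl_sup D a (h3 B A)
        exact ⟨r, hr, fun h' => (h h').elim⟩
    choose y hy hy0 using h5
    change Finset σ → Sq ι (MvPolynomial σ F) at y
    have ym : y ∈ Yw σ (MvPolynomial σ F) p U (w - p) :=
      fun B A hA => hy0 B A (tm B A hA)
    have h6 : t - (C (lin a) : MvPolynomial ι (MvPolynomial σ F)) • y ∈ Al σ (Vl ι (idl D)) :=
        fun B A => by
      change t B A - _ ∈ idl D
      rw [C_apply]
      exact hy B A
    have h7 := add_mem (dS_al p g U X h6)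
      (Submodule.smul_mem _ (C (f ^ k') : MvPolynomial ι (MvPolynomial σ F)) h)
    refine ih ⟨k + k', -y, neg_mem ym, fun B A => lin_reg ha ?_⟩
    rw [← C_apply]
    refine (Set.mem_of_eq_of_mem ?_ h7 : _ ∈ Al σ (Vl ι (idl D))) B A
    rw [ht, map_sub, map_sub, dS_sq hp, map_smul, map_smul, map_neg]
    simp only [pow_succ, pow_add, map_mul]
    module

theorem es_all {p : ℕ} (hp : p.Prime) [CharP F p] (g : ι → σ → F) (U : Finset ι)
    (sg : Finset ι → ℤ) (hK : ∀ Z ⊆ U, ∀ w < sg Z, Ex (dKos F g Z) (Yw σ F p Z) p w)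
    (T : Finset ι) : ∀ S ⊆ U, ∀ (D : Submodule F (σ → F)) (w : ℤ),
      (∀ i ∈ U, i ∉ S → i ∉ T → g i ∈ D) →
      (∀ Z ⊆ U, Disjoint S Z → (∀ i ∈ U, i ∉ S → i ∉ T → i ∈ Z) →
        w + p * Module.finrank F D < (U \ Z).card + sg Z +
          p * Module.finrank F ↥(D ⊔ Submodule.span F (g '' (Z : Set ι)))) →
      ES p g U (∏ i ∈ S, lin (g i)) D w := by
  induction T using Finset.induction_on with
  | empty =>
    intro S hS D w hD hw
    have hZ : ∀ i ∈ U \ S, g i ∈ D := fun i hi =>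
      hD i (mem_sdiff.1 hi).1 (mem_sdiff.1 hi).2 (notMem_empty i)
    have h := hw (U \ S) sdiff_subset disjoint_sdiff fun i h1 h2 _ => mem_sdiff.2 ⟨h1, h2⟩
    rw [sup_eq_left.2 (Submodule.span_le.2 (by rintro _ ⟨i, hi, rfl⟩; exact hZ i hi)),
      Finset.sdiff_sdiff_eq_self hS] at h
    have := es_leaf hp g disjoint_sdiff hZ _ (hK _ sdiff_subset) (w := w) (by linarith)
    rwa [sdiff_union_of_subset hS] at this
  | insert i T hi ih =>
    intro S hS D w hD hw
    by_cases h : i ∈ U → i ∉ S → g i ∈ D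
    · refine ih S hS D w (fun j h1 h2 h3 => ?_) fun Z h1 h2 h3 =>
        hw Z h1 h2 fun j h4 h5 h6 => h3 j h4 h5 fun h7 => h6 (mem_insert_of_mem h7)
      rcases eq_or_ne j i with rfl | ne
      exacts [h h1 h2, hD j h1 h2 (by simp [ne, h3])]
    obtain ⟨hU, hiS, hg⟩ : i ∈ U ∧ i ∉ S ∧ g i ∉ D := by tauto
    refine es_step hp g U hg ?_ (ih S hS _ _ (fun j h1 h2 h3 => ?_) fun Z h1 h2 h3 => ?_)
    · rw [← prod_insert (f := fun i => lin (g i)) hiS]
      refine ih _ (insert_subset hU hS) D w (fun j h1 h2 h3 => hD j h1 ?_ ?_) fun Z h1 h2 h3 =>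
        hw Z h1 (h2.mono_left (subset_insert i S)) fun j h4 h5 h6 => h3 j h4 ?_ ?_
      all_goals grind
    · rcases eq_or_ne j i with rfl | ne
      exacts [Submodule.mem_sup_right (Submodule.mem_span_singleton_self _),
        Submodule.mem_sup_left (hD j h1 h2 (by simp [ne, h3]))]
    · have h4 := hw Z h1 h2 fun j h4 h5 h6 => h3 j h4 h5 fun h7 => h6 (mem_insert_of_mem h7)
      have h5 : Submodule.span F {g i} ≤ Submodule.span F (g '' (Z : Set ι)) :=
        Submodule.span_mono (Set.singleton_subset_iff.2 ⟨i, h3 i hU hiS hi, rfl⟩)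
      rw [sup_assoc, sup_eq_right.2 h5, Submodule.finrank_sup_span_singleton hg]
      push_cast
      linarith

end Strat

/-- Exactness modulo the ideal of a subspace, from the Koszul complexes of the subfamilies. -/
theorem strat {p : ℕ} (hp : p.Prime) [CharP F p] (g : ι → σ → F) (U : Finset ι)
    (sg : Finset ι → ℤ) (hK : ∀ Z ⊆ U, ∀ w < sg Z, Ex (dKos F g Z) (Yw σ F p Z) p w)
    (D : Submodule F (σ → F)) (w : ℤ)
    (hw : ∀ Z ⊆ U, w + p * Module.finrank F D < (U \ Z).card + sg Z +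
      p * Module.finrank F ↥(D ⊔ Submodule.span F (g '' (Z : Set ι)))) :
    ExM (dS p g U (MvPolynomial.X : σ → MvPolynomial σ F)) (Yw σ (MvPolynomial σ F) p U)
      (Al σ (Vl ι (idl D))) p w := by
  intro v hv hd
  obtain ⟨k, z, hz, h⟩ := Strat.es_all hp g U sg hK U ∅ (empty_subset U) D w
    (fun i h _ h' => (h' h).elim) (fun Z h _ _ => hw Z h) v hv hd
  exact ⟨z, hz, by simpa using h⟩

end Pool.Agent.Lib.MP_3184af_co.Tate
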